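import Pool.Agent.RBM.Defs

/-!
# RBM/LdS: local diffeomorphisms, three small lemmas   (difficulty 1)

* `ld_symm`: `CSG.ld_of_comp_left` for `g = Φ.symm`, `f = Φ` (`Φ.symm ∘ Φ = id`, `CSG.ld_id`).
* `ld_off_closed`: if `Φ = id` off the closed set `K` and `p ∉ K`, then `Φ` is a local diffeomorphism at `p` (`CSG.ld_congr`,
  `CSG.ld_id`).
* `ld_conj`: `Φ ∘ f = f' ∘ L` near `a`, `f` and `L` and `f'` local diffeomorphisms (`f'` at `L a`): `Φ` is a local diffeomorphism at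
  `f a` (`CSG.ld_of_comp_left`).
-/

open scoped Manifold ContDiff Topology
open Set Filter

namespace Pool.Agent.RBM

variable {E : Type*} [NormedAddCommGroup E] [NormedSpace ℝ E] {H : Type*} [TopologicalSpace H]
  {J : ModelWithCorners ℝ E H}
  {P : Type*} [TopologicalSpace P] [ChartedSpace H P]
  {E' : Type*} [NormedAddCommGroup E'] [NormedSpace ℝ E'] {H' : Type*} [TopologicalSpace H']
  {J' : ModelWithCorners ℝ E' H'}
  {P' : Type*} [TopologicalSpace P'] [ChartedSpace H' P']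

theorem ld_symm {Φ : Equiv.Perm P} {p : P} (h : IsLocalDiffeomorphAt J J ∞ Φ p) :
    IsLocalDiffeomorphAt J J ∞ Φ.symm (Φ p) := by
  refine CSG.ld_of_comp_left (f := Φ) (g := Φ.symm) (x := p) ?_ h
  have h1 : (Φ.symm ∘ Φ : P → P) = id := by
    funext x
    exact Φ.symm_apply_apply x
  rw [h1]
  exact CSG.ld_id p

theorem ld_off_closed {Φ : P → P} {K : Set P} (hK : IsClosed K) (h : ∀ x, x ∉ K → Φ x = x) {p : P}
    (hp : p ∉ K) : IsLocalDiffeomorphAt J J ∞ Φ p := by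
  refine CSG.ld_congr (CSG.ld_id p) ?_
  filter_upwards [hK.isOpen_compl.mem_nhds hp] with x hx
  exact h x hx

theorem ld_conj {f f' : P' → P} {L : P' → P'} {Φ : P → P} {a : P'}
    (hf : IsLocalDiffeomorphAt J' J ∞ f a) (hL : IsLocalDiffeomorphAt J' J' ∞ L a)
    (hf' : IsLocalDiffeomorphAt J' J ∞ f' (L a)) (h : ∀ᶠ a' in 𝓝 a, Φ (f a') = f' (L a')) :
    IsLocalDiffeomorphAt J J ∞ Φ (f a) := by
  refine CSG.ld_of_comp_left (f := f) (g := Φ) (x := a) ?_ hf
  have h1 : IsLocalDiffeomorphAt J' J ∞ (f' ∘ L) a :=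
    IsLocalDiffeomorphAt.comp (hf := hL) (hg := hf') ..
  refine CSG.ld_congr h1 ?_
  filter_upwards [h] with x hx
  exact hx

end Pool.Agent.RBM
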