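import Pool.Agent.RBM.Frc

/-!
# RBM/WcM: heights of the holes, and the function `wc`   (difficulty 2)

`hh k i = (i+1)/(4(k+1)) ∈ (0, 1/4)`, `dl k = 1/(64 (k+1))`, so `|hh i - hh i'| ≥ 16 dl` for `i ≠ i'` and all differences
are `< 1/4` in absolute value.
* `wc_smooth`: finite sum, `frc_sq_smooth` with `F q = 1 - stp (4 dl²) (16 dl²) q`, `a = 16 dl² ≤ 16/64² < 1/4`, composed with
  `t ↦ t - 1/2 - hh i`.
* `wc_per`: `frc_add_int`.
* `wc_hole`: `x = t - 1/2 - hh i`, `|frc x| = 1/2 - |frc (t - hh i)| ≤ 2 dl` (`frc_half` for `t - hh i`, note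
  `t - hh i - 1/2`), so the term of `i` is `c i`; for `i' ≠ i`: `t - 1/2 - hh i' = x + (hh i - hh i')`, `|frc x + (hh i - hh i')| ≥
  16 dl - 2 dl`, and it is `< 1/2`, so it is the absolute value of `frc` (`frc_of`), `≥ 4 dl`: the term is `0`.
* `wc_le`: if all terms are `0`: clear.  Otherwise let `i` be an index with a nonzero term, `|frc (t - 1/2 - hh i)| < 4 dl`;
  the same computation (`16 dl - 4 dl ≥ 4 dl`) shows that the other terms are `0`, and the coefficient is in `[0, 1]`.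
-/

open scoped Manifold ContDiff Topology
open Set Filter
open Complex (I)

namespace Pool.Agent.RBM

theorem dl_pos (k : ℕ) : 0 < dl k := by
  unfold dl
  positivity
theorem dl_le (k : ℕ) : dl k ≤ 1 / 64 := by
  unfold dl
  have h : (0 : ℝ) ≤ k := Nat.cast_nonneg k
  rw [div_le_div_iff₀ (by positivity) (by norm_num)]
  linarith

variable {k : ℕ} {c : Fin k → ℂ}

theorem wc_smooth : ContDiff ℝ ∞ (wc c) := by
  unfold wc
  apply ContDiff.sum
  intro i _
  refine ContDiff.mul ?_ contDiff_const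
  apply Complex.ofRealCLM.contDiff.comp
  have h1 : ContDiff ℝ ∞ fun x : ℝ => 1 - CSG.stp (4 * dl k ^ 2) (16 * dl k ^ 2) (frc x ^ 2) := by
    refine frc_sq_smooth (F := fun q => 1 - CSG.stp (4 * dl k ^ 2) (16 * dl k ^ 2) q)
      (a := 16 * dl k ^ 2) (c := 0) ?_ ?_ ?_
    · exact contDiff_const.sub (CSG.stp_smooth _ _)
    · have := dl_le k
      have := dl_pos k
      nlinarith
    · intro q hq
      have := dl_pos k
      rw [CSG.stp_one (by nlinarith) hq, sub_self]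
  exact h1.comp (f := fun t : ℝ => t - 1 / 2 - hh k i)
    ((contDiff_id.sub contDiff_const).sub contDiff_const)

theorem wc_per (t : ℝ) : wc c (t + 1) = wc c t := by
  unfold wc
  refine Finset.sum_congr rfl fun i _ => ?_
  have e : t + 1 - 1 / 2 - hh k i = (t - 1 / 2 - hh k i) + ((1 : ℤ) : ℝ) := by
    push_cast
    ring
  rw [e, frc_add_int]

theorem WcM_hh {i i' : Fin k} (h : i ≠ i') :
    16 * dl k ≤ |hh k i - hh k i'| ∧ |hh k i - hh k i'| ≤ 1 / 4 - 16 * dl k := by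
  have hk : (0 : ℝ) < (k : ℝ) + 1 := by positivity
  have e : hh k i - hh k i' = 16 * dl k * (((i : ℕ) : ℝ) - ((i' : ℕ) : ℝ)) := by
    unfold hh dl
    field_simp
    ring
  have hd := dl_pos k
  have hdk : 16 * dl k * ((k : ℝ) + 1) = 1 / 4 := by
    unfold dl
    field_simp
    norm_num
  have h1 : (1 : ℝ) ≤ |((i : ℕ) : ℝ) - ((i' : ℕ) : ℝ)| := by
    have h2 : ((i : ℕ) : ℤ) - ((i' : ℕ) : ℤ) ≠ 0 := by
      intro h3
      apply h
      apply Fin.ext
      omega
    have h3 : (1 : ℤ) ≤ |((i : ℕ) : ℤ) - ((i' : ℕ) : ℤ)| := Int.one_le_abs h2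
    exact_mod_cast h3
  have h2 : |((i : ℕ) : ℝ) - ((i' : ℕ) : ℝ)| ≤ k := by
    have hi : ((i : ℕ) : ℝ) < k := by exact_mod_cast i.isLt
    have hi' : ((i' : ℕ) : ℝ) < k := by exact_mod_cast i'.isLt
    have h0 : (0 : ℝ) ≤ ((i : ℕ) : ℝ) := Nat.cast_nonneg _
    have h0' : (0 : ℝ) ≤ ((i' : ℕ) : ℝ) := Nat.cast_nonneg _
    rw [abs_le]
    constructor <;> linarith
  rw [e, abs_mul, abs_of_pos (by positivity)]
  constructor
  · nlinarith
  · nlinarith

theorem WcM_far' {i i' : Fin k} (h : i ≠ i') {t : ℝ} (h1 : |frc (t - 1 / 2 - hh k i)| ≤ 4 * dl k) :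
    4 * dl k ≤ |frc (t - 1 / 2 - hh k i')| := by
  obtain ⟨h2, h3⟩ := WcM_hh h
  have hd := dl_pos k
  obtain ⟨m, hm⟩ := frc_eq (t - 1 / 2 - hh k i)
  set f := frc (t - 1 / 2 - hh k i) with hf
  have e : t - 1 / 2 - hh k i' - (m : ℝ) = f + (hh k i - hh k i') := by linarith
  have h4 : |f + (hh k i - hh k i')| ≤ |f| + |hh k i - hh k i'| := abs_add_le _ _
  have h5 : |hh k i - hh k i'| ≤ |f + (hh k i - hh k i')| + |f| := by
    have := abs_sub (f + (hh k i - hh k i')) f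
    have e2 : f + (hh k i - hh k i') - f = hh k i - hh k i' := by ring
    rwa [e2] at this
  have h6 : frc (t - 1 / 2 - hh k i') = t - 1 / 2 - hh k i' - (m : ℝ) := by
    apply frc_of
    rw [e]
    linarith
  rw [h6, e]
  linarith

theorem WcM_far {i i' : Fin k} (h : i ≠ i') {t : ℝ} (h1 : |frc (t - 1 / 2 - hh k i)| ≤ 2 * dl k) :
    4 * dl k ≤ |frc (t - 1 / 2 - hh k i')| := by
  have hd := dl_pos k
  exact WcM_far' h (by linarith)

theorem wc_hole {i : Fin k} {t : ℝ} (h : 1 / 2 - 2 * dl k ≤ |frc (t - hh k i)|) : wc c t = c i := by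
  have hd := dl_pos k
  have h1 : |frc (t - 1 / 2 - hh k i)| ≤ 2 * dl k := by
    have h2 := frc_half (t - hh k i)
    have e : t - hh k i - 1 / 2 = t - 1 / 2 - hh k i := by ring
    rw [e] at h2
    linarith
  unfold wc
  rw [Finset.sum_eq_single i]
  · have h3 : frc (t - 1 / 2 - hh k i) ^ 2 ≤ 4 * dl k ^ 2 := by
      rw [← sq_abs]
      nlinarith [abs_nonneg (frc (t - 1 / 2 - hh k i))]
    rw [CSG.stp_zero (by nlinarith) h3]
    simp
  · intro i' _ hi'
    have h4 := WcM_far (fun h => hi' h.symm) h1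
    have h5 : 16 * dl k ^ 2 ≤ frc (t - 1 / 2 - hh k i') ^ 2 := by
      rw [← sq_abs (frc (t - 1 / 2 - hh k i'))]
      nlinarith [abs_nonneg (frc (t - 1 / 2 - hh k i'))]
    rw [CSG.stp_one (by nlinarith) h5]
    simp
  · intro h
    exact absurd (Finset.mem_univ i) h

theorem wc_le {M : ℝ} (h0 : 0 ≤ M) (h : ∀ i, ‖c i‖ ≤ M) (t : ℝ) : ‖wc c t‖ ≤ M := by
  have hd := dl_pos k
  by_cases hex : ∃ i : Fin k, |frc (t - 1 / 2 - hh k i)| < 4 * dl k
  · obtain ⟨i, hi⟩ := hex
    unfold wc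
    rw [Finset.sum_eq_single i]
    · have h1 := CSG.stp_nonneg (4 * dl k ^ 2) (16 * dl k ^ 2) (frc (t - 1 / 2 - hh k i) ^ 2)
      have h2 := CSG.stp_le_one (4 * dl k ^ 2) (16 * dl k ^ 2) (frc (t - 1 / 2 - hh k i) ^ 2)
      rw [norm_mul, Complex.norm_real, Real.norm_eq_abs, abs_of_nonneg (by linarith)]
      calc _ ≤ 1 * ‖c i‖ := by
            apply mul_le_mul_of_nonneg_right _ (norm_nonneg _)
            linarith
        _ ≤ M := by rw [one_mul]; exact h i
    · intro i' _ hi'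
      have h4 := WcM_far' (fun h => hi' h.symm) hi.le
      have h5 : 16 * dl k ^ 2 ≤ frc (t - 1 / 2 - hh k i') ^ 2 := by
        rw [← sq_abs (frc (t - 1 / 2 - hh k i'))]
        nlinarith [abs_nonneg (frc (t - 1 / 2 - hh k i'))]
      rw [CSG.stp_one (by nlinarith) h5]
      simp
    · intro h
      exact absurd (Finset.mem_univ i) h
  · push Not at hex
    have h0' : wc c t = 0 := by
      unfold wc
      refine Finset.sum_eq_zero fun i _ => ?_
      have h4 := hex i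
      have h5 : 16 * dl k ^ 2 ≤ frc (t - 1 / 2 - hh k i) ^ 2 := by
        rw [← sq_abs (frc (t - 1 / 2 - hh k i))]
        nlinarith [abs_nonneg (frc (t - 1 / 2 - hh k i))]
      rw [CSG.stp_one (by nlinarith) h5]
      simp
    rw [h0', norm_zero]
    exact h0

end Pool.Agent.RBM
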