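import Pool.Agent.RBM.DtM
import Pool.Agent.RBM.WcM

/-!
# RBM/LaDM: the isotopy of the 4-move   (difficulty 3)

`LaD (y, s, t) = (8 x.1, s, t + (x.2 - u))`, `x = Dt a ψ (y/8, u)`, `a = as s`, `ψ = ps s`, `u = frc (t - 1/2 - h)`, `h = hh 1 0`.
Always `a = 1` (for `s ≤ -1/32`) or `ψ = 0` (for `s ≥ -1/32`).
* The inverse is the same formula with `Dt'`: if `|u| < 1/2` then `|x.2| < 1/2` (`Dt_abs`, also for `Dt'`: same proof, or use
  `Dt_inv'`), and `frc (t + (x.2 - u) - 1/2 - h) = x.2` (`t - 1/2 - h - u` is an integer, `frc_of`).  If `|u| = 1/2`: `Dt` preserves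
  `u` (`Dt_high` if `a = 1`, `Dt_cyl` if `ψ = 0`), and `frc (t - 1/2 - h) = u` again.
* ld: smooth with smooth inverse (`CSG.ld_of_perm` for the permutation of `ℂ × ℝ × ℝ`, or `ld_of_fderiv` / `RSG.ld_two`).
  Smoothness at `(y, s, t)`: if `|u| < 1/2`, `frc` is smooth there.  If `|u| = 1/2`: near the point `frc² ≥ 144/625`.  If `s < -1/32`:
  `a = 1` near it and `Dt = id`, so `LaD = id` near it.  If `s ≥ -1/32`: near the point either `a = 1` (and then `LaD = id`, `Hf 1 = 0`)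
  or `ψ = 0`; in both cases `LaD (y', s', t') = (ex (2 (1 - as s') (1 - stp .. (‖y'/8‖²))) y', s', t')` (for `frc² ≥ 144/625` the second
  term of `Hf` vanishes; for `s' < -1/32`, `1 - as s' = 0`), which is smooth.
* s, per clear (`frc_add_int`).  low: `a = 1`, `ψ = 1/2`: `Dt_half`.  out: `‖y/8‖² ≥ (39/80)² ≥ 144/625`: `Dt_out`.
* hole: `|u| = 1/2 - |frc (t - h)| ≤ 2 dl 1 = 1/64` (`frc_half`), `‖y/8‖ ≤ 17/40`: `(17/40)² + (1/64)² ≤ 1849/10000`: `Dt_in`.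
* high: `s ≥ 1/16`: `a = 0`, `ψ = 0`: `Dt_cyl`, `Hf 0`: `RD`.
-/
open scoped Manifold ContDiff Topology
open Set Filter
open Complex (I)

namespace Pool.Agent.RBM

/-- the fractional coordinate -/
noncomputable def LaDM_F (t : ℝ) : ℝ := frc (t - 1 / 2 - hh 1 0)

/-- the map `LaD` for a general double rotation -/
noncomputable def LaDM_g (DD : ℝ → ℝ → ℂ × ℝ → ℂ × ℝ) (a : ℂ × ℝ × ℝ) : ℂ × ℝ × ℝ :=
  (8 * (DD (as a.2.1) (ps a.2.1) (a.1 / 8, LaDM_F a.2.2)).1, a.2.1,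
    a.2.2 + ((DD (as a.2.1) (ps a.2.1) (a.1 / 8, LaDM_F a.2.2)).2 - LaDM_F a.2.2))

theorem LaDM_eq : LaD = LaDM_g Dt := rfl

theorem LaDM_as_smooth : ContDiff ℝ ∞ as := by
  unfold as
  exact contDiff_const.sub (CSG.stp_smooth _ _)

theorem LaDM_ps_smooth : ContDiff ℝ ∞ ps := by
  unfold ps
  exact (contDiff_const.sub (CSG.stp_smooth _ _)).div_const _

theorem LaDM_as_one {s : ℝ} (h : s ≤ -(1 / 32)) : as s = 1 := by
  unfold as
  rw [CSG.stp_zero (by norm_num) h, sub_zero]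

theorem LaDM_as_zero {s : ℝ} (h : 1 / 16 ≤ s) : as s = 0 := by
  unfold as
  rw [CSG.stp_one (by norm_num) h, sub_self]

theorem LaDM_ps_zero {s : ℝ} (h : -(1 / 32) ≤ s) : ps s = 0 := by
  unfold ps
  rw [CSG.stp_one (by norm_num) h, sub_self, zero_div]

theorem LaDM_ps_half {s : ℝ} (h : s ≤ -(1 / 8)) : ps s = 1 / 2 := by
  unfold ps
  rw [CSG.stp_zero (by norm_num) h, sub_zero]

theorem LaDM_ap (s : ℝ) : as s = 1 ∨ ps s = 0 := by
  rcases le_total s (-(1 / 32)) with h | h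
  · exact Or.inl (LaDM_as_one h)
  · exact Or.inr (LaDM_ps_zero h)

theorem LaDM_F_abs (t : ℝ) : |LaDM_F t| ≤ 1 / 2 := frc_abs _

theorem LaDM_F_cont : Continuous fun t => |LaDM_F t| := by
  unfold LaDM_F
  exact frc_abs_cont.comp ((continuous_id.sub continuous_const).sub continuous_const)

theorem LaDM_F_smooth {t : ℝ} (h : |LaDM_F t| < 1 / 2) : ContDiffAt ℝ ∞ LaDM_F t := by
  unfold LaDM_F at h ⊢
  have h1 := frc_smooth h
  exact ContDiffAt.comp (g := frc) t h1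
    ((contDiffAt_id.sub contDiffAt_const).sub contDiffAt_const)

theorem LaDM_Hf_high (a : ℝ) {x : ℂ × ℝ} (h : 144 / 625 ≤ x.2 ^ 2) :
    Hf a x = (1 - a) * (1 - CSG.stp (1849 / 10000) (144 / 625) (‖x.1‖ ^ 2)) := by
  unfold Hf
  have h1 : CSG.stp (1849 / 10000) (144 / 625) (‖x.1‖ ^ 2 + x.2 ^ 2) = 1 :=
    CSG.stp_one (by norm_num) (by nlinarith [sq_nonneg ‖x.1‖])
  rw [h1, sub_self, mul_zero, add_zero]

theorem LaDM_Hf_rot (a θ : ℝ) (x : ℂ × ℝ) : Hf a (RSG.ex θ * x.1, x.2) = Hf a x := by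
  unfold Hf
  simp only [norm_mul, RSG.ex_norm, one_mul]

/-- smoothness -/
theorem LaDM_smooth (DD : ℝ → ℝ → ℂ × ℝ → ℂ × ℝ) (e : ℝ)
    (hs : ContDiff ℝ ∞ fun q : ℝ × ℝ × ℂ × ℝ => DD q.1 q.2.1 q.2.2)
    (h1 : ∀ ψ x, 144 / 625 ≤ x.2 ^ 2 → DD 1 ψ x = x)
    (h2 : ∀ a x, DD a 0 x = (RSG.ex (e * (2 * Hf a x)) * x.1, x.2)) :
    ContDiff ℝ ∞ (LaDM_g DD) := by
  rw [contDiff_iff_contDiffAt]
  rintro ⟨y₀, s₀, t₀⟩
  rcases lt_or_eq_of_le (LaDM_F_abs t₀) with hF | hF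
  · -- smooth coordinate
    have hu : ContDiffAt ℝ ∞ (fun a : ℂ × ℝ × ℝ => LaDM_F a.2.2) (y₀, s₀, t₀) :=
      ContDiffAt.comp (g := LaDM_F) (y₀, s₀, t₀) (LaDM_F_smooth hF)
        (contDiff_snd.comp contDiff_snd).contDiffAt
    have hq : ContDiffAt ℝ ∞ (fun a : ℂ × ℝ × ℝ =>
        (as a.2.1, ps a.2.1, a.1 / 8, LaDM_F a.2.2)) (y₀, s₀, t₀) := by
      refine ContDiffAt.prodMk ?_ (ContDiffAt.prodMk ?_ (ContDiffAt.prodMk ?_ hu))
      · exact (LaDM_as_smooth.comp (contDiff_fst.comp contDiff_snd)).contDiffAt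
      · exact (LaDM_ps_smooth.comp (contDiff_fst.comp contDiff_snd)).contDiffAt
      · exact (contDiff_fst.div_const _).contDiffAt
    have hx : ContDiffAt ℝ ∞ (fun a : ℂ × ℝ × ℝ =>
        DD (as a.2.1) (ps a.2.1) (a.1 / 8, LaDM_F a.2.2)) (y₀, s₀, t₀) :=
      ContDiffAt.comp (g := fun q : ℝ × ℝ × ℂ × ℝ => DD q.1 q.2.1 q.2.2) (y₀, s₀, t₀)
        hs.contDiffAt hq
    unfold LaDM_g
    refine ContDiffAt.prodMk ?_ (ContDiffAt.prodMk ?_ ?_)
    · exact contDiffAt_const.mul hx.fst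
    · exact (contDiff_fst.comp contDiff_snd).contDiffAt
    · exact (contDiff_snd.comp contDiff_snd).contDiffAt.add (hx.snd.sub hu)
  · -- near the half integers
    have hG : ContDiff ℝ ∞ (fun a : ℂ × ℝ × ℝ =>
        ((RSG.ex (e * (2 * ((1 - as a.2.1) *
          (1 - CSG.stp (1849 / 10000) (144 / 625) (‖a.1 / 8‖ ^ 2))))) * a.1, a.2.1, a.2.2) :
          ℂ × ℝ × ℝ)) := by
      refine ContDiff.prodMk (ContDiff.mul (RSG.ex_smooth.comp ?_) contDiff_fst) contDiff_snd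
      refine contDiff_const.mul (contDiff_const.mul (ContDiff.mul ?_ ?_))
      · exact contDiff_const.sub (LaDM_as_smooth.comp (contDiff_fst.comp contDiff_snd))
      · refine contDiff_const.sub ((CSG.stp_smooth _ _).comp ?_)
        exact (contDiff_norm_sq ℝ).comp (contDiff_fst.div_const _)
    refine hG.contDiffAt.congr_of_eventuallyEq ?_
    have hev : ∀ᶠ a : ℂ × ℝ × ℝ in 𝓝 (y₀, s₀, t₀), 12 / 25 < |LaDM_F a.2.2| := by
      have hc : Continuous fun a : ℂ × ℝ × ℝ => |LaDM_F a.2.2| :=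
        LaDM_F_cont.comp (continuous_snd.comp continuous_snd)
      refine hc.continuousAt.eventually_const_lt ?_
      show 12 / 25 < |LaDM_F t₀|
      rw [hF]
      norm_num
    filter_upwards [hev] with a ha
    have hsq : 144 / 625 ≤ ((a.1 / 8, LaDM_F a.2.2) : ℂ × ℝ).2 ^ 2 := by
      show 144 / 625 ≤ (LaDM_F a.2.2) ^ 2
      rw [← sq_abs]
      nlinarith
    unfold LaDM_g
    rcases le_total a.2.1 (-(1 / 32)) with hs1 | hs1
    · rw [LaDM_as_one hs1, h1 _ _ hsq]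
      simp only [sub_self, zero_mul, mul_zero, RSG.ex_zero, one_mul, add_zero]
      rw [mul_div_cancel₀ _ (by norm_num : (8 : ℂ) ≠ 0)]
    · rw [LaDM_ps_zero hs1, h2, LaDM_Hf_high _ hsq]
      simp only [sub_self, add_zero]
      refine Prod.ext ?_ rfl
      simp only
      ring

theorem LaDM_cyl' (a : ℝ) (x : ℂ × ℝ) :
    Dt' a 0 x = (RSG.ex (-1 * (2 * Hf a x)) * x.1, x.2) := by
  have h1 : Dt a 0 (RSG.ex (-1 * (2 * Hf a x)) * x.1, x.2) = x := by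
    rw [Dt_cyl, LaDM_Hf_rot]
    refine Prod.ext ?_ rfl
    simp only
    rw [← mul_assoc, ← RSG.ex_add]
    have : 2 * Hf a x + -1 * (2 * Hf a x) = 0 := by ring
    rw [this, RSG.ex_zero, one_mul]
  have h2 := Dt_inv (Or.inr rfl : a = 1 ∨ (0 : ℝ) = 0) (RSG.ex (-1 * (2 * Hf a x)) * x.1, x.2)
  rw [h1] at h2
  exact h2

theorem LaDM_high' (ψ : ℝ) {x : ℂ × ℝ} (h : 144 / 625 ≤ x.2 ^ 2) : Dt' 1 ψ x = x := by
  have h2 := Dt_inv (Or.inl rfl : (1 : ℝ) = 1 ∨ ψ = 0) x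
  rwa [Dt_high ψ h] at h2

theorem LaDM_abs' {a ψ : ℝ} (h : a = 1 ∨ ψ = 0) {x : ℂ × ℝ} (hx : |x.2| < 1 / 2) :
    |(Dt' a ψ x).2| < 1 / 2 := by
  rcases h with rfl | rfl
  · by_contra hno
    push Not at hno
    have h1 : 144 / 625 ≤ (Dt' 1 ψ x).2 ^ 2 := by
      rw [← sq_abs]
      nlinarith
    have h2 := Dt_high ψ h1
    rw [Dt_inv' (Or.inl rfl)] at h2
    rw [← h2] at hno
    linarith
  · rw [LaDM_cyl']
    exact hx

theorem LaDM_sq {u : ℝ} (h : |u| = 1 / 2) : 144 / 625 ≤ u ^ 2 := by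
  rw [← sq_abs, h]
  norm_num

/-- the new fractional coordinate -/
theorem LaDM_F_new (DD : ℝ → ℝ → ℂ × ℝ → ℂ × ℝ) (a ψ : ℝ) (y : ℂ) (t : ℝ)
    (h1 : |LaDM_F t| < 1 / 2 → |(DD a ψ (y, LaDM_F t)).2| < 1 / 2)
    (h2 : |LaDM_F t| = 1 / 2 → (DD a ψ (y, LaDM_F t)).2 = LaDM_F t) :
    LaDM_F (t + ((DD a ψ (y, LaDM_F t)).2 - LaDM_F t)) = (DD a ψ (y, LaDM_F t)).2 := by
  rcases lt_or_eq_of_le (LaDM_F_abs t) with hF | hF
  · have h3 := h1 hF
    set w := (DD a ψ (y, LaDM_F t)).2 with hw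
    obtain ⟨m, hm⟩ := frc_eq (t - 1 / 2 - hh 1 0)
    have hm' : LaDM_F t = t - 1 / 2 - hh 1 0 - m := hm
    have h4 : t + (w - LaDM_F t) - 1 / 2 - hh 1 0 - m = w := by
      rw [hm']
      ring
    have h5 : frc (t + (w - LaDM_F t) - 1 / 2 - hh 1 0) =
        t + (w - LaDM_F t) - 1 / 2 - hh 1 0 - m := frc_of (by rw [h4]; exact h3)
    unfold LaDM_F at h5 h4 ⊢
    rw [h5, h4]
  · rw [h2 hF, sub_self, add_zero]

theorem LaDM_new (s : ℝ) (y : ℂ) (t : ℝ) :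
    LaDM_F (t + ((Dt (as s) (ps s) (y, LaDM_F t)).2 - LaDM_F t)) =
      (Dt (as s) (ps s) (y, LaDM_F t)).2 := by
  refine LaDM_F_new Dt _ _ y t (fun h => Dt_abs (LaDM_ap s) h) fun h => ?_
  rcases LaDM_ap s with h1 | h1
  · rw [h1, Dt_high _ (LaDM_sq h)]
  · rw [h1, Dt_cyl]

theorem LaDM_new' (s : ℝ) (y : ℂ) (t : ℝ) :
    LaDM_F (t + ((Dt' (as s) (ps s) (y, LaDM_F t)).2 - LaDM_F t)) =
      (Dt' (as s) (ps s) (y, LaDM_F t)).2 := by
  refine LaDM_F_new Dt' _ _ y t (fun h => LaDM_abs' (LaDM_ap s) h) fun h => ?_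
  rcases LaDM_ap s with h1 | h1
  · rw [h1, LaDM_high' _ (LaDM_sq h)]
  · rw [h1, LaDM_cyl']

theorem LaDM_left (a : ℂ × ℝ × ℝ) : LaDM_g Dt' (LaDM_g Dt a) = a := by
  obtain ⟨y, s, t⟩ := a
  unfold LaDM_g
  simp only [LaDM_new]
  have h1 : (8 * (Dt (as s) (ps s) (y / 8, LaDM_F t)).1 / 8,
      (Dt (as s) (ps s) (y / 8, LaDM_F t)).2) = Dt (as s) (ps s) (y / 8, LaDM_F t) := by
    refine Prod.ext ?_ rfl
    simp only
    rw [mul_div_cancel_left₀ _ (by norm_num : (8 : ℂ) ≠ 0)]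
  rw [h1, Dt_inv (LaDM_ap s)]
  refine Prod.ext ?_ (Prod.ext rfl ?_)
  · simp only
    rw [mul_div_cancel₀ _ (by norm_num : (8 : ℂ) ≠ 0)]
  · simp only
    ring

theorem LaDM_right (a : ℂ × ℝ × ℝ) : LaDM_g Dt (LaDM_g Dt' a) = a := by
  obtain ⟨y, s, t⟩ := a
  unfold LaDM_g
  simp only [LaDM_new']
  have h1 : (8 * (Dt' (as s) (ps s) (y / 8, LaDM_F t)).1 / 8,
      (Dt' (as s) (ps s) (y / 8, LaDM_F t)).2) = Dt' (as s) (ps s) (y / 8, LaDM_F t) := by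
    refine Prod.ext ?_ rfl
    simp only
    rw [mul_div_cancel_left₀ _ (by norm_num : (8 : ℂ) ≠ 0)]
  rw [h1, Dt_inv' (LaDM_ap s)]
  refine Prod.ext ?_ (Prod.ext rfl ?_)
  · simp only
    rw [mul_div_cancel₀ _ (by norm_num : (8 : ℂ) ≠ 0)]
  · simp only
    ring

theorem LaD_isLam : IsLam (39 / 10) (fun _ : Fin 1 => (0 : ℂ)) (fun _ => 1) LaD RD := by
  rw [LaDM_eq]
  constructor
  · -- ld
    intro q
    refine CSG.ld_of_perm (f := (⟨LaDM_g Dt, LaDM_g Dt', LaDM_left, LaDM_right⟩ :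
      (ℂ × ℝ × ℝ) ≃ (ℂ × ℝ × ℝ))) ?_ ?_ q
    · exact LaDM_smooth Dt 1 Dt_smooth (fun ψ x h => Dt_high ψ h)
        (fun a x => by rw [one_mul]; exact Dt_cyl a x)
    · exact LaDM_smooth Dt' (-1) Dt'_smooth (fun ψ x h => LaDM_high' ψ h) LaDM_cyl'
  · rw [Function.bijective_iff_has_inverse]
    exact ⟨LaDM_g Dt', LaDM_left, LaDM_right⟩
  · intro y s t
    rfl
  · -- per
    intro y s t
    have h1 : LaDM_F (t + 1) = LaDM_F t := by
      unfold LaDM_F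
      have h2 := frc_add_int (t - 1 / 2 - hh 1 0) 1
      rw [← h2]
      congr 1
      push_cast
      ring
    unfold LaDM_g
    simp only [h1, Prod.mk_add_mk, add_zero]
    refine Prod.ext rfl (Prod.ext rfl ?_)
    simp only
    ring
  · -- low
    intro y s t hs
    unfold LaDM_g
    simp only [LaDM_as_one (show s ≤ -(1 / 32) by linarith), LaDM_ps_half hs, Dt_half, sub_self,
      add_zero]
    rw [mul_div_cancel₀ _ (by norm_num : (8 : ℂ) ≠ 0)]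
  · -- out
    intro y s t hy
    have h8 : ‖(8 : ℂ)‖ = 8 := by norm_num
    have h1 : 144 / 625 ≤ ‖((y / 8, LaDM_F t) : ℂ × ℝ).1‖ ^ 2 := by
      show 144 / 625 ≤ ‖y / 8‖ ^ 2
      rw [norm_div, h8]
      nlinarith [norm_nonneg y]
    unfold LaDM_g
    simp only [Dt_out _ _ h1, sub_self, add_zero]
    rw [mul_div_cancel₀ _ (by norm_num : (8 : ℂ) ≠ 0)]
  · -- hole
    intro i y s t hy ht
    have hi : i = 0 := Subsingleton.elim _ _
    rw [hi] at ht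
    rw [sub_zero] at hy
    have h8 : ‖(8 : ℂ)‖ = 8 := by norm_num
    have hu : |LaDM_F t| ≤ 1 / 64 := by
      have h1 := frc_half (t - hh 1 0)
      have h2 : t - hh 1 0 - 1 / 2 = t - 1 / 2 - hh 1 0 := by ring
      rw [h2] at h1
      show |frc (t - 1 / 2 - hh 1 0)| ≤ 1 / 64
      rw [h1]
      have h3 : dl 1 = 1 / 128 := by
        unfold dl
        norm_num
      rw [h3] at ht
      linarith
    have h1 : ‖((y / 8, LaDM_F t) : ℂ × ℝ).1‖ ^ 2 + ((y / 8, LaDM_F t) : ℂ × ℝ).2 ^ 2 ≤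
        1849 / 10000 := by
      show ‖y / 8‖ ^ 2 + (LaDM_F t) ^ 2 ≤ 1849 / 10000
      rw [norm_div, h8, ← sq_abs (LaDM_F t)]
      have e1 := norm_nonneg y
      have e2 := abs_nonneg (LaDM_F t)
      nlinarith
    unfold LaDM_g
    simp only [Dt_in _ _ h1, sub_self, add_zero]
    rw [mul_div_cancel₀ _ (by norm_num : (8 : ℂ) ≠ 0)]
  · -- high
    intro y s t hs
    unfold LaDM_g RD
    simp only [LaDM_as_zero hs, LaDM_ps_zero (show -(1 / 32) ≤ s by linarith), Dt_cyl, sub_self,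
      add_zero]
    refine Prod.ext ?_ rfl
    unfold Hf
    simp only [zero_mul, sub_zero, one_mul, add_zero]
    ring

end Pool.Agent.RBM
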