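import Pool.Agent.RBM.Defs
import Pool.Agent.RSG.ExM

/-!
# RBM/MsDM: the 4-move   (difficulty 1)

`MsD (y, s) = ex (2 gs s f y) y`, `f y = 1 - stp (1849/10000) (144/625) (‖y/8‖²)` depends only on `‖y‖`.  Inverse: the same with
`-`.  ld: `CSG.ld_of_perm`.  out: `‖y/8‖² ≥ (39/80)² ≥ 144/625`.  R_in: `‖y/8‖ ≤ 17/40`, `(17/40)² ≤ 1849/10000`, `ex 2 = 1`.
-/

open scoped Manifold ContDiff Topology
open Set Filter
open Complex (I)

namespace Pool.Agent.RBM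

theorem MsDM_gs_smooth : ContDiff ℝ ∞ gs := by
  unfold gs
  exact CSG.stp_smooth _ _

theorem MsDM_f_smooth : ContDiff ℝ ∞ fun y : ℂ =>
    (1 - CSG.stp (1849 / 10000) (144 / 625) (‖y / 8‖ ^ 2)) := by
  have h1 : ContDiff ℝ ∞ fun y : ℂ => y / 8 := contDiff_id.div_const _
  have h2 : ContDiff ℝ ∞ fun y : ℂ => ‖y / 8‖ ^ 2 := (contDiff_norm_sq ℝ).comp h1
  exact contDiff_const.sub ((CSG.stp_smooth _ _).comp h2)

theorem MsDM_norm (θ : ℝ) (y : ℂ) : ‖RSG.ex θ * y / 8‖ = ‖y / 8‖ := by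
  rw [norm_div, norm_div, norm_mul, RSG.ex_norm, one_mul]

/-- the family of permutations -/
noncomputable def MsDM_g (s : ℝ) : ℂ ≃ ℂ where
  toFun y := MsD (y, s)
  invFun y := RSG.ex (-(2 * gs s * (1 - CSG.stp (1849 / 10000) (144 / 625) (‖y / 8‖ ^ 2)))) * y
  left_inv y := by
    show RSG.ex (-(2 * gs s * (1 - CSG.stp (1849 / 10000) (144 / 625)
      (‖RSG.ex (2 * gs s * (1 - CSG.stp (1849 / 10000) (144 / 625) (‖y / 8‖ ^ 2))) * y / 8‖ ^ 2))))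
      * (RSG.ex (2 * gs s * (1 - CSG.stp (1849 / 10000) (144 / 625) (‖y / 8‖ ^ 2))) * y) = y
    rw [MsDM_norm, ← mul_assoc, ← RSG.ex_add, neg_add_cancel, RSG.ex_zero, one_mul]
  right_inv y := by
    show RSG.ex (2 * gs s * (1 - CSG.stp (1849 / 10000) (144 / 625)
      (‖RSG.ex (-(2 * gs s * (1 - CSG.stp (1849 / 10000) (144 / 625) (‖y / 8‖ ^ 2)))) * y / 8‖ ^ 2)))
      * (RSG.ex (-(2 * gs s * (1 - CSG.stp (1849 / 10000) (144 / 625) (‖y / 8‖ ^ 2)))) * y) = y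
    rw [MsDM_norm, ← mul_assoc, ← RSG.ex_add, add_neg_cancel, RSG.ex_zero, one_mul]

theorem MsDM_smooth : ContDiff ℝ ∞ fun q : ℂ × ℝ => MsDM_g q.2 q.1 := by
  have h1 : ContDiff ℝ ∞ fun q : ℂ × ℝ => gs q.2 := MsDM_gs_smooth.comp contDiff_snd
  have h2 : ContDiff ℝ ∞ fun q : ℂ × ℝ =>
    (1 - CSG.stp (1849 / 10000) (144 / 625) (‖q.1 / 8‖ ^ 2)) := MsDM_f_smooth.comp contDiff_fst
  exact (RSG.ex_smooth.comp ((contDiff_const.mul h1).mul h2)).mul contDiff_fst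

theorem MsDM_smooth' : ContDiff ℝ ∞ fun q : ℂ × ℝ => (MsDM_g q.2).symm q.1 := by
  have h1 : ContDiff ℝ ∞ fun q : ℂ × ℝ => gs q.2 := MsDM_gs_smooth.comp contDiff_snd
  have h2 : ContDiff ℝ ∞ fun q : ℂ × ℝ =>
    (1 - CSG.stp (1849 / 10000) (144 / 625) (‖q.1 / 8‖ ^ 2)) := MsDM_f_smooth.comp contDiff_fst
  exact (RSG.ex_smooth.comp ((contDiff_const.mul h1).mul h2).neg).mul contDiff_fst

theorem MsDM_RD (y : ℂ) : RD y = MsD (y, 1) := by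
  have h : gs 1 = 1 := by
    unfold gs
    exact CSG.stp_one (by norm_num) (by norm_num)
  unfold RD MsD
  simp only [h, mul_one]

theorem MsDM_stp0 {y : ℂ} (h : ‖y‖ ≤ 17 / 5) :
    CSG.stp (1849 / 10000) (144 / 625) (‖y / 8‖ ^ 2) = 0 := by
  apply CSG.stp_zero (by norm_num)
  rw [norm_div]
  have h0 := norm_nonneg y
  have : ‖(8 : ℂ)‖ = 8 := by norm_num
  rw [this]
  nlinarith

theorem MsDM_apply (s : ℝ) (y : ℂ) : MsDM_g s y = MsD (y, s) := rfl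

theorem MsDM_ld (q : ℂ × ℝ) : IsLocalDiffeomorphAt 𝓘(ℝ, ℂ × ℝ) 𝓘(ℝ, ℂ × ℝ) ∞
    (fun q : ℂ × ℝ => (MsD q, q.2)) q := by
  have h := CSG.ld_of_family MsDM_smooth MsDM_smooth' q.1 q.2
  have e : (fun q : ℂ × ℝ => (MsDM_g q.2 q.1, q.2)) = fun q : ℂ × ℝ => (MsD q, q.2) := by
    funext q
    rw [MsDM_apply]
  rw [e] at h
  exact h

theorem MsDM_bij (s : ℝ) : Function.Bijective fun y : ℂ => MsD (y, s) := by
  have h := (MsDM_g s).bijective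
  have e : (fun y : ℂ => MsD (y, s)) = MsDM_g s := by
    funext y
    rw [MsDM_apply]
  rw [e]
  exact h

theorem MsDM_low (y : ℂ) (s : ℝ) (hs : s ≤ -(1 / 8)) : MsD (y, s) = y := by
  have h : gs s = 0 := by
    unfold gs
    exact CSG.stp_zero (by norm_num) hs
  unfold MsD
  simp only [h]
  rw [mul_zero, zero_mul, RSG.ex_zero, one_mul]

theorem MsDM_out (y : ℂ) (s : ℝ) (hy : 39 / 10 ≤ ‖y‖) : MsD (y, s) = y := by
  have h : CSG.stp (1849 / 10000) (144 / 625) (‖y / 8‖ ^ 2) = 1 := by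
    apply CSG.stp_one (by norm_num)
    rw [norm_div]
    have : ‖(8 : ℂ)‖ = 8 := by norm_num
    rw [this]
    nlinarith
  unfold MsD
  simp only [h]
  rw [sub_self, mul_zero, RSG.ex_zero, one_mul]

theorem MsDM_high (y : ℂ) (s : ℝ) (hs : 1 / 16 ≤ s) : MsD (y, s) = RD y := by
  have h : gs s = 1 := by
    unfold gs
    exact CSG.stp_one (by norm_num) hs
  unfold MsD RD
  simp only [h, mul_one]

theorem MsDM_bijR : Function.Bijective RD := by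
  have h : RD = fun y => MsD (y, 1) := funext MsDM_RD
  rw [h]
  exact MsDM_bij 1

theorem MsDM_R_ld1 (s : ℝ) : ContDiff ℝ ∞ fun y : ℂ => MsDM_g s y := by
  have e : ContDiff ℝ ∞ fun y : ℂ => (y, s) := contDiff_id.prodMk contDiff_const
  have h1 := MsDM_smooth.comp e
  have e1 : ((fun q : ℂ × ℝ => MsDM_g q.2 q.1) ∘ fun y : ℂ => (y, s)) =
    fun y : ℂ => MsDM_g s y := rfl
  rwa [e1] at h1

theorem MsDM_R_ld2 (s : ℝ) : ContDiff ℝ ∞ fun y : ℂ => (MsDM_g s).symm y := by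
  have e : ContDiff ℝ ∞ fun y : ℂ => (y, s) := contDiff_id.prodMk contDiff_const
  have h1 := MsDM_smooth'.comp e
  have e1 : ((fun q : ℂ × ℝ => (MsDM_g q.2).symm q.1) ∘ fun y : ℂ => (y, s)) =
    fun y : ℂ => (MsDM_g s).symm y := rfl
  rwa [e1] at h1

theorem MsDM_R_ld (y : ℂ) : IsLocalDiffeomorphAt 𝓘(ℝ, ℂ) 𝓘(ℝ, ℂ) ∞ RD y := by
  have h : RD = fun y => MsDM_g 1 y := by
    funext y
    rw [MsDM_apply, MsDM_RD]
  have h3 := CSG.ld_of_perm (f := MsDM_g 1) (MsDM_R_ld1 1) (MsDM_R_ld2 1) y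
  rw [h]
  exact h3

theorem MsDM_R_in (y : ℂ) (hy : ‖y‖ ≤ 17 / 5) : RD y = y := by
  unfold RD
  rw [MsDM_stp0 hy, sub_zero, mul_one]
  have := RSG.ex_int 2
  rw [Int.cast_ofNat] at this
  rw [this, one_mul]

theorem MsD_isMs : IsMs (39 / 10) (fun _ : Fin 1 => (0 : ℂ)) (fun _ => 1) MsD RD := by
  refine ⟨MsDM_ld, MsDM_bij, MsDM_low, fun y s h => MsDM_out y s h, MsDM_high, MsDM_bijR,
    MsDM_R_ld, ?_⟩
  intro _ y hy
  rw [sub_zero, mul_one] at hy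
  exact MsDM_R_in y hy

theorem MsD_low {y : ℂ} (h : ‖y‖ ≤ 17 / 5) (s : ℝ) : MsD (y, s) = RSG.ex (2 * gs s) * y := by
  unfold MsD
  simp only []
  rw [MsDM_stp0 h, sub_zero, mul_one]

end Pool.Agent.RBM
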