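import Pool.Agent.RBM.Defs
import Pool.Agent.RBM.LaDM
import Pool.Agent.RBM.MsDM

/-!
# RBM/Cjm: complex conjugation of the moves
-/

open scoped Manifold ContDiff Topology ComplexConjugate
open Set Filter
open Complex (I)
open Pool.Agent.CSG (stp)

namespace Pool.Agent.RBM

/-- conjugation -/
noncomputable def cjA (a : ℂ × ℝ × ℝ) : ℂ × ℝ × ℝ := (conj a.1, a.2)
noncomputable def cjB (a : ℂ × ℝ) : ℂ × ℝ := (conj a.1, a.2)

theorem cjA_cjA (a : ℂ × ℝ × ℝ) : cjA (cjA a) = a := by simp [cjA]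
theorem cjB_cjB (a : ℂ × ℝ) : cjB (cjB a) = a := by simp [cjB]

theorem conj_smooth : ContDiff ℝ ∞ (fun z : ℂ => conj z) :=
  Complex.conjCLE.contDiff

theorem cjA_ld (a : ℂ × ℝ × ℝ) : IsLocalDiffeomorphAt 𝓘(ℝ, ℂ × ℝ × ℝ) 𝓘(ℝ, ℂ × ℝ × ℝ) ∞ cjA a := by
  have h : ContDiff ℝ ∞ cjA := (conj_smooth.comp contDiff_fst).prodMk contDiff_snd
  exact CSG.ld_of_perm (f := (⟨cjA, cjA, cjA_cjA, cjA_cjA⟩ : (ℂ × ℝ × ℝ) ≃ (ℂ × ℝ × ℝ))) h h a

theorem cjB_ld (a : ℂ × ℝ) : IsLocalDiffeomorphAt 𝓘(ℝ, ℂ × ℝ) 𝓘(ℝ, ℂ × ℝ) ∞ cjB a := by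
  have h : ContDiff ℝ ∞ cjB := (conj_smooth.comp contDiff_fst).prodMk contDiff_snd
  exact CSG.ld_of_perm (f := (⟨cjB, cjB, cjB_cjB, cjB_cjB⟩ : (ℂ × ℝ) ≃ (ℂ × ℝ))) h h a

theorem cj0_ld (a : ℂ) : IsLocalDiffeomorphAt 𝓘(ℝ, ℂ) 𝓘(ℝ, ℂ) ∞ (fun z : ℂ => conj z) a :=
  CSG.ld_of_perm (f := (⟨fun z : ℂ => conj z, fun z : ℂ => conj z, fun z => by simp, fun z => by simp⟩ : ℂ ≃ ℂ))
    conj_smooth conj_smooth a

theorem norm_conj_sub (y c : ℂ) : ‖(conj y : ℂ) - c‖ = ‖y - conj c‖ := by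
  have h : (conj y : ℂ) - c = conj (y - conj c) := by simp
  rw [h, Complex.norm_conj]

theorem IsLam.conj {k : ℕ} {r' : ℝ} {c : Fin k → ℂ} {η : Fin k → ℝ} {La : ℂ × ℝ × ℝ → ℂ × ℝ × ℝ} {R : ℂ → ℂ}
    (h : IsLam r' c η La R) :
    IsLam r' (fun i => conj (c i)) η (fun a => cjA (La (cjA a))) (fun y => conj (R (conj y))) where
  ld := by
    intro q
    have h1 := cjA_ld q
    have h2 := h.ld (cjA q)
    have h3 := cjA_ld (La (cjA q))
    exact IsLocalDiffeomorphAt.comp (hf := IsLocalDiffeomorphAt.comp (hf := h1) (hg := h2) ..) (hg := h3) ..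
  bij := by
    have h1 : Function.Bijective cjA :=
      (⟨cjA, cjA, cjA_cjA, cjA_cjA⟩ : (ℂ × ℝ × ℝ) ≃ (ℂ × ℝ × ℝ)).bijective
    exact h1.comp (h.bij.comp h1)
  s := fun y s t => h.s (starRingEnd ℂ y) s t
  per := by
    intro y s t
    show cjA (La (starRingEnd ℂ y, s, t + 1)) = cjA (La (starRingEnd ℂ y, s, t)) + (0, 0, 1)
    rw [h.per]
    simp [cjA]
  low := by
    intro y s t hs
    show cjA (La (starRingEnd ℂ y, s, t)) = _
    rw [h.low _ _ _ hs]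
    simp [cjA]
  out := by
    intro y s t hy
    show cjA (La (starRingEnd ℂ y, s, t)) = _
    rw [h.out _ _ _ (by rw [Complex.norm_conj]; exact hy)]
    simp [cjA]
  hole := by
    intro i y s t h1 h2
    show cjA (La (starRingEnd ℂ y, s, t)) = _
    rw [h.hole i _ _ _ (by rw [norm_conj_sub]; exact h1) h2]
    simp [cjA]
  high := by
    intro y s t hs
    show cjA (La (starRingEnd ℂ y, s, t)) = _
    rw [h.high _ _ _ hs]
    simp [cjA]

theorem IsMs.conj {k : ℕ} {r' : ℝ} {c : Fin k → ℂ} {η : Fin k → ℝ} {Ms : ℂ × ℝ → ℂ} {R : ℂ → ℂ}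
    (h : IsMs r' c η Ms R) :
    IsMs r' (fun i => conj (c i)) η (fun q => conj (Ms (cjB q))) (fun y => conj (R (conj y))) where
  ld := by
    intro q
    have h1 := cjB_ld q
    have h2 := h.ld (cjB q)
    have h3 := cjB_ld (Ms (cjB q), (cjB q).2)
    exact IsLocalDiffeomorphAt.comp (hf := IsLocalDiffeomorphAt.comp (hf := h1) (hg := h2) ..) (hg := h3) ..
  bij := by
    intro s
    have h1 : Function.Bijective (fun z : ℂ => (starRingEnd ℂ) z) :=
      (⟨fun z : ℂ => (starRingEnd ℂ) z, fun z : ℂ => (starRingEnd ℂ) z, fun z => by simp, fun z => by simp⟩ :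
        ℂ ≃ ℂ).bijective
    exact h1.comp ((h.bij s).comp h1)
  low := by
    intro y s hs
    show (starRingEnd ℂ) (Ms (starRingEnd ℂ y, s)) = y
    rw [h.low _ _ hs]
    simp
  out := by
    intro y s hy
    show (starRingEnd ℂ) (Ms (starRingEnd ℂ y, s)) = y
    rw [h.out _ _ (by rw [Complex.norm_conj]; exact hy)]
    simp
  high := by
    intro y s hs
    show (starRingEnd ℂ) (Ms (starRingEnd ℂ y, s)) = _
    rw [h.high _ _ hs]
  bijR := by
    have h1 : Function.Bijective (fun z : ℂ => (starRingEnd ℂ) z) :=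
      (⟨fun z : ℂ => (starRingEnd ℂ) z, fun z : ℂ => (starRingEnd ℂ) z, fun z => by simp, fun z => by simp⟩ :
        ℂ ≃ ℂ).bijective
    exact h1.comp (h.bijR.comp h1)
  R_ld := by
    intro q
    exact IsLocalDiffeomorphAt.comp (hf := IsLocalDiffeomorphAt.comp (hf := cj0_ld q) (hg := h.R_ld _) ..)
      (hg := cj0_ld _) ..
  R_in := by
    intro i y hy
    show (starRingEnd ℂ) (R (starRingEnd ℂ y)) = y
    rw [h.R_in i _ (by rw [norm_conj_sub]; exact hy)]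
    simp

/-- the 4-move, `o = ±1` -/
noncomputable def MsDo (o : ℝ) (q : ℂ × ℝ) : ℂ :=
  RSG.ex (2 * o * gs q.2 * (1 - stp (1849 / 10000) (144 / 625) (‖q.1 / 8‖ ^ 2))) * q.1

theorem Cjm_ex_conj (x : ℝ) : (starRingEnd ℂ) (RSG.ex x) = RSG.ex (-x) := by
  unfold RSG.ex
  rw [← Complex.exp_conj, map_mul, Complex.conj_I, Complex.conj_ofReal]
  congr 1
  push_cast
  ring

theorem MsDo_low {o : ℝ} {y : ℂ} (h : ‖y‖ ≤ 17 / 5) (s : ℝ) :
    MsDo o (y, s) = RSG.ex (2 * o * gs s) * y := by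
  have h1 : ‖y / 8‖ ^ 2 ≤ 1849 / 10000 := by
    rw [norm_div]
    have h2 : ‖(8 : ℂ)‖ = 8 := by norm_num
    rw [h2]
    have h3 := norm_nonneg y
    nlinarith
  unfold MsDo
  rw [CSG.stp_zero (by norm_num) h1, sub_zero, mul_one]

/-- for both signs there is an isotopy `La` -/
theorem exists_LaDo {o : ℝ} (ho : o = 1 ∨ o = -1) :
    ∃ La R, IsLam (39 / 10) (fun _ : Fin 1 => (0 : ℂ)) (fun _ => 1) La R ∧
      IsMs (39 / 10) (fun _ : Fin 1 => (0 : ℂ)) (fun _ => 1) (MsDo o) R := by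
  rcases ho with rfl | rfl
  · refine ⟨LaD, RD, LaD_isLam, ?_⟩
    have h : MsDo 1 = MsD := by
      funext q
      simp [MsDo, MsD]
    rw [h]
    exact MsD_isMs
  · have h1 := LaD_isLam.conj
    have h2 := MsD_isMs.conj
    have h3 : (fun _ : Fin 1 => (starRingEnd ℂ) (0 : ℂ)) = fun _ => 0 := by simp
    rw [h3] at h1 h2
    refine ⟨_, _, h1, ?_⟩
    have h : MsDo (-1) = fun q => (starRingEnd ℂ) (MsD (cjB q)) := by
      funext q
      show MsDo (-1) q = (starRingEnd ℂ) (MsD (cjB q))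
      unfold MsDo MsD cjB
      simp only [map_mul, Complex.conj_conj, Cjm_ex_conj, norm_div, Complex.norm_conj]
      congr 2
      ring
    rw [h]
    exact h2

end Pool.Agent.RBM
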