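import Pool.Agent.RBM.DCb

/-!
# RBM/Dok: the size of the thick disc   (difficulty 3)

Model: the compactness argument of `RSG/TwS.lean`.  `K = {p : ‖p‖ ≤ 10}` compact, `DC` is a local diffeomorphism at `(p, 0)`, `p ∈ K`, and
`p ↦ DC (p, 0)` is injective on `K`.
* There is `σ₁` with `DC` local diffeomorphism at `(p, ν)` for `p ∈ K`, `|ν.re|, |ν.im| < σ₁` (`ld_eventually`; tube lemma
  `IsCompact.eventually_forall_..`, or `generalized_tube_lemma`).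
* There is `σ₂` with `DC` injective on `K × {|ν.re|, |ν.im| < σ₂}`: otherwise there are sequences `(p_n, ν_n) ≠ (p'_n, ν'_n)` with the
  same image, `ν_n, ν'_n → 0`, convergent subsequences `p_n → p`, `p'_n → p'` in `K`, and then `DC (p, 0) = DC (p', 0)` (`X` is `T2`, `DC` is
  continuous at `(p, 0)`), so `p = p'`, against local injectivity at `(p, 0)` (`ld_injOn`).  (`RSG/TwS` has such an argument: reuse it.)
* There is `σ₃` with `DC (p, ν) ∈ Inn (5/2)` for `‖p‖ ≤ 9`, `|ν.re|, |ν.im| < σ₃` (`DC_inn`, compactness).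
`σ = min (σ₁, σ₂, σ₃, 1/8)`; `hD a = DC (4 a.1, ⟨a.2.1, a.2.2⟩)` is `DC` composed with the linear isomorphism
`(z, s, t) ↦ (4 z, s + i t)` of `ℂ × ℝ × ℝ` and `ℂ × ℂ`.  `out`: `‖z‖ ≥ 9/4`: `DC_far`.
-/

open scoped Manifold ContDiff Topology
open Set Filter
open Complex (I)
open Pool.Agent.RSG (E4 S4 ex cj c1 c2 ht fh Vx)

namespace Pool.Agent.RBM

variable {E : Type*} [NormedAddCommGroup E] [NormedSpace ℝ E] {H : Type*} [TopologicalSpace H]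
  {J : ModelWithCorners ℝ E H}
  {P : Type*} [TopologicalSpace P] [ChartedSpace H P] {κ : ℝ × ℂ × ℝ → P} {b : ℂ × ℝ × ℝ → P}
  {X : Type*} [TopologicalSpace X] [ChartedSpace E4 X] {n j : ℤ} {ε₁ ε₂ : ℝ}

/-- `(z, s, t) ↦ (4 z, s + i t)` -/
noncomputable def Dok_e : ℂ × ℝ × ℝ ≃ ℂ × ℂ where
  toFun a := (4 * a.1, ⟨a.2.1, a.2.2⟩)
  invFun q := (q.1 / 4, q.2.re, q.2.im)
  left_inv a := by
    refine Prod.ext ?_ rfl
    show 4 * a.1 / 4 = a.1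
    ring
  right_inv q := by
    refine Prod.ext ?_ rfl
    show 4 * (q.1 / 4) = q.1
    ring

theorem Dok_ld (a : ℂ × ℝ × ℝ) :
    IsLocalDiffeomorphAt 𝓘(ℝ, ℂ × ℝ × ℝ) 𝓘(ℝ, ℂ × ℂ) ∞ Dok_e a := by
  refine Pool.Agent.CSG.ld_of_perm ?_ ?_ a
  · have e : (Dok_e : ℂ × ℝ × ℝ → ℂ × ℂ) =
        fun a => (4 * a.1, ((a.2.1 : ℝ) : ℂ) + ((a.2.2 : ℝ) : ℂ) * I) := by
      funext a
      refine Prod.ext rfl ?_
      show (⟨a.2.1, a.2.2⟩ : ℂ) = _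
      apply Complex.ext <;> simp
    rw [e]
    exact (contDiff_const.mul contDiff_fst).prodMk
      ((Complex.ofRealCLM.contDiff.comp (contDiff_fst.comp contDiff_snd)).add
        ((Complex.ofRealCLM.contDiff.comp (contDiff_snd.comp contDiff_snd)).mul contDiff_const))
  · have e : (Dok_e.symm : ℂ × ℂ → ℂ × ℝ × ℝ) = fun q => (q.1 / 4, q.2.re, q.2.im) := rfl
    rw [e]
    exact (contDiff_fst.div_const _).prodMk
      ((Complex.reCLM.contDiff.comp contDiff_snd).prodMk (Complex.imCLM.contDiff.comp contDiff_snd))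

theorem Dok_tube {r : ℝ} {V : Set (ℂ × ℂ)}
    (hV : V ∈ 𝓝ˢ (Metric.closedBall (0 : ℂ) r ×ˢ {(0 : ℂ)})) :
    ∃ δ > 0, ∀ p ν : ℂ, ‖p‖ ≤ r → ‖ν‖ < δ → (p, ν) ∈ V := by
  obtain ⟨W, hWo, hKW, hWV⟩ := mem_nhdsSet_iff_exists.1 hV
  obtain ⟨u, v, hu, hv, hsu, htv, huv⟩ :=
    generalized_tube_lemma (isCompact_closedBall (0 : ℂ) r) isCompact_singleton hWo hKW
  obtain ⟨δ, hδ, hb⟩ := Metric.isOpen_iff.1 hv 0 (htv rfl)
  refine ⟨δ, hδ, fun p ν hp hν => hWV (huv ⟨hsu ?_, hb ?_⟩)⟩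
  · simpa using hp
  · simpa using hν

theorem exists_disc [T2Space X] (D : TwinP J κ n j X) (h : Bundle J κ b ε₁ ε₂) :
    ∃ σ : ℝ, DiscOK D b ε₁ ε₂ σ := by
  -- loc
  have hloc : {q : ℂ × ℂ | IsLocalDiffeomorphAt 𝓘(ℝ, ℂ × ℂ) (𝓡 4) ∞ (DC D b ε₁ ε₂) q} ∈
      𝓝ˢ (Metric.closedBall (0 : ℂ) 10 ×ˢ {(0 : ℂ)}) := by
    rw [mem_nhdsSet_iff_forall]
    rintro ⟨p, ν⟩ ⟨hp, hν⟩
    obtain rfl : ν = 0 := hν
    have hp' : ‖p‖ ≤ 10 := by simpa using hp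
    exact Pool.Agent.CSG.ld_eventually (DC_loc D h (by linarith))
  -- inj
  have hinj : ∃ t ∈ 𝓝ˢ (Metric.closedBall (0 : ℂ) 10 ×ˢ {(0 : ℂ)}), InjOn (DC D b ε₁ ε₂) t := by
    refine Set.InjOn.exists_mem_nhdsSet ?_ ?_ ?_ ?_
    · rintro ⟨p, ν⟩ ⟨hp, hν⟩ ⟨p', ν'⟩ ⟨hp', hν'⟩ he
      obtain rfl : ν = 0 := hν
      obtain rfl : ν' = 0 := hν'
      have h1 : ‖p‖ ≤ 10 := by simpa using hp
      have h2 : ‖p'‖ ≤ 10 := by simpa using hp'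
      rw [DC_inj0 D h (by linarith) (by linarith) he]
    · exact (isCompact_closedBall (0 : ℂ) 10).prod isCompact_singleton
    · rintro ⟨p, ν⟩ ⟨hp, hν⟩
      obtain rfl : ν = 0 := hν
      have h1 : ‖p‖ ≤ 10 := by simpa using hp
      exact Pool.Agent.CSG.ld_continuousAt (DC_loc D h (by linarith))
    · rintro ⟨p, ν⟩ ⟨hp, hν⟩
      obtain rfl : ν = 0 := hν
      have h1 : ‖p‖ ≤ 10 := by simpa using hp
      exact Pool.Agent.CSG.ld_injOn (DC_loc D h (by linarith))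
  obtain ⟨u, hu, hui⟩ := hinj
  -- inn
  have hinn : {q : ℂ × ℂ | DC D b ε₁ ε₂ q ∈ Inn D b (5 / 2)} ∈
      𝓝ˢ (Metric.closedBall (0 : ℂ) 9 ×ˢ {(0 : ℂ)}) := by
    rw [mem_nhdsSet_iff_forall]
    rintro ⟨p, ν⟩ ⟨hp, hν⟩
    obtain rfl : ν = 0 := hν
    exact DC_inn D h (by simpa using hp)
  obtain ⟨δ₁, hδ₁, h₁⟩ := Dok_tube hloc
  obtain ⟨δ₂, hδ₂, h₂⟩ := Dok_tube hu
  obtain ⟨δ₃, hδ₃, h₃⟩ := Dok_tube hinn
  have hm : 0 < min (min δ₁ δ₂) (min δ₃ (1 / 4)) := by positivity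
  set δ := min (min δ₁ δ₂) (min δ₃ (1 / 4)) with hδ
  have e₁ : δ ≤ δ₁ := (min_le_left _ _).trans (min_le_left _ _)
  have e₂ : δ ≤ δ₂ := (min_le_left _ _).trans (min_le_right _ _)
  have e₃ : δ ≤ δ₃ := (min_le_right _ _).trans (min_le_left _ _)
  have e₄ : δ ≤ 1 / 4 := (min_le_right _ _).trans (min_le_right _ _)
  have hn : ∀ s t : ℝ, |s| < δ / 2 → |t| < δ / 2 → ‖(⟨s, t⟩ : ℂ)‖ < δ := by
    intro s t h1 h2
    have := Complex.norm_le_abs_re_add_abs_im (⟨s, t⟩ : ℂ)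
    simp only at this
    linarith
  have h4n : ∀ z : ℂ, ‖4 * z‖ = 4 * ‖z‖ := by
    intro z
    rw [norm_mul]
    simp
  refine ⟨δ / 2, by linarith, by linarith, ?_, ?_, ?_, ?_⟩
  · intro z s t hz
    unfold hD
    rw [DC_far D b ε₁ ε₂ (by rw [h4n]; linarith)]
    have e : (4 * z / 4 : ℂ) = z := by ring
    simp only [e]
  · intro z s t hz hs ht
    have k1 := h₁ (4 * z) ⟨s, t⟩ (by rw [h4n]; linarith) ((hn s t hs ht).trans_le e₁)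
    have k2 : IsLocalDiffeomorphAt 𝓘(ℝ, ℂ × ℂ) (𝓡 4) ∞ (DC D b ε₁ ε₂) (Dok_e (z, s, t)) := k1
    exact IsLocalDiffeomorphAt.comp (hf := Dok_ld (z, s, t)) (hg := k2) ..
  · intro z s t z' s' t' hz hs ht hz' hs' ht' he
    have k1 := h₂ (4 * z) ⟨s, t⟩ (by rw [h4n]; linarith) ((hn s t hs ht).trans_le e₂)
    have k2 := h₂ (4 * z') ⟨s', t'⟩ (by rw [h4n]; linarith) ((hn s' t' hs' ht').trans_le e₂)
    have k3 : Dok_e (z, s, t) = Dok_e (z', s', t') := hui k1 k2 he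
    exact Dok_e.injective k3
  · intro z s t hz hs ht
    exact h₃ (4 * z) ⟨s, t⟩ (by rw [h4n]; linarith) ((hn s t hs ht).trans_le e₃)

end Pool.Agent.RBM
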