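import Pool.Agent.RBM.Defs
import Pool.Agent.RSG.ExM

/-!
# RBM/RoM: the rotation `Ro`   (difficulty 1)

`Ro θ y = ex (θ (1 - stp (9/16) (49/64) (‖y‖²))) y`: the factor has norm `1` (`ex_norm` or similar in RSG/ExM), so
`‖Ro θ y‖ = ‖y‖` and `Ro (-θ) (Ro θ y) = y` (`ex_add`).
-/

open scoped Manifold ContDiff Topology
open Set Filter
open Complex (I)

namespace Pool.Agent.RBM

theorem Ro_smooth : ContDiff ℝ ∞ fun q : ℝ × ℂ => Ro q.1 q.2 := by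
  have h1 : ContDiff ℝ ∞ fun q : ℝ × ℂ => ‖q.2‖ ^ 2 := contDiff_snd.norm_sq ℝ
  have h2 : ContDiff ℝ ∞ fun q : ℝ × ℂ => q.1 * (1 - CSG.stp (9 / 16) (49 / 64) (‖q.2‖ ^ 2)) :=
    contDiff_fst.mul (contDiff_const.sub ((CSG.stp_smooth _ _).comp h1))
  exact (RSG.ex_smooth.comp h2).mul contDiff_snd

theorem Ro_norm (θ : ℝ) (y : ℂ) : ‖Ro θ y‖ = ‖y‖ := by
  rw [Ro, norm_mul, RSG.ex_norm, one_mul]

theorem Ro_inv (θ : ℝ) (y : ℂ) : Ro (-θ) (Ro θ y) = y := by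
  have h : ‖Ro θ y‖ = ‖y‖ := Ro_norm θ y
  rw [Ro, h, Ro, ← mul_assoc, ← RSG.ex_add]
  have e : -θ * (1 - CSG.stp (9 / 16) (49 / 64) (‖y‖ ^ 2)) +
      θ * (1 - CSG.stp (9 / 16) (49 / 64) (‖y‖ ^ 2)) = 0 := by ring
  rw [e, RSG.ex_zero, one_mul]

theorem Ro_low (θ : ℝ) {y : ℂ} (h : ‖y‖ ≤ 3 / 4) : Ro θ y = RSG.ex θ * y := by
  have h1 : ‖y‖ ^ 2 ≤ 9 / 16 := by nlinarith [norm_nonneg y]
  rw [Ro, CSG.stp_zero (by norm_num) h1, sub_zero, mul_one]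

theorem Ro_out (θ : ℝ) {y : ℂ} (h : 7 / 8 ≤ ‖y‖) : Ro θ y = y := by
  have h1 : 49 / 64 ≤ ‖y‖ ^ 2 := by nlinarith [norm_nonneg y]
  rw [Ro, CSG.stp_one (by norm_num) h1, sub_self, mul_zero, RSG.ex_zero, one_mul]

theorem Ro_zero (y : ℂ) : Ro 0 y = y := by
  rw [Ro, zero_mul, RSG.ex_zero, one_mul]

end Pool.Agent.RBM
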