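import Pool.Agent.RBM.Defs
import Pool.Agent.RSG.ExM

/-!
# RBM/UnM: the local rotations `Un`   (difficulty 2)

`Un c η θ y = y + ∑ i (ex (-θ f_i y) - 1) (y - c i)`, `f_i y = 1 - stp (289/25) (1521/100) (‖(y - c i)/η i‖²)`, which is `0` for
`‖y - c i‖ ≥ 39/10 η i` and `1` for `‖y - c i‖ ≤ 17/5 η i`; `‖c i - c i'‖ ≥ 4 η i + 4 η i'` for `i ≠ i'`.
* `Un_near`: `‖y - c i‖ < 4 η i`: for `i' ≠ i`, `‖y - c i'‖ ≥ 4 η i'`, so the term of `i'` is `0` (`ex 0 = 1`):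
  `Un y = c i + ex (-θ f_i y) (y - c i)`.
* `Un_far`: all terms are `0`.
* `Un_dist`: `‖Un y - c i‖ = ‖y - c i‖` if `‖y - c i‖ < 4 η`.
* `Un_inv`: cases `Un_near` (then `Un θ y` is also in the disc, `f_i (Un y) = f_i y`), `Un_far`.
* `Un_low`: `f_i y = 1`.
-/

open scoped Manifold ContDiff Topology
open Set Filter
open Complex (I)
open Pool.Agent.CSG (stp)

namespace Pool.Agent.RBM

variable {k : ℕ} {c : Fin k → ℂ} {η : Fin k → ℝ}

theorem UnM_far1 {c : ℂ} {η : ℝ} (hη : 0 < η) (θ : ℝ) {y : ℂ} (h : 39 / 10 * η ≤ ‖y - c‖) :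
    RSG.ex (-θ * (1 - stp (289 / 25) (1521 / 100) (‖(y - c) / η‖ ^ 2))) = 1 := by
  have h1 : (39 / 10 : ℝ) ≤ ‖(y - c) / η‖ := by
    rw [norm_div, Complex.norm_real, Real.norm_of_nonneg hη.le, le_div_iff₀ hη]
    exact h
  have h2 : stp (289 / 25) (1521 / 100) (‖(y - c) / η‖ ^ 2) = 1 := by
    apply Pool.Agent.CSG.stp_one (by norm_num)
    nlinarith
  rw [h2, sub_self, mul_zero, RSG.ex_zero]

theorem UnM_low1 {c : ℂ} {η : ℝ} (hη : 0 < η) (θ : ℝ) {y : ℂ} (h : ‖y - c‖ ≤ 17 / 5 * η) :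
    RSG.ex (-θ * (1 - stp (289 / 25) (1521 / 100) (‖(y - c) / η‖ ^ 2))) = RSG.ex (-θ) := by
  have h1 : ‖(y - c) / η‖ ≤ (17 / 5 : ℝ) := by
    rw [norm_div, Complex.norm_real, Real.norm_of_nonneg hη.le, div_le_iff₀ hη]
    exact h
  have h2 : stp (289 / 25) (1521 / 100) (‖(y - c) / η‖ ^ 2) = 0 := by
    apply Pool.Agent.CSG.stp_zero (by norm_num)
    nlinarith [norm_nonneg ((y - c) / (η : ℂ))]
  rw [h2, sub_zero, mul_one]

theorem UnM_term_smooth (c : ℂ) (η : ℝ) : ContDiff ℝ ∞ fun q : ℝ × ℂ =>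
    (RSG.ex (-q.1 * (1 - stp (289 / 25) (1521 / 100) (‖(q.2 - c) / η‖ ^ 2))) - 1) * (q.2 - c) := by
  have h1 : ContDiff ℝ ∞ (fun q : ℝ × ℂ => (q.2 - c) / (η : ℂ)) := (contDiff_snd.sub contDiff_const).div_const _
  have h2 : ContDiff ℝ ∞ (fun z : ℂ => ‖z‖ ^ 2) := contDiff_norm_sq ℝ
  have h3 : ContDiff ℝ ∞ (fun q : ℝ × ℂ => stp (289 / 25) (1521 / 100) (‖(q.2 - c) / η‖ ^ 2)) :=
    (Pool.Agent.CSG.stp_smooth _ _).comp (h2.comp h1)
  have h4 : ContDiff ℝ ∞ (fun q : ℝ × ℂ => -q.1 * (1 - stp (289 / 25) (1521 / 100) (‖(q.2 - c) / η‖ ^ 2))) :=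
    contDiff_fst.neg.mul (contDiff_const.sub h3)
  exact ((RSG.ex_smooth.comp h4).sub contDiff_const).mul (contDiff_snd.sub contDiff_const)

theorem Un_smooth (hη : ∀ i, 0 < η i) : ContDiff ℝ ∞ fun q : ℝ × ℂ => Un c η q.1 q.2 := by
  unfold Un
  exact contDiff_snd.add (ContDiff.sum fun i _ => UnM_term_smooth (c i) (η i))

theorem UnM_term_far (hη : ∀ i, 0 < η i) (θ : ℝ) {i : Fin k} {y : ℂ} (h : 39 / 10 * η i ≤ ‖y - c i‖) :
    (RSG.ex (-θ * (1 - stp (289 / 25) (1521 / 100) (‖(y - c i) / η i‖ ^ 2))) - 1) * (y - c i) = 0 := by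
  rw [UnM_far1 (hη i) θ h, sub_self, zero_mul]

theorem Un_near (hη : ∀ i, 0 < η i) (hd : ∀ i i', i ≠ i' → 4 * η i + 4 * η i' ≤ ‖c i - c i'‖) (θ : ℝ) {i : Fin k} {y : ℂ}
    (h : ‖y - c i‖ < 4 * η i) :
    Un c η θ y = c i + RSG.ex (-θ * (1 - stp (289 / 25) (1521 / 100) (‖(y - c i) / η i‖ ^ 2))) * (y - c i) := by
  unfold Un
  rw [Finset.sum_eq_single i]
  · ring
  · intro i' _ hi
    apply UnM_term_far hη
    have h1 := hd i i' (Ne.symm hi)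
    have h2 : ‖c i - c i'‖ ≤ ‖y - c i‖ + ‖y - c i'‖ := by
      have e : c i - c i' = (y - c i') - (y - c i) := by ring
      rw [e]
      have := norm_sub_le (y - c i') (y - c i)
      linarith
    have h3 := hη i'
    linarith
  · intro hi
    exact absurd (Finset.mem_univ i) hi

theorem Un_far (hη : ∀ i, 0 < η i) (θ : ℝ) {y : ℂ} (h : ∀ i, 39 / 10 * η i ≤ ‖y - c i‖) : Un c η θ y = y := by
  unfold Un
  rw [Finset.sum_eq_zero fun i _ => UnM_term_far hη θ (h i), add_zero]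

theorem Un_dist (hη : ∀ i, 0 < η i) (hd : ∀ i i', i ≠ i' → 4 * η i + 4 * η i' ≤ ‖c i - c i'‖) (θ : ℝ) {i : Fin k} {y : ℂ}
    (h : ‖y - c i‖ < 4 * η i) : ‖Un c η θ y - c i‖ = ‖y - c i‖ := by
  rw [Un_near hη hd θ h, add_sub_cancel_left, norm_mul, RSG.ex_norm, one_mul]

theorem Un_inv (hη : ∀ i, 0 < η i) (hd : ∀ i i', i ≠ i' → 4 * η i + 4 * η i' ≤ ‖c i - c i'‖) (θ : ℝ) (y : ℂ) :
    Un c η (-θ) (Un c η θ y) = y := by
  by_cases h : ∃ i, ‖y - c i‖ < 4 * η i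
  · obtain ⟨i, hi⟩ := h
    have h1 := Un_dist hη hd θ hi
    rw [Un_near hη hd (-θ) (by rw [h1]; exact hi)]
    have h2 : ‖(Un c η θ y - c i) / η i‖ = ‖(y - c i) / η i‖ := by
      rw [norm_div, norm_div, h1]
    rw [h2, Un_near hη hd θ hi, add_sub_cancel_left, ← mul_assoc, ← RSG.ex_add]
    have e : -(-θ) * (1 - stp (289 / 25) (1521 / 100) (‖(y - c i) / η i‖ ^ 2)) +
        -θ * (1 - stp (289 / 25) (1521 / 100) (‖(y - c i) / η i‖ ^ 2)) = 0 := by ring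
    rw [e, RSG.ex_zero]
    ring
  · push Not at h
    have h1 : ∀ i, 39 / 10 * η i ≤ ‖y - c i‖ := by
      intro i
      have := h i
      have := hη i
      linarith
    rw [Un_far hη θ h1, Un_far hη (-θ) h1]

theorem Un_low (hη : ∀ i, 0 < η i) (hd : ∀ i i', i ≠ i' → 4 * η i + 4 * η i' ≤ ‖c i - c i'‖) (θ : ℝ) {i : Fin k} {y : ℂ}
    (h : ‖y - c i‖ ≤ 17 / 5 * η i) : Un c η θ y = c i + RSG.ex (-θ) * (y - c i) := by
  have h1 := hη i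
  rw [Un_near hη hd θ (by linarith), UnM_low1 h1 θ h]

theorem Un_zero (y : ℂ) : Un c η 0 y = y := by
  unfold Un
  rw [Finset.sum_eq_zero, add_zero]
  intro i _
  rw [neg_zero, zero_mul, RSG.ex_zero, sub_self, zero_mul]

end Pool.Agent.RBM
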