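import Pool.Agent.RBM.EvM
import Pool.Agent.RBM.RoM
import Pool.Agent.RBM.UnM
import Pool.Agent.RBM.WcM

/-!
# RBM/LaRM: the isotopy of the ribbon move   (difficulty 3)

`LaR (y, s, t) = (Ro θ (Ev v (Un θ y)), s, t)`, `θ = o gs s`, `v = (ex (-θ) - 1) wc t`, `‖v‖ ≤ 2/100 = 1/50`.
* bij: for fixed `(s, t)` the map of `y` is a composition of bijections (`Un_inv` for `θ` and `-θ`, `Ev_bij`, `Ro_inv`).
* ld: `ld_of_fderiv`: `LaR` is smooth (`gs` is smooth, `Ev_smooth`, ..).  Write `LaR = L₃ ∘ L₂ ∘ L₁`, `L₁ (y, s, t) = (Un θ y, s, t)`,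
  etc.  `L₁` and `L₃` are permutations with smooth inverse (`CSG.ld_of_perm`).  `L₂ (y, s, t) = (Ev v y, s, t)`: if
  `fderiv L₂ (y, s, t) (u, a, b) = 0` then `a = b = 0` (the last two coordinates), and then `fderiv (Ev v) y u = 0` (restrict to
  the first coordinate), `u = 0` (`Ev_fderiv`): `CSG.ld_of_fderiv`.
* s, per (`wc_per`) clear.
* low: `gs s = 0`: `θ = 0`, `ex 0 = 1`, `v = 0`: `Un_zero`, `Ev_zero`, `Ro_zero`.
* out: `‖y‖ ≥ 7/8`: `‖y - c i‖ ≥ 7/8 - 1/100 ≥ 39/10 η` (`η ≤ 1/400`): `Un_far`, `Ev_out`, `Ro_out`.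
* hole: `‖y - c i‖ ≤ 17/5 η`, `wc t = c i` (`wc_hole`): `Un θ y = c i + ex (-θ) (y - c i)` (`Un_low`) has norm `≤ ‖c i‖ + 17/5 η ≤ 1/100`,
  `Ev` adds `(ex (-θ) - 1) c i`: `ex (-θ) y`, of norm `‖y‖ ≤ 1/100`, and `Ro θ` multiplies by `ex θ` (`Ro_low`): `y`.
* high: `gs s = 1`, `θ = o = ±1`, `ex (-θ) = 1`, `v = 0`: `Ro o (Un o y) = RR y`.
-/
open scoped Manifold ContDiff Topology
open Set Filter
open Complex (I)

namespace Pool.Agent.RBM

variable {k : ℕ} {c : Fin k → ℂ} {η : Fin k → ℝ} {o : ℝ}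

theorem LaRM_gs_smooth : ContDiff ℝ ∞ gs := by
  unfold gs
  exact CSG.stp_smooth _ _

theorem LaRM_gs_low {s : ℝ} (h : s ≤ -(1 / 8)) : gs s = 0 := by
  unfold gs
  exact CSG.stp_zero (by norm_num) h

theorem LaRM_gs_high {s : ℝ} (h : 1 / 16 ≤ s) : gs s = 1 := by
  unfold gs
  exact CSG.stp_one (by norm_num) h

theorem LaRM_norm_c (hη : ∀ i, 0 < η i) (hc : ∀ i, ‖c i‖ + 4 * η i ≤ 1 / 100) (i : Fin k) :
    ‖c i‖ ≤ 1 / 100 := by
  have := hη i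
  have := hc i
  linarith

/-- the translation vector -/
noncomputable def LaRM_v (c : Fin k → ℂ) (o : ℝ) (q : ℝ × ℝ) : ℂ :=
  (RSG.ex (-(o * gs q.1)) - 1) * wc c q.2

theorem LaRM_v_smooth : ContDiff ℝ ∞ (LaRM_v c o) := by
  unfold LaRM_v
  refine ContDiff.mul ?_ (wc_smooth.comp contDiff_snd)
  refine ContDiff.sub ?_ contDiff_const
  refine RSG.ex_smooth.comp ?_
  exact (contDiff_const.mul (LaRM_gs_smooth.comp contDiff_fst)).neg

theorem LaRM_v_le (hη : ∀ i, 0 < η i) (hc : ∀ i, ‖c i‖ + 4 * η i ≤ 1 / 100) (q : ℝ × ℝ) :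
    ‖LaRM_v c o q‖ ≤ 1 / 50 := by
  unfold LaRM_v
  rw [norm_mul]
  have h1 : ‖RSG.ex (-(o * gs q.1)) - 1‖ ≤ 2 := by
    refine (norm_sub_le _ _).trans ?_
    rw [RSG.ex_norm, norm_one]
    norm_num
  have h2 : ‖wc c q.2‖ ≤ 1 / 100 := wc_le (by norm_num) (LaRM_norm_c hη hc) q.2
  calc ‖RSG.ex (-(o * gs q.1)) - 1‖ * ‖wc c q.2‖ ≤ 2 * (1 / 100) :=
        mul_le_mul h1 h2 (norm_nonneg _) (by norm_num)
    _ = 1 / 50 := by norm_num

theorem LaRM_Un_inv' (hη : ∀ i, 0 < η i)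
    (hd : ∀ i i', i ≠ i' → 4 * η i + 4 * η i' ≤ ‖c i - c i'‖) (θ : ℝ) (y : ℂ) :
    Un c η θ (Un c η (-θ) y) = y := by
  have h := Un_inv hη hd (-θ) y
  rwa [neg_neg] at h

theorem LaRM_Ro_inv' (θ : ℝ) (y : ℂ) : Ro θ (Ro (-θ) y) = y := by
  have h := Ro_inv (-θ) y
  rwa [neg_neg] at h

theorem LaRM_bijy (hη : ∀ i, 0 < η i)
    (hd : ∀ i i', i ≠ i' → 4 * η i + 4 * η i' ≤ ‖c i - c i'‖)
    (hc : ∀ i, ‖c i‖ + 4 * η i ≤ 1 / 100) (q : ℝ × ℝ) (θ : ℝ) :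
    Function.Bijective (fun y : ℂ => Ro θ (Ev (LaRM_v c o q) (Un c η θ y))) := by
  have h1 : Function.Bijective (Un c η θ) := by
    rw [Function.bijective_iff_has_inverse]
    exact ⟨Un c η (-θ), Un_inv hη hd θ, LaRM_Un_inv' hη hd θ⟩
  have h3 : Function.Bijective (Ro θ) := by
    rw [Function.bijective_iff_has_inverse]
    exact ⟨Ro (-θ), Ro_inv θ, LaRM_Ro_inv' θ⟩
  exact h3.comp ((Ev_bij (LaRM_v_le hη hc q)).comp h1)

/-- first factor -/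
noncomputable def LaRM_e1 (hη : ∀ i, 0 < η i)
    (hd : ∀ i i', i ≠ i' → 4 * η i + 4 * η i' ≤ ‖c i - c i'‖) (o : ℝ) :
    (ℂ × ℝ × ℝ) ≃ (ℂ × ℝ × ℝ) where
  toFun a := (Un c η (o * gs a.2.1) a.1, a.2.1, a.2.2)
  invFun a := (Un c η (-(o * gs a.2.1)) a.1, a.2.1, a.2.2)
  left_inv a := by
    simp only [Un_inv hη hd]
  right_inv a := by
    simp only [LaRM_Un_inv' hη hd]

/-- third factor -/
noncomputable def LaRM_e3 (o : ℝ) : (ℂ × ℝ × ℝ) ≃ (ℂ × ℝ × ℝ) where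
  toFun a := (Ro (o * gs a.2.1) a.1, a.2.1, a.2.2)
  invFun a := (Ro (-(o * gs a.2.1)) a.1, a.2.1, a.2.2)
  left_inv a := by
    simp only [Ro_inv]
  right_inv a := by
    simp only [LaRM_Ro_inv']

theorem LaRM_th_smooth (o : ℝ) : ContDiff ℝ ∞ (fun a : ℂ × ℝ × ℝ => o * gs a.2.1) :=
  contDiff_const.mul (LaRM_gs_smooth.comp (contDiff_fst.comp contDiff_snd))

theorem LaRM_ld1 (hη : ∀ i, 0 < η i)
    (hd : ∀ i i', i ≠ i' → 4 * η i + 4 * η i' ≤ ‖c i - c i'‖) (q : ℂ × ℝ × ℝ) :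
    IsLocalDiffeomorphAt 𝓘(ℝ, ℂ × ℝ × ℝ) 𝓘(ℝ, ℂ × ℝ × ℝ) ∞ (LaRM_e1 hη hd o) q := by
  refine CSG.ld_of_perm ?_ ?_ q
  · exact ((Un_smooth (c := c) hη).comp ((LaRM_th_smooth o).prodMk contDiff_fst)).prodMk
      contDiff_snd
  · exact ((Un_smooth (c := c) hη).comp ((LaRM_th_smooth o).neg.prodMk contDiff_fst)).prodMk
      contDiff_snd

theorem LaRM_ld3 (q : ℂ × ℝ × ℝ) :
    IsLocalDiffeomorphAt 𝓘(ℝ, ℂ × ℝ × ℝ) 𝓘(ℝ, ℂ × ℝ × ℝ) ∞ (LaRM_e3 o) q := by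
  refine CSG.ld_of_perm ?_ ?_ q
  · exact (Ro_smooth.comp ((LaRM_th_smooth o).prodMk contDiff_fst)).prodMk contDiff_snd
  · exact (Ro_smooth.comp ((LaRM_th_smooth o).neg.prodMk contDiff_fst)).prodMk contDiff_snd

theorem LaRM_ld2 (hη : ∀ i, 0 < η i) (hc : ∀ i, ‖c i‖ + 4 * η i ≤ 1 / 100) (q : ℂ × ℝ × ℝ) :
    IsLocalDiffeomorphAt 𝓘(ℝ, ℂ × ℝ × ℝ) 𝓘(ℝ, ℂ × ℝ × ℝ) ∞
      (fun a : ℂ × ℝ × ℝ => (Ev (LaRM_v c o a.2) a.1, a.2)) q := by
  have hG : ContDiff ℝ ∞ (fun a : ℂ × ℝ × ℝ => Ev (LaRM_v c o a.2) a.1) :=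
    Ev_smooth.comp ((LaRM_v_smooth.comp contDiff_snd).prodMk contDiff_fst)
  refine CSG.ld_of_fderiv (Eventually.of_forall fun y => (hG.prodMk contDiff_snd).contDiffAt)
    rfl fun w hw => ?_
  have hGd : DifferentiableAt ℝ (fun a : ℂ × ℝ × ℝ => Ev (LaRM_v c o a.2) a.1) q :=
    (hG.differentiable (by simp)).differentiableAt
  have h1 : HasFDerivAt (fun a : ℂ × ℝ × ℝ => (Ev (LaRM_v c o a.2) a.1, a.2))
      ((fderiv ℝ (fun a : ℂ × ℝ × ℝ => Ev (LaRM_v c o a.2) a.1) q).prod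
        (ContinuousLinearMap.snd ℝ ℂ (ℝ × ℝ))) q := hGd.hasFDerivAt.prodMk hasFDerivAt_snd
  rw [h1.fderiv] at hw
  have hw1 : fderiv ℝ (fun a : ℂ × ℝ × ℝ => Ev (LaRM_v c o a.2) a.1) q w = 0 :=
    congrArg Prod.fst hw
  have hw2 : w.2 = 0 := congrArg Prod.snd hw
  have h2 : HasFDerivAt (Ev (LaRM_v c o q.2))
      ((fderiv ℝ (fun a : ℂ × ℝ × ℝ => Ev (LaRM_v c o a.2) a.1) q).comp
        (ContinuousLinearMap.inl ℝ ℂ (ℝ × ℝ))) q.1 := by
    have h3 : HasFDerivAt (fun y : ℂ => (y, q.2)) (ContinuousLinearMap.inl ℝ ℂ (ℝ × ℝ)) q.1 :=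
      hasFDerivAt_prodMk_left q.1 q.2
    exact HasFDerivAt.comp (g := fun a : ℂ × ℝ × ℝ => Ev (LaRM_v c o a.2) a.1) q.1
      hGd.hasFDerivAt h3
  have h4 : fderiv ℝ (Ev (LaRM_v c o q.2)) q.1 w.1 = 0 := by
    rw [h2.fderiv]
    have h5 : (w.1, (0 : ℝ × ℝ)) = w := Prod.ext rfl hw2.symm
    show (fderiv ℝ (fun a : ℂ × ℝ × ℝ => Ev (LaRM_v c o a.2) a.1) q) (w.1, 0) = 0
    rw [h5]
    exact hw1
  have h6 := Ev_fderiv (LaRM_v_le hη hc q.2) q.1 w.1 h4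
  exact Prod.ext h6 hw2

theorem LaR_isLam (hη : ∀ i, 0 < η i) (hd : ∀ i i', i ≠ i' → 4 * η i + 4 * η i' ≤ ‖c i - c i'‖)
    (hc : ∀ i, ‖c i‖ + 4 * η i ≤ 1 / 100) (ho : o = 1 ∨ o = -1) :
    IsLam (7 / 8) c η (LaR c η o) (RR c η o) := by
  have hex : RSG.ex (-o) = 1 ∧ RSG.ex o = 1 := by
    rcases ho with rfl | rfl
    · constructor
      · have := RSG.ex_int (-1)
        push_cast at this
        exact this
      · have := RSG.ex_int 1
        push_cast at this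
        exact this
    · constructor
      · have := RSG.ex_int 1
        push_cast at this
        rw [neg_neg]
        exact this
      · have := RSG.ex_int (-1)
        push_cast at this
        exact this
  constructor
  · -- ld
    intro q
    have h1 := LaRM_ld1 (o := o) hη hd q
    have h2 := LaRM_ld2 (o := o) hη hc (LaRM_e1 hη hd o q)
    have h12 := IsLocalDiffeomorphAt.comp (hf := h1) (hg := h2) ..
    have h3 := LaRM_ld3 (o := o) ((fun a : ℂ × ℝ × ℝ => (Ev (LaRM_v c o a.2) a.1, a.2))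
      (LaRM_e1 hη hd o q))
    have h123 := IsLocalDiffeomorphAt.comp (hf := h12) (hg := h3) ..
    exact h123
  · -- bij
    constructor
    · intro a a' h
      have hs : a.2.1 = a'.2.1 := by
        have := congrArg (fun x : ℂ × ℝ × ℝ => x.2.1) h
        exact this
      have ht : a.2.2 = a'.2.2 := by
        have := congrArg (fun x : ℂ × ℝ × ℝ => x.2.2) h
        exact this
      have hy : Ro (o * gs a.2.1) (Ev (LaRM_v c o a.2) (Un c η (o * gs a.2.1) a.1)) =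
          Ro (o * gs a'.2.1) (Ev (LaRM_v c o a'.2) (Un c η (o * gs a'.2.1) a'.1)) :=
        congrArg (fun x : ℂ × ℝ × ℝ => x.1) h
      have hst : a.2 = a'.2 := Prod.ext hs ht
      rw [hst] at hy
      exact Prod.ext ((LaRM_bijy hη hd hc a'.2 (o * gs a'.2.1)).1 hy) hst
    · intro b
      obtain ⟨y, hy⟩ := (LaRM_bijy (o := o) hη hd hc b.2 (o * gs b.2.1)).2 b.1
      refine ⟨(y, b.2), ?_⟩
      exact Prod.ext hy rfl
  · intro y s t
    rfl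
  · intro y s t
    unfold LaR
    simp only [wc_per, Prod.mk_add_mk, add_zero]
  · -- low
    intro y s t hs
    unfold LaR
    simp only [LaRM_gs_low hs, mul_zero, neg_zero, RSG.ex_zero, sub_self, zero_mul, Un_zero,
      Ev_zero, Ro_zero]
  · -- out
    intro y s t hy
    have h1 : Un c η (o * gs s) y = y := by
      refine Un_far hη _ fun i => ?_
      have e1 := LaRM_norm_c hη hc i
      have e2 := hc i
      have e3 := hη i
      have e4 := norm_nonneg (c i)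
      have e5 := norm_sub_norm_le y (c i)
      linarith
    unfold LaR
    simp only [h1]
    rw [Ev_out _ (by linarith), Ro_out _ hy]
  · -- hole
    intro i y s t hy ht
    have e2 := hc i
    have e3 := hη i
    have h1 := Un_low hη hd (o * gs s) hy
    have h2 := wc_hole (c := c) ht
    unfold LaR
    simp only [h1, h2]
    have h3 : ‖c i + RSG.ex (-(o * gs s)) * (y - c i)‖ ≤ 1 / 4 := by
      refine (norm_add_le _ _).trans ?_
      rw [norm_mul, RSG.ex_norm, one_mul]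
      linarith
    rw [Ev_low _ h3]
    have h4 : c i + RSG.ex (-(o * gs s)) * (y - c i) + (RSG.ex (-(o * gs s)) - 1) * c i =
        RSG.ex (-(o * gs s)) * y := by ring
    rw [h4]
    have h5 : ‖RSG.ex (-(o * gs s)) * y‖ ≤ 3 / 4 := by
      rw [norm_mul, RSG.ex_norm, one_mul]
      have : ‖y‖ ≤ ‖y - c i‖ + ‖c i‖ := by
        have := norm_add_le (y - c i) (c i)
        rwa [sub_add_cancel] at this
      linarith
    rw [Ro_low _ h5, ← mul_assoc, ← RSG.ex_add, add_neg_cancel, RSG.ex_zero, one_mul]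
  · -- high
    intro y s t hs
    unfold LaR RR
    simp only [LaRM_gs_high hs, mul_one, hex.1, sub_self, zero_mul, Ev_zero]

end Pool.Agent.RBM
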