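import Pool.Agent.RBM.RoM
import Pool.Agent.RBM.UnM

/-!
# RBM/MsRM: the ribbon move   (difficulty 2)

`MsR (y, s) = Ro θ (Un θ y)`, `θ = o gs s`.
* ld: `(y, s) ↦ (Un θ y, s)` and `(y, s) ↦ (Ro θ y, s)` are permutations of `ℂ × ℝ` with smooth inverses (`θ ↦ -θ`):
  `CSG.ld_of_perm`, composition.
* bij: `Un_inv`, `Ro_inv` for `θ` and `-θ`.  low: `gs s = 0`.  high: `gs s = 1`.
* out: `‖y‖ ≥ 7/8`: `Un_far` (`‖y - c i‖ ≥ 7/8 - 1/100`, `η ≤ 1/400`), `Ro_out`.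
* R: the same for the constant `θ = o`.  R_in: `Un_low` with `ex (-o) = 1`: `Un o y = y`, `‖y‖ ≤ 1/100`, `Ro_low`, `ex o = 1`.
* `MsR_low`: the discs are moved by translations.
-/

open scoped Manifold ContDiff Topology
open Set Filter
open Complex (I)

namespace Pool.Agent.RBM

variable {k : ℕ} {c : Fin k → ℂ} {η : Fin k → ℝ} {o : ℝ}

theorem MsRM_gs_low {s : ℝ} (h : s ≤ -(1 / 8)) : gs s = 0 := by
  unfold gs
  exact CSG.stp_zero (by norm_num) h

theorem MsRM_gs_high {s : ℝ} (h : 1 / 16 ≤ s) : gs s = 1 := by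
  unfold gs
  exact CSG.stp_one (by norm_num) h

theorem MsRM_gs_smooth : ContDiff ℝ ∞ gs := CSG.stp_smooth _ _

theorem MsRM_ex_one (ho : o = 1 ∨ o = -1) : RSG.ex o = 1 := by
  rcases ho with rfl | rfl
  · have h := RSG.ex_int 1
    rwa [Int.cast_one] at h
  · have h := RSG.ex_int (-1)
    rwa [Int.cast_neg, Int.cast_one] at h

theorem MsRM_ex_neg (ho : o = 1 ∨ o = -1) : RSG.ex (-o) = 1 :=
  MsRM_ex_one (by
    rcases ho with rfl | rfl
    · right; rfl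
    · left; norm_num)

theorem MsRM_left (hη : ∀ i, 0 < η i) (hd : ∀ i i', i ≠ i' → 4 * η i + 4 * η i' ≤ ‖c i - c i'‖)
    (θ : ℝ) (y : ℂ) : Un c η (-θ) (Ro (-θ) (Ro θ (Un c η θ y))) = y := by
  rw [Ro_inv, Un_inv hη hd]

theorem MsRM_right (hη : ∀ i, 0 < η i)
    (hd : ∀ i i', i ≠ i' → 4 * η i + 4 * η i' ≤ ‖c i - c i'‖)
    (θ : ℝ) (y : ℂ) : Ro θ (Un c η θ (Un c η (-θ) (Ro (-θ) y))) = y := by
  have h1 := Un_inv hη hd (-θ) (Ro (-θ) y)
  have h2 := Ro_inv (-θ) y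
  rw [neg_neg] at h1 h2
  rw [h1, h2]

/-- the permutation of `ℂ × ℝ` -/
noncomputable def MsRM_perm (hη : ∀ i, 0 < η i)
    (hd : ∀ i i', i ≠ i' → 4 * η i + 4 * η i' ≤ ‖c i - c i'‖) (o : ℝ) : ℂ × ℝ ≃ ℂ × ℝ where
  toFun q := (MsR c η o q, q.2)
  invFun q := (Un c η (-(o * gs q.2)) (Ro (-(o * gs q.2)) q.1), q.2)
  left_inv q := by
    apply Prod.ext
    · exact MsRM_left hη hd (o * gs q.2) q.1
    · rfl
  right_inv q := by
    apply Prod.ext
    · exact MsRM_right hη hd (o * gs q.2) q.1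
    · rfl

/-- the permutation of `ℂ` -/
noncomputable def MsRM_permR (hη : ∀ i, 0 < η i)
    (hd : ∀ i i', i ≠ i' → 4 * η i + 4 * η i' ≤ ‖c i - c i'‖) (o : ℝ) : ℂ ≃ ℂ where
  toFun := RR c η o
  invFun y := Un c η (-o) (Ro (-o) y)
  left_inv y := MsRM_left hη hd o y
  right_inv y := MsRM_right hη hd o y

theorem MsR_low (hη : ∀ i, 0 < η i) (hd : ∀ i i', i ≠ i' → 4 * η i + 4 * η i' ≤ ‖c i - c i'‖)
    (hc : ∀ i, ‖c i‖ + 4 * η i ≤ 1 / 100) {i : Fin k} {y : ℂ} (h : ‖y - c i‖ ≤ 17 / 5 * η i) (s : ℝ) :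
    MsR c η o (y, s) = y + (RSG.ex (o * gs s) - 1) * c i := by
  unfold MsR
  dsimp only
  rw [Un_low hη hd _ h]
  have h1 : ‖c i + RSG.ex (-(o * gs s)) * (y - c i)‖ ≤ 3 / 4 := by
    refine (norm_add_le _ _).trans ?_
    rw [norm_mul, RSG.ex_norm, one_mul]
    have h2 := hc i
    have h3 := hη i
    linarith
  rw [Ro_low _ h1, mul_add, ← mul_assoc, ← RSG.ex_add, add_neg_cancel, RSG.ex_zero]
  ring

theorem MsR_isMs (hη : ∀ i, 0 < η i) (hd : ∀ i i', i ≠ i' → 4 * η i + 4 * η i' ≤ ‖c i - c i'‖)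
    (hc : ∀ i, ‖c i‖ + 4 * η i ≤ 1 / 100) (ho : o = 1 ∨ o = -1) :
    IsMs (7 / 8) c η (MsR c η o) (RR c η o) := by
  refine ⟨?_, ?_, ?_, ?_, ?_, ?_, ?_, ?_⟩
  · intro q
    have hθ : ContDiff ℝ ∞ fun q : ℂ × ℝ => o * gs q.2 :=
      contDiff_const.mul (MsRM_gs_smooth.comp contDiff_snd)
    have h1 : ContDiff ℝ ∞ fun q : ℂ × ℝ => Un c η (o * gs q.2) q.1 :=
      (Un_smooth hη).comp (hθ.prodMk contDiff_fst)
    have h2 : ContDiff ℝ ∞ fun q : ℂ × ℝ => Ro (o * gs q.2) (Un c η (o * gs q.2) q.1) :=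
      Ro_smooth.comp (hθ.prodMk h1)
    have h3 : ContDiff ℝ ∞ fun q : ℂ × ℝ => Ro (-(o * gs q.2)) q.1 :=
      Ro_smooth.comp (hθ.neg.prodMk contDiff_fst)
    have h4 : ContDiff ℝ ∞ fun q : ℂ × ℝ =>
        Un c η (-(o * gs q.2)) (Ro (-(o * gs q.2)) q.1) :=
      (Un_smooth hη).comp (hθ.neg.prodMk h3)
    exact CSG.ld_of_perm (f := MsRM_perm hη hd o) (h2.prodMk contDiff_snd)
      (h4.prodMk contDiff_snd) q
  · intro s
    refine ⟨fun y y' h => ?_, fun y => ?_⟩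
    · have h1 := MsRM_left hη hd (o * gs s) y
      have h2 := MsRM_left hη hd (o * gs s) y'
      have h3 : Ro (o * gs s) (Un c η (o * gs s) y) = Ro (o * gs s) (Un c η (o * gs s) y') := h
      rw [← h1, h3, h2]
    · exact ⟨Un c η (-(o * gs s)) (Ro (-(o * gs s)) y), MsRM_right hη hd (o * gs s) y⟩
  · intro y s hs
    unfold MsR
    dsimp only
    rw [MsRM_gs_low hs, mul_zero, Un_zero, Ro_zero]
  · intro y s hy
    unfold MsR
    dsimp only
    have h1 : Un c η (o * gs s) y = y := by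
      refine Un_far hη _ fun i => ?_
      have h2 := hc i
      have h3 := hη i
      have h4 := norm_sub_norm_le y (c i)
      linarith
    rw [h1, Ro_out _ hy]
  · intro y s hs
    unfold MsR RR
    dsimp only
    rw [MsRM_gs_high hs, mul_one]
  · exact (MsRM_permR hη hd o).bijective
  · intro y
    have h1 : ContDiff ℝ ∞ fun y : ℂ => Un c η o y :=
      (Un_smooth hη).comp (contDiff_const.prodMk contDiff_id)
    have h2 : ContDiff ℝ ∞ fun y : ℂ => Ro o (Un c η o y) :=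
      Ro_smooth.comp (contDiff_const.prodMk h1)
    have h3 : ContDiff ℝ ∞ fun y : ℂ => Ro (-o) y :=
      Ro_smooth.comp (contDiff_const.prodMk contDiff_id)
    have h4 : ContDiff ℝ ∞ fun y : ℂ => Un c η (-o) (Ro (-o) y) :=
      (Un_smooth hη).comp (contDiff_const.prodMk h3)
    exact CSG.ld_of_perm (f := MsRM_permR hη hd o) h2 h4 y
  · intro i y hy
    have h1 := MsR_low (o := o) hη hd hc hy 1
    unfold MsR at h1
    dsimp only at h1
    rw [MsRM_gs_high (by norm_num), mul_one, MsRM_ex_one ho, sub_self, zero_mul, add_zero] at h1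
    exact h1

end Pool.Agent.RBM
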