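import Pool.Agent.RBM.NewA
import Pool.Agent.RBM.Dok
import Pool.Agent.RBM.LaRM
import Pool.Agent.RBM.MsRM
import Pool.Agent.RBM.Cjm

/-!
# RBM/Rm: the moves
-/

open scoped Manifold ContDiff Topology
open Set Filter
open Complex (I)
open Pool.Agent.RSG (E4 S4 ex cj c1 c2 ht fh Vx)

namespace Pool.Agent.RBM

variable {E : Type*} [NormedAddCommGroup E] [NormedSpace ℝ E] {H : Type*} [TopologicalSpace H]
  {J : ModelWithCorners ℝ E H}
  {P : Type*} [TopologicalSpace P] [ChartedSpace H P] {κ : ℝ × ℂ × ℝ → P} {b d : ℂ × ℝ × ℝ → P}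
  {X : Type*} [TopologicalSpace X] [ChartedSpace E4 X] {n j : ℤ} {ε₁ ε₂ σ : ℝ}
  {r r' : ℝ} {k : ℕ} {c μ : Fin k → ℂ} {β ς sh η ρ : Fin k → ℝ} {La : ℂ × ℝ × ℝ → ℂ × ℝ × ℝ}
  {Ms : ℂ × ℝ → ℂ} {R : ℂ → ℂ}

/-- the new union -/
noncomputable def newTwin [T2Space P] [T2Space X] (D : TwinP J κ n j X) (h : Bundle J κ b ε₁ ε₂)
    (hσ : DiscOK D b ε₁ ε₂ σ)
    (hp : Pieces J κ b d r c μ β ς sh η ρ) (hr : r' < r) (hLa : IsLam r' c η La R)
    (hMs : IsMs r' c η Ms R) {M : Equiv.Perm P} (hM : IsM r d Ms M) {Ξ : Equiv.Perm X}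
    (hΞ : IsXi (Jd D b d ε₁ ε₂ σ c μ β ς sh η ρ) r c η La Ξ) :
    TwinP J (fun a => M (κ a)) n j X where
  A := fun p => Ξ (D.A (M.symm p))
  Q := fun z => Ξ (D.Q z)
  A_loc := fun p hT => Ap_ld D h hσ hp hr hLa hMs hM hΞ hT
  A_inj := by
    intro p p' h1 h2 he
    rw [OnT_M] at h1 h2
    exact M.symm.injective (D.A_inj _ _ h1 h2 (Ξ.injective he))
  Q_loc := fun z hz => Qp_ld D h hσ hp hr hLa hMs hΞ hz
  Q_inj := fun z z' h1 h2 he => D.Q_inj z z' h1 h2 (Ξ.injective he)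
  glue := by
    intro z l m t h1 h2 h3 h4 h5 h6
    show Ξ (D.Q z) = Ξ (D.A (M.symm (M (κ (l, (2 * ‖c1 z‖ * ‖c2 z‖ : ℝ) * ex m, t)))))
    rw [Equiv.symm_apply_apply, D.glue z l m t h1 h2 h3 h4 h5 h6]
  disj := by
    intro z p h1 h2 h3 he
    rw [OnT_M] at h3
    exact D.disj z _ h1 h2 h3 (Ξ.injective he)
  cover := by
    intro q
    rcases D.cover (Ξ.symm q) with ⟨p, h1, h2⟩ | ⟨z, h1, h2⟩
    · refine Or.inl ⟨M p, ?_, ?_⟩
      · rw [OnT_M, Equiv.symm_apply_apply]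
        exact h1
      · show q = Ξ (D.A (M.symm (M p)))
        rw [Equiv.symm_apply_apply, ← h2, Equiv.apply_symm_apply]
    · refine Or.inr ⟨z, h1, ?_⟩
      show q = Ξ (D.Q z)
      rw [← h2, Equiv.apply_symm_apply]

/-- the abstract move, for a given permutation `M` -/
theorem move_twin [T2Space P] [T2Space X] (h : Bundle J κ b ε₁ ε₂)
    (hp : Pieces J κ b d r c μ β ς sh η ρ) (hr : r' < r)
    (hLa : IsLam r' c η La R) (hMs : IsMs r' c η Ms R) {M : Equiv.Perm P} (hM : IsM r d Ms M)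
    (D : Nonempty (TwinP J κ n j X)) : Nonempty (TwinP J (fun a => M (κ a)) n j X) := by
  obtain ⟨D⟩ := D
  obtain ⟨σ, hσ⟩ := exists_disc D h
  obtain ⟨Ξ, hΞ⟩ := exists_Xi D h hσ hp hr hLa
  exact ⟨newTwin D h hσ hp hr hLa hMs hM hΞ⟩

universe u

/-- the abstract move -/
theorem move [T2Space P] (h : Bundle J κ b ε₁ ε₂) (hp : Pieces J κ b d r c μ β ς sh η ρ) (hr : r' < r)
    (hLa : IsLam r' c η La R) (hMs : IsMs r' c η Ms R) :
    ∃ M : Equiv.Perm P, IsM r d Ms M ∧ ThickT J (fun a => M (κ a)) ∧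
      ∀ (X : Type u) [TopologicalSpace X] [ChartedSpace E4 X] [T2Space X] (n j : ℤ),
        Nonempty (TwinP J κ n j X) → Nonempty (TwinP J (fun a => M (κ a)) n j X) := by
  obtain ⟨M, hM⟩ := exists_M hp.box hr hMs
  exact ⟨M, hM, thick_M h hp hr hMs hM, fun X _ _ _ n j D => move_twin h hp hr hLa hMs hM D⟩

/-- **The ribbon move** for a given `M`. -/
theorem ribbon_twin [T2Space P] [T2Space X] (h : Bundle J κ b ε₁ ε₂)
    (hp : Pieces J κ b d 1 c μ β ς sh η ρ) (hc : ∀ i, ‖c i‖ + 4 * η i ≤ 1 / 100) {o : ℝ}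
    (ho : o = 1 ∨ o = -1) {M : Equiv.Perm P} (hM : IsM 1 d (MsR c η o) M)
    (D : Nonempty (TwinP J κ n j X)) : Nonempty (TwinP J (fun a => M (κ a)) n j X) :=
  move_twin (r' := 7 / 8) h hp (by norm_num) (LaR_isLam hp.eta hp.dist hc ho)
    (MsR_isMs hp.eta hp.dist hc ho) hM D

/-- **The ribbon move**: `k` pieces of the bundle `b` in the box `d`, all near the axis; the move `M` takes the pieces once around the
axis, each by translations. -/
theorem ribbon_move [T2Space P] (h : Bundle J κ b ε₁ ε₂) (hp : Pieces J κ b d 1 c μ β ς sh η ρ)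
    (hc : ∀ i, ‖c i‖ + 4 * η i ≤ 1 / 100) {o : ℝ} (ho : o = 1 ∨ o = -1) :
    ∃ M : Equiv.Perm P, IsM 1 d (MsR c η o) M ∧ ThickT J (fun a => M (κ a)) ∧
      ∀ (X : Type u) [TopologicalSpace X] [ChartedSpace E4 X] [T2Space X] (n j : ℤ),
        Nonempty (TwinP J κ n j X) → Nonempty (TwinP J (fun a => M (κ a)) n j X) :=
  move (r' := 7 / 8) h hp (by norm_num) (LaR_isLam hp.eta hp.dist hc ho) (MsR_isMs hp.eta hp.dist hc ho)

/-- the bundle box itself as a box with one piece -/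
theorem pieces_self (h : Bundle J κ b ε₁ ε₂) :
    Pieces J κ b b 4 (fun _ : Fin 1 => (0 : ℂ)) (fun _ => 1) (fun _ => 0) (fun _ => 1)
      (fun _ => 0) (fun _ => 1) (fun _ => 1) := by
  refine ⟨h.box, fun _ => one_pos, fun _ => by simp, fun _ => one_pos, fun _ => by norm_num, ?_,
    fun _ => by norm_num, fun _ => Or.inl rfl, ?_, ?_, ?_⟩
  · intro i i' hi
    exact absurd (Subsingleton.elim i i') hi
  · intro i y s t _ _
    simp [RSG.cj]
  · intro y s t z s' t' h1 _ _ _ _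
    exact ⟨0, by simpa using h1⟩
  · intro y s t l v t' h1 _ _ _
    exact ⟨0, by simpa using h1⟩

/-- **The 4-move** for a given `M`. -/
theorem four_twin [T2Space P] [T2Space X] (h : Bundle J κ b ε₁ ε₂) {o : ℝ}
    (ho : o = 1 ∨ o = -1) {M : Equiv.Perm P} (hM : IsM 4 b (MsDo o) M)
    (D : Nonempty (TwinP J κ n j X)) : Nonempty (TwinP J (fun a => M (κ a)) n j X) := by
  obtain ⟨La, R, hLa, hMs⟩ := exists_LaDo ho
  exact move_twin (r' := 39 / 10) h (pieces_self h) (by norm_num) hLa hMs hM D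

/-- **The 4-move**: two full turns of the bundle, of both handednesses `o = ±1`. -/
theorem four_moveP [T2Space P] (h : Bundle J κ b ε₁ ε₂) {o : ℝ} (ho : o = 1 ∨ o = -1) :
    ∃ M : Equiv.Perm P, IsM 4 b (MsDo o) M ∧ ThickT J (fun a => M (κ a)) ∧
      ∀ (X : Type u) [TopologicalSpace X] [ChartedSpace E4 X] [T2Space X] (n j : ℤ),
        Nonempty (TwinP J κ n j X) → Nonempty (TwinP J (fun a => M (κ a)) n j X) := by
  obtain ⟨La, R, hLa, hMs⟩ := exists_LaDo ho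
  exact move (r' := 39 / 10) h (pieces_self h) (by norm_num) hLa hMs

end Pool.Agent.RBM
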