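import Pool.Agent.RBM.Defs
import Pool.Agent.RSG.ExM
import Pool.Agent.RSG.FKn

/-!
# RBM/TorP: the torus and the bundle box   (difficulty 2)

Model: `RSG/FKn.lean` (`per_int`, `strand_all`, `FKn_cases`, `FKn_norm`, `ball_knot`).
* `kap_int`: integer periods of `κ`; `box_int`: of a box.
* `strand_eq`: the two strands in one formula, `δ = ±1`, `ε = ε₁` or `ε₂`.
* `kap_box`: let `κ (l, v, t) = b (z, s, t')`.  `RSG.strand_all l`: if `l` is in a window, `l = 1/2 - δ/4 + l' + k`, then `κ (l, v, t) =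
  b (δ + cj ε v/2, 16 ε l', t)` and `box.inj` (norm `< 3/2`, `|16 ε l'| < 1`) gives the claim; otherwise `h.rest` is a contradiction.
* `box_torus`: take `v = 0`: `z = δ`.
* `kap_not`: `κ (l, v, t)` with `0 < ‖v‖ < 1` is not on the torus (`thick.inj`).
-/

open scoped Manifold ContDiff Topology
open Set Filter
open Complex (I)
open Pool.Agent.RSG (E4 S4 ex cj c1 c2 ht fh)

namespace Pool.Agent.RBM

variable {E : Type*} [NormedAddCommGroup E] [NormedSpace ℝ E] {H : Type*} [TopologicalSpace H]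
  {J : ModelWithCorners ℝ E H}
  {P : Type*} [TopologicalSpace P] [ChartedSpace H P] {κ : ℝ × ℂ × ℝ → P} {b : ℂ × ℝ × ℝ → P}
  {ε₁ ε₂ : ℝ}

theorem TorP_per {α : Type*} {f : ℝ → α} (h : ∀ x, f (x + 1) = f x) (x : ℝ) (m : ℤ) : f (x + m) = f x := by
  have h1 : Function.Periodic f 1 := h
  have := h1.int_mul m x
  simpa using this

theorem kap_int (h : ThickT J κ) (l : ℝ) (v : ℂ) (t : ℝ) (m m' : ℤ) :
    κ (l + m, v, t + m') = κ (l, v, t) := by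
  have h1 := TorP_per (f := fun x => κ (x, v, t + m')) (fun x => h.perl x v _) l m
  have h2 := TorP_per (f := fun x => κ (l, v, x)) (fun x => h.pert l v x) t m'
  exact h1.trans h2

theorem box_int {r : ℝ} (h : Box J b r) (z : ℂ) (s t : ℝ) (m : ℤ) : b (z, s, t + m) = b (z, s, t) :=
  TorP_per (f := fun x => b (z, s, x)) (fun x => h.per z s x) t m

theorem strand_eq (h : Bundle J κ b ε₁ ε₂) {δ : ℝ} (hδ : δ = 1 ∨ δ = -1) :
    ∃ ε : ℝ, (ε = 1 ∨ ε = -1) ∧ (δ = 1 → ε = ε₁) ∧ (δ = -1 → ε = ε₂) ∧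
      ∀ (l : ℝ) (v : ℂ) (t : ℝ), |l| < 1 / 16 → ‖v‖ < 1 →
        κ (1 / 2 - δ / 4 + l, v, t) = b (δ + cj ε v / 2, 16 * ε * l, t) := by
  rcases hδ with rfl | rfl
  · refine ⟨ε₁, h.sign₁, fun _ => rfl, fun h0 => absurd h0 (by norm_num), fun l v t hl hv => ?_⟩
    rw [show (1 / 2 - 1 / 4 + l : ℝ) = 1 / 4 + l by ring, h.strand₁ l v t hl hv, Complex.ofReal_one]
  · refine ⟨ε₂, h.sign₂, fun h0 => absurd h0 (by norm_num), fun _ => rfl, fun l v t hl hv => ?_⟩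
    rw [show (1 / 2 - (-1) / 4 + l : ℝ) = 3 / 4 + l by ring, h.strand₂ l v t hl hv, Complex.ofReal_neg,
      Complex.ofReal_one]

theorem kap_box (h : Bundle J κ b ε₁ ε₂) {l : ℝ} {v : ℂ} {t : ℝ} {z : ℂ} {s t' : ℝ} (hv : ‖v‖ < 1)
    (hz : ‖z‖ < 4) (hs : |s| < 1) (he : κ (l, v, t) = b (z, s, t')) :
    ∃ δ ε : ℝ, (δ = 1 ∨ δ = -1) ∧ (ε = 1 ∨ ε = -1) ∧ z = δ + cj ε v / 2 := by
  rcases RSG.strand_all l with ⟨δ, l', k, hδ, hl', rfl⟩ | h2
  · obtain ⟨ε, hε, -, -, hst⟩ := strand_eq h hδ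
    refine ⟨δ, ε, hδ, hε, ?_⟩
    have h1 : κ (1 / 2 - δ / 4 + l' + k, v, t) = κ (1 / 2 - δ / 4 + l', v, t) := by
      have := kap_int h.thick (1 / 2 - δ / 4 + l') v t k 0
      simpa using this
    rw [h1, hst l' v t hl' hv] at he
    have hn := RSG.FKn_norm hδ hε hv
    have hl : |16 * ε * l'| < 1 := by
      have hε' : |ε| = 1 := by rcases hε with rfl | rfl <;> simp
      rw [abs_mul, abs_mul, hε', abs_of_pos (by norm_num : (0 : ℝ) < 16)]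
      linarith
    exact (h.box.inj _ _ _ _ _ _ (by linarith) hl hz hs he).1.symm
  · exact absurd he (h.rest l v t hv h2 z s t' hz hs)

theorem kap_box_norm (h : Bundle J κ b ε₁ ε₂) {l : ℝ} {v : ℂ} {t : ℝ} {z : ℂ} {s t' : ℝ} (hv : ‖v‖ < 1)
    (hz : ‖z‖ < 4) (hs : |s| < 1) (he : κ (l, v, t) = b (z, s, t')) : ‖z‖ < 3 / 2 := by
  obtain ⟨δ, ε, hδ, hε, rfl⟩ := kap_box h hv hz hs he
  exact RSG.FKn_norm hδ hε hv

theorem box_torus (h : Bundle J κ b ε₁ ε₂) {z : ℂ} {s t : ℝ} (hz : ‖z‖ < 4) (hs : |s| < 1) :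
    OnT κ (b (z, s, t)) ↔ z = 1 ∨ z = -1 := by
  constructor
  · rintro ⟨l, t', he⟩
    obtain ⟨δ, ε, hδ, hε, hze⟩ := kap_box h (v := 0) (by simp) hz hs he.symm
    rw [hze, RSG.cj_zero]
    rcases hδ with rfl | rfl <;> simp
  · have key : ∀ ε : ℝ, (ε = 1 ∨ ε = -1) → |ε * s / 16| < 1 / 16 ∧ 16 * ε * (ε * s / 16) = s := by
      intro ε hε
      have hε' : |ε| = 1 := by rcases hε with rfl | rfl <;> simp
      have hε2 : ε * ε = 1 := by rcases hε with rfl | rfl <;> norm_num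
      constructor
      · rw [abs_div, abs_mul, hε', abs_of_pos (by norm_num : (0 : ℝ) < 16)]
        linarith
      · linear_combination s * hε2
    rintro (rfl | rfl)
    · obtain ⟨k1, k2⟩ := key ε₁ h.sign₁
      refine ⟨1 / 4 + ε₁ * s / 16, t, ?_⟩
      rw [h.strand₁ _ 0 t k1 (by simp), k2, RSG.cj_zero]
      simp
    · obtain ⟨k1, k2⟩ := key ε₂ h.sign₂
      refine ⟨3 / 4 + ε₂ * s / 16, t, ?_⟩
      rw [h.strand₂ _ 0 t k1 (by simp), k2, RSG.cj_zero]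
      simp

theorem kap_not (h : ThickT J κ) {l : ℝ} {v : ℂ} (t : ℝ) (h0 : v ≠ 0) (h1 : ‖v‖ < 1) :
    ¬ OnT κ (κ (l, v, t)) := by
  rintro ⟨l', t', he⟩
  exact h0 (h.inj _ _ _ _ _ _ h1 (by simp) he).1

end Pool.Agent.RBM
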