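import Pool.Agent.RSG.Fn
import Pool.Agent.CSG.FunBasic
import Pool.Agent.CSG.LDa
import Pool.Agent.CSG.LDb

/-!
# RBM/Defs: the ribbon move, definitions

`P` is a manifold (any model; it will be of dimension 4), `κ` a thick torus in `P`: `κ (l, v, t)`, of period `1` in
`l` and in `t`, `‖v‖ < 1`; the torus is `κ (l, 0, t)`.

* `TwinP κ n j X`: `X` is the union of `P - torus` (map `A`) and of the twin (map `Q`), as `RSG.RollGluck`.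
* `Box I b r`: `b (z, s, t)`, `‖z‖ < r`, `|s| < 1`, period `1` in `t`: an embedded `ball × S¹`.
* `Bundle κ b ε₁ ε₂`: in the box `b` (`r = 4`) the torus consists of the two straight strands `z = ±1`.
* `Pieces J κ b d r c μ β ς sh η ρ`: in the box `d` (radius `r`) the torus is contained in `k` pieces of the bundle `b`.
* `hD`: chart of the thick disc.  `Jm`: the map `J` on the bundle box, `Jd`: the map on the box `d`.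
* `IsLam`, `IsMs`, `IsM`, `IsXi`: the abstract move.
-/

open scoped Manifold ContDiff Topology
open Complex (I)
open Pool.Agent.CSG (stp)
open Pool.Agent.RSG (E4 S4 ex cj c1 c2 ht fh Vx XW BBi outB mix HH)

namespace Pool.Agent.RBM

section defs
variable {E : Type*} [NormedAddCommGroup E] [NormedSpace ℝ E] {H : Type*} [TopologicalSpace H]
  (J : ModelWithCorners ℝ E H)
  {P : Type*} [TopologicalSpace P] [ChartedSpace H P]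

/-- a thick torus -/
structure ThickT (κ : ℝ × ℂ × ℝ → P) : Prop where
  perl : ∀ (l : ℝ) (v : ℂ) (t : ℝ), κ (l + 1, v, t) = κ (l, v, t)
  pert : ∀ (l : ℝ) (v : ℂ) (t : ℝ), κ (l, v, t + 1) = κ (l, v, t)
  loc : ∀ (l : ℝ) (v : ℂ) (t : ℝ), ‖v‖ < 1 → IsLocalDiffeomorphAt 𝓘(ℝ, ℝ × ℂ × ℝ) J ∞ κ (l, v, t)
  inj : ∀ (l : ℝ) (v : ℂ) (t l' : ℝ) (v' : ℂ) (t' : ℝ), ‖v‖ < 1 → ‖v'‖ < 1 → κ (l, v, t) = κ (l', v', t') →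
    v = v' ∧ (∃ m : ℤ, l' = l + m) ∧ ∃ m : ℤ, t' = t + m

/-- `p` is a point of the torus -/
def OnT (κ : ℝ × ℂ × ℝ → P) (p : P) : Prop := ∃ l t : ℝ, p = κ (l, 0, t)

/-- `X` is the union of `P - torus` and of a twin. -/
structure TwinP (κ : ℝ × ℂ × ℝ → P) (n j : ℤ) (X : Type*) [TopologicalSpace X]
    [ChartedSpace E4 X] where
  A : P → X
  Q : S4 → X
  A_loc : ∀ p, ¬ OnT κ p → IsLocalDiffeomorphAt J (𝓡 4) ∞ A p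
  A_inj : ∀ p p', ¬ OnT κ p → ¬ OnT κ p' → A p = A p' → p = p'
  Q_loc : ∀ z, fh z ≠ 0 → IsLocalDiffeomorphAt (𝓡 4) (𝓡 4) ∞ Q z
  Q_inj : ∀ z z', fh z ≠ 0 → fh z' ≠ 0 → Q z = Q z' → z = z'
  glue : ∀ (z : S4) (l m t : ℝ), fh z ≠ 0 → c1 z ≠ 0 → c2 z ≠ 0 →
    c1 z = ‖c1 z‖ * ex (m + (1 - j) * t) → c2 z = ‖c2 z‖ * ex (m - j * t) →
    fh z = ‖fh z‖ * ex (l - n * t) → Q z = A (κ (l, (2 * ‖c1 z‖ * ‖c2 z‖ : ℝ) * ex m, t))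
  disj : ∀ z p, fh z ≠ 0 → c1 z = 0 ∨ c2 z = 0 → ¬ OnT κ p → Q z ≠ A p
  cover : ∀ q, (∃ p, ¬ OnT κ p ∧ q = A p) ∨ ∃ z, fh z ≠ 0 ∧ q = Q z

/-- an embedded `ball × S¹` -/
structure Box (b : ℂ × ℝ × ℝ → P) (r : ℝ) : Prop where
  per : ∀ (z : ℂ) (s t : ℝ), b (z, s, t + 1) = b (z, s, t)
  loc : ∀ (z : ℂ) (s t : ℝ), ‖z‖ < r → |s| < 1 → IsLocalDiffeomorphAt 𝓘(ℝ, ℂ × ℝ × ℝ) J ∞ b (z, s, t)
  inj : ∀ (z : ℂ) (s t : ℝ) (z' : ℂ) (s' t' : ℝ), ‖z‖ < r → |s| < 1 → ‖z'‖ < r → |s'| < 1 → b (z, s, t) = b (z', s', t') →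
    z = z' ∧ s = s' ∧ ∃ m : ℤ, t' = t + m

/-- In the box `b` the torus consists of two straight strands. -/
structure Bundle (κ : ℝ × ℂ × ℝ → P) (b : ℂ × ℝ × ℝ → P) (ε₁ ε₂ : ℝ) : Prop where
  thick : ThickT J κ
  box : Box J b 4
  sign₁ : ε₁ = 1 ∨ ε₁ = -1
  sign₂ : ε₂ = 1 ∨ ε₂ = -1
  strand₁ : ∀ (l : ℝ) (v : ℂ) (t : ℝ), |l| < 1 / 16 → ‖v‖ < 1 →
    κ (1 / 4 + l, v, t) = b (1 + cj ε₁ v / 2, 16 * ε₁ * l, t)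
  strand₂ : ∀ (l : ℝ) (v : ℂ) (t : ℝ), |l| < 1 / 16 → ‖v‖ < 1 →
    κ (3 / 4 + l, v, t) = b (-1 + cj ε₂ v / 2, 16 * ε₂ * l, t)
  rest : ∀ (l : ℝ) (v : ℂ) (t : ℝ), ‖v‖ < 1 → (∀ k : ℤ, 1 / 16 ≤ |l - 1 / 4 - k| ∧ 1 / 16 ≤ |l - 3 / 4 - k|) →
    ∀ (z : ℂ) (s t' : ℝ), ‖z‖ < 4 → |s| < 1 → κ (l, v, t) ≠ b (z, s, t')

/-- In the box `d` the torus is contained in `k` pieces of the bundle `b`: the piece `i` is
`‖y - c i‖ < 4 η i`, with the coordinate `(y - c i) / μ i` of `b` (or its conjugate), `η i = ‖μ i‖`. -/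
structure Pieces (κ : ℝ × ℂ × ℝ → P) (b d : ℂ × ℝ × ℝ → P) (r : ℝ) {k : ℕ} (c μ : Fin k → ℂ)
    (β ς sh η ρ : Fin k → ℝ) : Prop where
  box : Box J d r
  eta : ∀ i, 0 < η i
  mu : ∀ i, ‖μ i‖ = η i
  rho : ∀ i, 0 < ρ i
  small : ∀ i, ‖c i‖ + 4 * η i ≤ r
  dist : ∀ i i', i ≠ i' → 4 * η i + 4 * η i' ≤ ‖c i - c i'‖
  range : ∀ i, |β i| + ρ i ≤ 1
  sign : ∀ i, ς i = 1 ∨ ς i = -1
  piece : ∀ (i : Fin k) (y : ℂ) (s t : ℝ), ‖y - c i‖ < 4 * η i → |s| < 1 →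
    d (y, s, t) = b (cj (ς i) ((y - c i) / μ i), β i + ς i * ρ i * s, t + sh i)
  inter : ∀ (y : ℂ) (s t : ℝ) (z : ℂ) (s' t' : ℝ), ‖y‖ < r → |s| < 1 → ‖z‖ < 4 → |s'| < 1 →
    d (y, s, t) = b (z, s', t') → ∃ i, ‖y - c i‖ < 4 * η i
  torus : ∀ (y : ℂ) (s t l : ℝ) (v : ℂ) (t' : ℝ), ‖y‖ < r → |s| < 1 → ‖v‖ < 1 →
    d (y, s, t) = κ (l, v, t') → ∃ i, ‖y - c i‖ < 4 * η i

end defs

/-- the representative of `x` modulo `1` in `[-1/2, 1/2]` -/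
noncomputable def frc (x : ℝ) : ℝ := x - round x

/-! ## the thick disc -/

/-- the chart of the disc, straight end -/
noncomputable def strB (q : ℂ × ℂ) : ℂ × ℝ × ℝ := (q.1 / 4, q.2.re, q.2.im)

/-- far from the strands -/
noncomputable def BBs (q : ℂ × ℂ) : ℂ × ℝ × ℝ := mix (stp 64 81 (‖q.1‖ ^ 2)) (outB q) (strB q)

open Classical in
/-- ball coordinates of the chart of the disc, in the coordinates `(p, ν)` -/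
noncomputable def BD (ε₁ ε₂ : ℝ) (n j : ℤ) (q : ℂ × ℂ) : ℂ × ℝ × ℝ :=
  if ‖q.1 - 4‖ < 1 then BBi 1 ε₁ n j q
  else if ‖q.1 + 4‖ < 1 then BBi (-1) ε₂ n j q
  else BBs q

section maps
variable {E : Type*} [NormedAddCommGroup E] [NormedSpace ℝ E] {H : Type*} [TopologicalSpace H]
  {J : ModelWithCorners ℝ E H}
  {P : Type*} [TopologicalSpace P] [ChartedSpace H P]
  {X : Type*} [TopologicalSpace X] [ChartedSpace E4 X] {κ : ℝ × ℂ × ℝ → P} {n j : ℤ}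

open Classical in
/-- the chart of the disc, in the coordinates `(p, ν)` -/
noncomputable def DC (D : TwinP J κ n j X) (b : ℂ × ℝ × ℝ → P) (ε₁ ε₂ : ℝ) (q : ℂ × ℂ) : X :=
  if ‖q.1 - 4‖ < 1 / 4 then D.Q (Vx 1 (XW 1 ε₁ q))
  else if ‖q.1 + 4‖ < 1 / 4 then D.Q (Vx (-1) (XW (-1) ε₂ q))
  else D.A (b (BD ε₁ ε₂ n j q))

/-- The thick disc: `h (z, s, t)`, `‖z‖ < 3`, `|s| < σ`, `|t| < σ`, equal to `A (b (z, s, t))` for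
`‖z‖ ≥ 9/4`. -/
noncomputable def hD (D : TwinP J κ n j X) (b : ℂ × ℝ × ℝ → P) (ε₁ ε₂ : ℝ) (a : ℂ × ℝ × ℝ) : X :=
  DC D b ε₁ ε₂ (4 * a.1, ⟨a.2.1, a.2.2⟩)

/-- the points of `X` which may be met by the disc: the part `‖z‖ < r` of the box, and the twin -/
def Inn (D : TwinP J κ n j X) (b : ℂ × ℝ × ℝ → P) (r : ℝ) : Set X :=
  {x | (∃ (z : ℂ) (s t : ℝ), ‖z‖ < r ∧ |s| < 1 ∧ ¬ OnT κ (b (z, s, t)) ∧ x = D.A (b (z, s, t))) ∨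
    ∃ z : S4, fh z ≠ 0 ∧ x = D.Q z}

/-- `σ` is small enough -/
structure DiscOK (D : TwinP J κ n j X) (b : ℂ × ℝ × ℝ → P) (ε₁ ε₂ σ : ℝ) : Prop where
  pos : 0 < σ
  le : σ ≤ 1 / 8
  out : ∀ (z : ℂ) (s t : ℝ), 9 / 4 ≤ ‖z‖ → hD D b ε₁ ε₂ (z, s, t) = D.A (b (z, s, t))
  loc : ∀ (z : ℂ) (s t : ℝ), ‖z‖ ≤ 5 / 2 → |s| < σ → |t| < σ →
    IsLocalDiffeomorphAt 𝓘(ℝ, ℂ × ℝ × ℝ) (𝓡 4) ∞ (hD D b ε₁ ε₂) (z, s, t)
  inj : ∀ (z : ℂ) (s t : ℝ) (z' : ℂ) (s' t' : ℝ), ‖z‖ ≤ 5 / 2 → |s| < σ → |t| < σ → ‖z'‖ ≤ 5 / 2 → |s'| < σ → |t'| < σ →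
    hD D b ε₁ ε₂ (z, s, t) = hD D b ε₁ ε₂ (z', s', t') → (z, s, t) = (z', s', t')
  inn : ∀ (z : ℂ) (s t : ℝ), ‖z‖ < 9 / 4 → |s| < σ → |t| < σ → hD D b ε₁ ε₂ (z, s, t) ∈ Inn D b (5 / 2)

/-! ## the map `J` -/

/-- `σ` for `‖z‖ ≤ 5/2`, `1` for `‖z‖ ≥ 3` (variable `‖z‖²`) -/
noncomputable def lamJ (σ q : ℝ) : ℝ := σ + (1 - σ) * stp (25 / 4) 9 q
/-- `0` for `‖z‖ ≤ 5/2`, `1` for `‖z‖ ≥ 3` -/
noncomputable def muJ (q : ℝ) : ℝ := stp (25 / 4) 9 q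

/-- the map `J`; the hole of `J` is at the height `1/2 + τ s`. -/
noncomputable def Jm (D : TwinP J κ n j X) (b : ℂ × ℝ × ℝ → P) (ε₁ ε₂ σ : ℝ) (τ : ℝ → ℝ)
    (a : ℂ × ℝ × ℝ) : X :=
  open Classical in
  if ‖a.1‖ < 5 / 2 then hD D b ε₁ ε₂ (a.1, σ * a.2.1, σ * frc (a.2.2 - τ a.2.1))
  else if ‖a.1‖ < 3 then
    D.A (b (a.1, lamJ σ (‖a.1‖ ^ 2) * a.2.1,
      lamJ σ (‖a.1‖ ^ 2) * frc (a.2.2 - τ a.2.1) + muJ (‖a.1‖ ^ 2) * τ a.2.1))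
  else D.A (b a)

/-- the domain of `J`: the box without the hole -/
def DomJ (τ : ℝ → ℝ) (δ : ℝ) : Set (ℂ × ℝ × ℝ) :=
  {a | ‖a.1‖ < 4 ∧ |a.2.1| < 1 ∧ (‖a.1‖ ≤ 3 → |frc (a.2.2 - τ a.2.1)| < 1 / 2 - δ)}

/-- the heights of the holes, and their size -/
noncomputable def hh (k : ℕ) (i : Fin k) : ℝ := (((i : ℕ) : ℝ) + 1) / (4 * ((k : ℝ) + 1))
noncomputable def dl (k : ℕ) : ℝ := 1 / (64 * ((k : ℝ) + 1))

/-- the function `τ` with the value `hh i + sh i` near `β i` -/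
noncomputable def tau {k : ℕ} (β sh ρ : Fin k → ℝ) (x : ℝ) : ℝ :=
  ∑ i, (hh k i + sh i) * (1 - stp (1 / 16) (1 / 4) (((x - β i) / ρ i) ^ 2))

open Classical in
/-- the map `J` in the box `d` -/
noncomputable def Jd (D : TwinP J κ n j X) (b d : ℂ × ℝ × ℝ → P) (ε₁ ε₂ σ : ℝ) {k : ℕ}
    (c μ : Fin k → ℂ) (β ς sh η ρ : Fin k → ℝ) (a : ℂ × ℝ × ℝ) : X :=
  if h : ∃ i, ‖a.1 - c i‖ ≤ 7 / 2 * η i then
    Jm D b ε₁ ε₂ σ (tau β sh ρ) (cj (ς h.choose) ((a.1 - c h.choose) / μ h.choose),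
      β h.choose + ς h.choose * ρ h.choose * a.2.1, a.2.2 + sh h.choose)
  else D.A (d a)

end maps

/-- the domain of `Jd` -/
def Ud {k : ℕ} (r : ℝ) (c : Fin k → ℂ) (η : Fin k → ℝ) : Set (ℂ × ℝ × ℝ) :=
  {a | ‖a.1‖ < r ∧ |a.2.1| < 1 / 4 ∧
    ∀ i, ‖a.1 - c i‖ ≤ 3 * η i → |frc (a.2.2 - hh k i)| < 1 / 2 - dl k}

/-! ## the abstract move -/

/-- `La` is a level preserving isotopy of `disc × S¹` relative to the holes, from the identity to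
`R × id`. -/
structure IsLam {k : ℕ} (r' : ℝ) (c : Fin k → ℂ) (η : Fin k → ℝ) (La : ℂ × ℝ × ℝ → ℂ × ℝ × ℝ) (R : ℂ → ℂ) : Prop where
  ld : ∀ q, IsLocalDiffeomorphAt 𝓘(ℝ, ℂ × ℝ × ℝ) 𝓘(ℝ, ℂ × ℝ × ℝ) ∞ La q
  bij : Function.Bijective La
  s : ∀ (y : ℂ) (s t : ℝ), (La (y, s, t)).2.1 = s
  per : ∀ (y : ℂ) (s t : ℝ), La (y, s, t + 1) = La (y, s, t) + (0, 0, 1)
  low : ∀ (y : ℂ) (s t : ℝ), s ≤ -(1 / 8) → La (y, s, t) = (y, s, t)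
  out : ∀ (y : ℂ) (s t : ℝ), r' ≤ ‖y‖ → La (y, s, t) = (y, s, t)
  hole : ∀ (i : Fin k) (y : ℂ) (s t : ℝ), ‖y - c i‖ ≤ 17 / 5 * η i → 1 / 2 - 2 * dl k ≤ |frc (t - hh k i)| →
    La (y, s, t) = (y, s, t)
  high : ∀ (y : ℂ) (s t : ℝ), 1 / 16 ≤ s → La (y, s, t) = (R y, s, t)

/-- `Ms` is a level preserving isotopy of the disc from the identity to `R`. -/
structure IsMs {k : ℕ} (r' : ℝ) (c : Fin k → ℂ) (η : Fin k → ℝ) (Ms : ℂ × ℝ → ℂ) (R : ℂ → ℂ) : Prop where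
  ld : ∀ q, IsLocalDiffeomorphAt 𝓘(ℝ, ℂ × ℝ) 𝓘(ℝ, ℂ × ℝ) ∞ (fun q : ℂ × ℝ => (Ms q, q.2)) q
  bij : ∀ s : ℝ, Function.Bijective fun y : ℂ => Ms (y, s)
  low : ∀ (y : ℂ) (s : ℝ), s ≤ -(1 / 8) → Ms (y, s) = y
  out : ∀ (y : ℂ) (s : ℝ), r' ≤ ‖y‖ → Ms (y, s) = y
  high : ∀ (y : ℂ) (s : ℝ), 1 / 16 ≤ s → Ms (y, s) = R y
  bijR : Function.Bijective R
  R_ld : ∀ y : ℂ, IsLocalDiffeomorphAt 𝓘(ℝ, ℂ) 𝓘(ℝ, ℂ) ∞ R y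
  R_in : ∀ (i : Fin k) (y : ℂ), ‖y - c i‖ ≤ 17 / 5 * η i → R y = y

section
variable {E : Type*} [NormedAddCommGroup E] [NormedSpace ℝ E] {H : Type*} [TopologicalSpace H]
  {J : ModelWithCorners ℝ E H}
  {P : Type*} [TopologicalSpace P] [ChartedSpace H P]
  {X : Type*} [TopologicalSpace X] [ChartedSpace E4 X] {κ : ℝ × ℂ × ℝ → P} {n j : ℤ}

/-- `M` is the permutation of `P` given by `Ms` on the part `|s| < 1/8` of the box `d`. -/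
structure IsM (r : ℝ) (d : ℂ × ℝ × ℝ → P) (Ms : ℂ × ℝ → ℂ) (M : Equiv.Perm P) : Prop where
  ball : ∀ (y : ℂ) (s t : ℝ), ‖y‖ < r → |s| < 1 / 8 → M (d (y, s, t)) = d (Ms (y, s), s, t)
  out : ∀ p, (∀ (y : ℂ) (s t : ℝ), ‖y‖ < r → |s| < 1 / 8 → p ≠ d (y, s, t)) → M p = p

/-- `Ξ` is the permutation of `X` given by `La` on the part `|s| < 1/8` of the image of `Jd`. -/
structure IsXi {k : ℕ} (Jf : ℂ × ℝ × ℝ → X) (r : ℝ) (c : Fin k → ℂ) (η : Fin k → ℝ) (La : ℂ × ℝ × ℝ → ℂ × ℝ × ℝ)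
    (Ξ : Equiv.Perm X) : Prop where
  ball : ∀ a ∈ Ud r c η, |a.2.1| < 1 / 8 → Ξ (Jf a) = Jf (La a)
  out : ∀ x, (∀ a ∈ Ud r c η, |a.2.1| < 1 / 8 → x ≠ Jf a) → Ξ x = x

end

/-! ## the ribbon move -/

/-- rotation of the disc `‖y‖ < 7/8`, by `θ` turns on `‖y‖ ≤ 3/4` -/
noncomputable def Ro (θ : ℝ) (y : ℂ) : ℂ := ex (θ * (1 - stp (9 / 16) (49 / 64) (‖y‖ ^ 2))) * y

/-- translation of the disc `‖y‖ ≤ 1/4` by the small vector `v` -/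
noncomputable def Ev (v y : ℂ) : ℂ := y + (1 - stp (1 / 16) (9 / 16) (‖y‖ ^ 2) : ℝ) * v

/-- rotation by `-θ` turns of the discs `‖y - c i‖ ≤ 17/5 η i` -/
noncomputable def Un {k : ℕ} (c : Fin k → ℂ) (η : Fin k → ℝ) (θ : ℝ) (y : ℂ) : ℂ :=
  y + ∑ i, (ex (-θ * (1 - stp (289 / 25) (1521 / 100) (‖(y - c i) / η i‖ ^ 2))) - 1) * (y - c i)

/-- the centre of the rotation at the height `t` -/
noncomputable def wc {k : ℕ} (c : Fin k → ℂ) (t : ℝ) : ℂ :=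
  ∑ i, (1 - stp (4 * dl k ^ 2) (16 * dl k ^ 2) (frc (t - 1 / 2 - hh k i) ^ 2) : ℝ) * c i

/-- `0` for `s ≤ -1/8`, `1` for `s ≥ 1/16` -/
noncomputable def gs (s : ℝ) : ℝ := stp (-(1 / 8)) (1 / 16) s

/-- The ribbon move: the discs `‖y - c i‖ ≤ 17/5 η i` are moved once around `0` by translations. -/
noncomputable def MsR {k : ℕ} (c : Fin k → ℂ) (η : Fin k → ℝ) (o : ℝ) (q : ℂ × ℝ) : ℂ :=
  Ro (o * gs q.2) (Un c η (o * gs q.2) q.1)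

noncomputable def RR {k : ℕ} (c : Fin k → ℂ) (η : Fin k → ℝ) (o : ℝ) (y : ℂ) : ℂ := Ro o (Un c η o y)

noncomputable def LaR {k : ℕ} (c : Fin k → ℂ) (η : Fin k → ℝ) (o : ℝ) (a : ℂ × ℝ × ℝ) : ℂ × ℝ × ℝ :=
  (Ro (o * gs a.2.1) (Ev ((ex (-(o * gs a.2.1)) - 1) * wc c a.2.2) (Un c η (o * gs a.2.1) a.1)),
    a.2.1, a.2.2)

/-! ## the double twist (4-move) -/

/-- rotation by `θ` turns in the plane `(re, u)` -/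
noncomputable def Ti (θ : ℝ) (x : ℂ × ℝ) : ℂ × ℝ :=
  (⟨(ex θ).re * x.1.re + (ex θ).im * x.2, x.1.im⟩, -(ex θ).im * x.1.re + (ex θ).re * x.2)

/-- rotation by `θ` turns about the vertical axis -/
noncomputable def Rz (θ : ℝ) (x : ℂ × ℝ) : ℂ × ℝ := (ex θ * x.1, x.2)

/-- rotation number `1` inside, `0` outside; cylinder for `a = 0`, sphere for `a = 1` -/
noncomputable def Hf (a : ℝ) (x : ℂ × ℝ) : ℝ :=
  (1 - a) * (1 - stp (1849 / 10000) (144 / 625) (‖x.1‖ ^ 2)) +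
    a * (1 - stp (1849 / 10000) (144 / 625) (‖x.1‖ ^ 2 + x.2 ^ 2))

/-- `Rz (H)` after the rotation `Ti ψ Rz (H) Ti (-ψ)` -/
noncomputable def Dt (a ψ : ℝ) (x : ℂ × ℝ) : ℂ × ℝ :=
  Rz (Hf a x) (Ti ψ (Rz (Hf a x) (Ti (-ψ) x)))

/-- `1` for `s ≤ -1/32`, `0` for `s ≥ 1/16` -/
noncomputable def as (s : ℝ) : ℝ := 1 - stp (-(1 / 32)) (1 / 16) s
/-- `1/2` for `s ≤ -1/8`, `0` for `s ≥ -1/32` -/
noncomputable def ps (s : ℝ) : ℝ := (1 - stp (-(1 / 8)) (-(1 / 32)) s) / 2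

/-- The isotopy of the 4-move (`k = 1`, centre `0`, `η = 1`, `r = 4`, `r' = 39/10`). -/
noncomputable def LaD (a : ℂ × ℝ × ℝ) : ℂ × ℝ × ℝ :=
  let u := frc (a.2.2 - 1 / 2 - hh 1 0)
  let x := Dt (as a.2.1) (ps a.2.1) (a.1 / 8, u)
  (8 * x.1, a.2.1, a.2.2 + (x.2 - u))

/-- The 4-move: `0` turns for `s ≤ -1/8`, two full turns for `s ≥ 1/16`, on `‖y‖ ≤ 86/25`. -/
noncomputable def MsD (q : ℂ × ℝ) : ℂ :=
  ex (2 * gs q.2 * (1 - stp (1849 / 10000) (144 / 625) (‖q.1 / 8‖ ^ 2))) * q.1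

noncomputable def RD (y : ℂ) : ℂ :=
  ex (2 * (1 - stp (1849 / 10000) (144 / 625) (‖y / 8‖ ^ 2))) * y

end Pool.Agent.RBM
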