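import Pool.Agent.RBM.Defs
import Pool.Agent.RSG.BBn
import Pool.Agent.RSG.BBf
import Pool.Agent.RSG.GgA
import Pool.Agent.RSG.GgM

/-!
# RBM/GdM: the position of the disc, and the chart `BD`   (difficulty 3)

`BD (p, 0) = (gD p, 0, 0)` for `p ≠ ±4`.
* `gD`: near `4δ` (`|p - 4δ| < 1`) it is `ggi δ p = δ + g(|P|) P`, `P = p - 4δ`, `g = ((1 - χ)|P| + χ)/4`, `χ = stp (1/16) (1/4) (|P|²)`;
  elsewhere `p/4`.  `r ↦ r g(r)` is `0` at `0`, strictly increasing on `[0, 1]` (`χ` is monotone, `r² ≤ r`), and `= r/4` for `r ≥ 1/2`; so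
  `|gD p - δ| < 1/4` if `|p - 4δ| < 1`, and `|p/4 - δ| ≥ 1/4` elsewhere.
* `gD_inj`: in the same disc: the argument and the norm of `gD p - δ` determine `P`; the images of the two discs
  and of the rest are disjoint (previous line; `|p/4 - 1| < 1/4` and `|p/4 + 1| < 1/4` are incompatible).
* `gD_ne`: `gD p = δ` only for `P = 0`.
* `gD_norm`: `|p| < 9`: in the discs `|gD p| < 5/4`, elsewhere `|p|/4 < 9/4`.  `gD_far`: `|p| ≥ 5`: `gD p = p/4`.
* `BBs_zero`: `outB (p, 0) = strB (p, 0) = (p/4, 0, 0)`.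
* `BBs_ld` (`p ≠ ±4`): as `BBo_ld` in RSG/BBf (simpler): `ld_block` with `g p = p/4`; the derivative of `r ↦ (BBs (p, r c)).2` at `0`
  is `((1 - χ) Re (c H) + χ Re c, (1 - χ) Im (c H) + χ Im c)`, `χ = stp 64 81 (|p|²)`.  If it is zero: `((1 - χ) H + χ) c = 0`; for
  `|p| < 8`: `χ = 0`, `H ≠ 0`; for `|p| ≥ 8`: `Re ((1 - χ) H + χ) > 0` (`HH_re`).
* `BD_zero`, `BD_ld`: near `p` with `|p - 4δ| < 1`: `BD = BBi δ` near `(p, 0)` (`BBi_zero`, `BBi_ld`).  If `|p - 4δ| = 1`: `BD` is `BBi δ` or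
  `BBs` near it, and for `|p' - 4δ|² ≥ 1/4` (and `|p'| < 8`) both are `outB` (`stp (1/16) (1/4) = 1`), so `BD = outB = BBs` near
  `(p, 0)`.  Otherwise `BD = BBs` near `(p, 0)`.
-/

open scoped Manifold ContDiff Topology
open Set Filter
open Complex (I)
open Pool.Agent.RSG (E4 S4 ex cj c1 c2 ht fh ggi mix HH BBi outB)
open Pool.Agent.CSG (stp)

namespace Pool.Agent.RBM

open Classical in
noncomputable def gD (p : ℂ) : ℂ :=
  if ‖p - 4‖ < 1 then ggi 1 p else if ‖p + 4‖ < 1 then ggi (-1) p else p / 4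

theorem GdM_in {δ : ℝ} (hδ : δ = 1 ∨ δ = -1) {p : ℂ} (h : ‖p - 4 * δ‖ < 1) : gD p = ggi δ p := by
  unfold gD
  rcases hδ with rfl | rfl
  · rw [if_pos]
    simpa using h
  · rw [RSG.GgM_neg] at h
    rw [if_neg (RSG.GgM_far (by linarith)), if_pos h]

theorem GdM_out {p : ℂ} (h : ∀ δ : ℝ, δ = 1 ∨ δ = -1 → 1 ≤ ‖p - 4 * δ‖) : gD p = p / 4 := by
  unfold gD
  rw [if_neg, if_neg]
  · have := h (-1) (Or.inr rfl)
    rw [RSG.GgM_neg] at this
    exact not_lt.2 this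
  · have := h 1 (Or.inl rfl)
    rw [RSG.GgM_one] at this
    exact not_lt.2 this

theorem GdM_i {δ : ℝ} (hδ : δ = 1 ∨ δ = -1) {p : ℂ} (h : ‖p - 4 * δ‖ < 1) :
    ‖gD p - δ‖ < 1 / 4 := by
  rw [GdM_in hδ h]
  exact RSG.GgA_lt_ggi h

theorem GdM_o {p : ℂ} (h : ∀ δ : ℝ, δ = 1 ∨ δ = -1 → 1 ≤ ‖p - 4 * δ‖) {δ : ℝ}
    (hδ : δ = 1 ∨ δ = -1) : 1 / 4 ≤ ‖gD p - δ‖ := by
  rw [GdM_out h]
  have e : p / 4 - (δ : ℂ) = (p - 4 * δ) / 4 := by ring
  rw [e, norm_div]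
  have h1 := h δ hδ
  have h2 : ‖(4 : ℂ)‖ = 4 := by simp
  rw [h2]
  linarith

theorem gD_inj {p p' : ℂ} (h : gD p = gD p') : p = p' := by
  rcases RSG.GgA_cases p with ⟨δ, hδ, hp⟩ | hp
  · rcases RSG.GgA_cases p' with ⟨δ', hδ', hp'⟩ | hp'
    · have h1 := GdM_i hδ hp
      have h2 := GdM_i hδ' hp'
      by_cases hdd : δ = δ'
      · subst hdd
        rw [GdM_in hδ hp, GdM_in hδ hp'] at h
        exact RSG.GgA_ggi_inj hp hp' h
      · exfalso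
        rw [h] at h1
        have h3 : ‖(gD p' - (δ' : ℂ)) - (gD p' - δ)‖ ≤ ‖gD p' - (δ' : ℂ)‖ + ‖gD p' - δ‖ :=
          norm_sub_le _ _
        have h4 : (gD p' - (δ' : ℂ)) - (gD p' - δ) = ((δ - δ' : ℝ) : ℂ) := by push_cast; ring
        rw [h4, Complex.norm_real, Real.norm_eq_abs] at h3
        have h5 : |δ - δ'| = 2 := by
          rcases hδ with rfl | rfl <;> rcases hδ' with rfl | rfl
          · exact absurd rfl hdd
          · norm_num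
          · norm_num
          · exact absurd rfl hdd
        linarith
    · exfalso
      have h1 := GdM_i hδ hp
      have h2 := GdM_o hp' hδ
      rw [h] at h1
      linarith
  · rcases RSG.GgA_cases p' with ⟨δ', hδ', hp'⟩ | hp'
    · exfalso
      have h1 := GdM_i hδ' hp'
      have h2 := GdM_o hp hδ'
      rw [h] at h2
      linarith
    · rw [GdM_out hp, GdM_out hp'] at h
      linear_combination 4 * h

theorem GdM_at : gD 4 = 1 ∧ gD (-4) = -1 := by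
  constructor
  · rw [GdM_in (δ := 1) (Or.inl rfl) (by simp)]
    unfold ggi
    simp
  · rw [GdM_in (δ := -1) (Or.inr rfl) (by simp)]
    unfold ggi
    simp

theorem gD_ne {p : ℂ} (h1 : p ≠ 4) (h2 : p ≠ -4) : gD p ≠ 1 ∧ gD p ≠ -1 := by
  constructor
  · intro h
    exact h1 (gD_inj (h.trans GdM_at.1.symm))
  · intro h
    exact h2 (gD_inj (h.trans GdM_at.2.symm))

theorem gD_norm {p : ℂ} (h : ‖p‖ < 9) : ‖gD p‖ < 9 / 4 := by
  rcases RSG.GgA_cases p with ⟨δ, hδ, hp⟩ | hp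
  · have h1 := GdM_i hδ hp
    have h2 : ‖gD p‖ - ‖(δ : ℂ)‖ ≤ ‖gD p - δ‖ := norm_sub_norm_le _ _
    rw [RSG.GgA_abs hδ] at h2
    linarith
  · rw [GdM_out hp, norm_div]
    have h2 : ‖(4 : ℂ)‖ = 4 := by simp
    rw [h2]
    linarith

theorem gD_far {p : ℂ} (h : 5 ≤ ‖p‖) : gD p = p / 4 := by
  apply GdM_out
  intro δ hδ
  have h1 : ‖p‖ - ‖4 * (δ : ℂ)‖ ≤ ‖p - 4 * δ‖ := norm_sub_norm_le _ _
  have h2 : ‖4 * (δ : ℂ)‖ = 4 := by
    rw [norm_mul, RSG.GgA_abs hδ]; simp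
  rw [h2] at h1
  linarith

theorem BBs_zero (p : ℂ) : BBs (p, 0) = (p / 4, 0, 0) := by
  unfold BBs mix outB strB
  refine Prod.ext ?_ (by ext <;> simp)
  simp
  ring

theorem BBs_far {p ν : ℂ} (h : 9 ≤ ‖p‖) : BBs (p, ν) = (p / 4, ν.re, ν.im) := by
  have h1 : stp 64 81 (‖p‖ ^ 2) = 1 := Pool.Agent.CSG.stp_one (by norm_num) (by nlinarith)
  unfold BBs mix outB strB
  simp only [h1]
  simp

theorem GdM_str_smooth (q : ℂ × ℂ) : ContDiffAt ℝ ∞ strB q := by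
  have a1 : ContDiffAt ℝ ∞ (fun q : ℂ × ℂ => q.1 / 4) q := contDiffAt_fst.div_const _
  have a2 : ContDiffAt ℝ ∞ (fun q : ℂ × ℂ => q.2.re) q :=
    Complex.reCLM.contDiff.contDiffAt.comp q contDiffAt_snd
  have a3 : ContDiffAt ℝ ∞ (fun q : ℂ × ℂ => q.2.im) q :=
    Complex.imCLM.contDiff.contDiffAt.comp q contDiffAt_snd
  exact a1.prodMk (a2.prodMk a3)

theorem GdM_smooth {q : ℂ × ℂ} (h1 : q.1 ≠ 4) (h2 : q.1 ≠ -4) : ContDiffAt ℝ ∞ BBs q := by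
  have hc := RSG.BBf_chi_smooth q
  exact ((contDiffAt_const.sub hc).smul (RSG.BBf_out_smooth h1 h2)).add
    (hc.smul (GdM_str_smooth q))

theorem GdM_deriv (p c : ℂ) : HasDerivAt (fun r : ℝ => (BBs (p, (r : ℂ) * c)).2)
    ((1 - stp 64 81 (‖p‖ ^ 2)) * (c * HH p).re + stp 64 81 (‖p‖ ^ 2) * c.re,
     (1 - stp 64 81 (‖p‖ ^ 2)) * (c * HH p).im + stp 64 81 (‖p‖ ^ 2) * c.im) 0 := by
  have e : (fun r : ℝ => (BBs (p, (r : ℂ) * c)).2) = fun r : ℝ =>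
      ((1 - stp 64 81 (‖p‖ ^ 2)) * (r * (c * HH p).re) + stp 64 81 (‖p‖ ^ 2) * (r * c.re),
       (1 - stp 64 81 (‖p‖ ^ 2)) * (r * (c * HH p).im) + stp 64 81 (‖p‖ ^ 2) * (r * c.im)) := by
    funext r
    unfold BBs mix outB strB
    simp only [smul_eq_mul, Prod.mk_add_mk, Prod.smul_mk, mul_assoc]
    rw [Complex.re_ofReal_mul, Complex.im_ofReal_mul, Complex.re_ofReal_mul, Complex.im_ofReal_mul]
  rw [e]
  have hid : HasDerivAt (fun r : ℝ => r) 1 0 := hasDerivAt_id 0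
  have b1 (k : ℝ) : HasDerivAt (fun r : ℝ => r * k) k 0 := by simpa using hid.mul_const k
  exact (((b1 _).const_mul _).add ((b1 _).const_mul _)).prodMk
    (((b1 _).const_mul _).add ((b1 _).const_mul _))

theorem GdM_quarter (p v : ℂ) (hv : fderiv ℝ (fun p : ℂ => p / 4) p v = 0) : v = 0 := by
  have h1 : HasFDerivAt (fun p : ℂ => (1 / 4 : ℝ) • p) ((1 / 4 : ℝ) • ContinuousLinearMap.id ℝ ℂ) p :=
    (hasFDerivAt_id p).const_smul (1 / 4 : ℝ)
  have e : (fun p : ℂ => p / 4) = fun p : ℂ => (1 / 4 : ℝ) • p := by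
    funext p
    rw [Complex.real_smul]
    push_cast
    ring
  rw [e, h1.fderiv] at hv
  have h2 : (1 / 4 : ℝ) • v = 0 := hv
  rcases smul_eq_zero.1 h2 with h3 | h3
  · norm_num at h3
  · exact h3

theorem BBs_ld {p : ℂ} (h1 : p ≠ 4) (h2 : p ≠ -4) :
    IsLocalDiffeomorphAt 𝓘(ℝ, ℂ × ℂ) 𝓘(ℝ, ℂ × ℝ × ℝ) ∞ BBs (p, 0) := by
  apply RSG.ld_block (g := fun p : ℂ => p / 4)
  · have e1 : ∀ᶠ q : ℂ × ℂ in 𝓝 (p, (0:ℂ)), q.1 ≠ 4 :=
      continuous_fst.continuousAt.eventually_ne h1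
    have e2 : ∀ᶠ q : ℂ × ℂ in 𝓝 (p, (0:ℂ)), q.1 ≠ -4 :=
      continuous_fst.continuousAt.eventually_ne h2
    filter_upwards [e1, e2] with q hq1 hq2 using GdM_smooth hq1 hq2
  · exact Eventually.of_forall BBs_zero
  · intro v hv
    exact GdM_quarter p v hv
  · intro c hc
    have hd := (GdM_deriv p c).unique hc
    have d1 := congrArg Prod.fst hd
    have d2 := congrArg Prod.snd hd
    simp only [Prod.fst_zero, Prod.snd_zero] at d1 d2
    by_cases h : ‖p‖ < 8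
    · rw [Pool.Agent.CSG.stp_zero (by norm_num) (by nlinarith [norm_nonneg p])] at d1 d2
      have : c * HH p = 0 := by
        apply Complex.ext
        · simpa using d1
        · simpa using d2
      rcases mul_eq_zero.1 this with h0 | h0
      · exact h0
      · exact absurd h0 (RSG.HH_ne h1 h2)
    · push Not at h
      have ha := RSG.HH_re (p := p) (by linarith)
      set χ := stp 64 81 (‖p‖ ^ 2) with hχ
      have x0 : 0 ≤ χ := Pool.Agent.CSG.stp_nonneg _ _ _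
      have x1 : χ ≤ 1 := Pool.Agent.CSG.stp_le_one _ _ _
      rw [Complex.mul_re] at d1
      rw [Complex.mul_im] at d2
      have s : ((1 - χ) * (HH p).re + χ) * (c.re ^ 2 + c.im ^ 2) = 0 := by
        linear_combination c.re * d1 + c.im * d2
      have t : 0 < (1 - χ) * (HH p).re + χ := by
        rcases eq_or_lt_of_le x0 with hx | hx
        · rw [← hx]; linarith
        · have : 0 ≤ (1 - χ) * (HH p).re := mul_nonneg (by linarith) ha.le
          linarith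
      have u : c.re ^ 2 + c.im ^ 2 = 0 := by
        rcases mul_eq_zero.1 s with h' | h'
        · exact absurd h' t.ne'
        · exact h'
      apply Complex.ext
      · simp only [Complex.zero_re]; nlinarith
      · simp only [Complex.zero_im]; nlinarith

theorem BD_zero {ε₁ ε₂ : ℝ} (h3 : ε₁ = 1 ∨ ε₁ = -1) (h4 : ε₂ = 1 ∨ ε₂ = -1) (n j : ℤ) {p : ℂ}
    (h1 : p ≠ 4) (h2 : p ≠ -4) : BD ε₁ ε₂ n j (p, 0) = (gD p, 0, 0) := by
  unfold BD gD
  simp only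
  have hp1 : 0 < ‖p - 4‖ := norm_pos_iff.2 (sub_ne_zero.2 h1)
  have hp2 : 0 < ‖p + 4‖ := by
    rw [norm_pos_iff]
    intro h
    exact h2 (by linear_combination h)
  split_ifs with h5 h6
  · refine RSG.BBi_zero (Or.inl rfl) h3 n j ?_ ?_
    · rw [RSG.GgM_one]; exact hp1
    · rw [RSG.GgM_one]; nlinarith
  · refine RSG.BBi_zero (Or.inr rfl) h4 n j ?_ ?_
    · rw [RSG.GgM_neg]; exact hp2
    · rw [RSG.GgM_neg]; nlinarith
  · exact BBs_zero p

/-- near the boundary of the disc both charts are `outB` -/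
theorem GdM_bdry {n j : ℤ} {δ ε : ℝ} (hδ : δ = 1 ∨ δ = -1) {p ν : ℂ} (h1 : 1 / 2 < ‖p - 4 * δ‖)
    (h2 : ‖p - 4 * δ‖ < 2) : BBi δ ε n j (p, ν) = BBs (p, ν) := by
  unfold BBi BBs mix
  simp only
  have hs1 : stp (1 / 16) (1 / 4) (‖p - 4 * (δ : ℂ)‖ ^ 2) = 1 :=
    Pool.Agent.CSG.stp_one (by norm_num) (by nlinarith)
  have hp : ‖p‖ < 6 := by
    have e : p = (p - 4 * (δ : ℂ)) + 4 * (δ : ℂ) := by ring
    have h3 : ‖p‖ ≤ ‖p - 4 * (δ : ℂ)‖ + ‖4 * (δ : ℂ)‖ := by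
      conv_lhs => rw [e]
      exact norm_add_le _ _
    have h4 : ‖4 * (δ : ℂ)‖ = 4 := by
      rcases hδ with rfl | rfl <;> simp
    linarith
  have hs2 : stp 64 81 (‖p‖ ^ 2) = 0 :=
    Pool.Agent.CSG.stp_zero (by norm_num) (by nlinarith [norm_nonneg p])
  rw [hs1, hs2]
  simp

theorem BD_ld {ε₁ ε₂ : ℝ} (h3 : ε₁ = 1 ∨ ε₁ = -1) (h4 : ε₂ = 1 ∨ ε₂ = -1) (n j : ℤ) {p : ℂ}
    (h1 : p ≠ 4) (h2 : p ≠ -4) :
    IsLocalDiffeomorphAt 𝓘(ℝ, ℂ × ℂ) 𝓘(ℝ, ℂ × ℝ × ℝ) ∞ (BD ε₁ ε₂ n j) (p, 0) := by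
  have hp1 : 0 < ‖p - 4‖ := norm_pos_iff.2 (sub_ne_zero.2 h1)
  have hp2 : 0 < ‖p + 4‖ := by
    rw [norm_pos_iff]
    intro h
    exact h2 (by linear_combination h)
  have hc1 : ContinuousAt (fun q : ℂ × ℂ => ‖q.1 - 4‖) (p, 0) :=
    ((continuous_fst.sub continuous_const).norm).continuousAt
  have hc2 : ContinuousAt (fun q : ℂ × ℂ => ‖q.1 + 4‖) (p, 0) :=
    ((continuous_fst.add continuous_const).norm).continuousAt
  by_cases h5 : ‖p - 4‖ < 1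
  · refine Pool.Agent.CSG.ld_congr (RSG.BBi_ld (δ := 1) (ε := ε₁) (Or.inl rfl) h3 n j ?_ ?_) ?_
    · rw [RSG.GgM_one]; exact hp1
    · rw [RSG.GgM_one]; exact h5.le
    · filter_upwards [hc1.eventually (gt_mem_nhds h5)] with q hq
      unfold BD
      rw [if_pos hq]
  by_cases h6 : ‖p + 4‖ < 1
  · refine Pool.Agent.CSG.ld_congr (RSG.BBi_ld (δ := -1) (ε := ε₂) (Or.inr rfl) h4 n j ?_ ?_) ?_
    · rw [RSG.GgM_neg]; exact hp2
    · rw [RSG.GgM_neg]; exact h6.le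
    · filter_upwards [hc2.eventually (gt_mem_nhds h6)] with q hq
      unfold BD
      rw [if_neg (RSG.GgM_far (by linarith)), if_pos hq]
  · refine Pool.Agent.CSG.ld_congr (BBs_ld h1 h2) ?_
    filter_upwards [hc1.eventually (lt_mem_nhds (by linarith [not_lt.1 h5] : 1 / 2 < ‖p - 4‖)),
      hc2.eventually (lt_mem_nhds (by linarith [not_lt.1 h6] : 1 / 2 < ‖p + 4‖))] with q hq1 hq2
    obtain ⟨p', ν⟩ := q
    simp only at hq1 hq2
    unfold BD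
    simp only
    split_ifs with h7 h8
    · refine GdM_bdry (Or.inl rfl) ?_ ?_
      · rw [RSG.GgM_one]; exact hq1
      · rw [RSG.GgM_one]; linarith
    · refine GdM_bdry (Or.inr rfl) ?_ ?_
      · rw [RSG.GgM_neg]; exact hq2
      · rw [RSG.GgM_neg]; linarith
    · rfl

end Pool.Agent.RBM
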