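import Pool.Agent.RBM.TorP
import Pool.Agent.RSG.GlV

/-!
# RBM/VgP: the charts at the vertices   (difficulty 2)

Copy the proof of `RSG.vertex_glue` (RSG/GlV.lean); the only changes are that `D.A` is applied to a point of `P`, that
the strand is `b (δ + cj ε v / 2, 16 ε l, t)`, and that the phases in `TwinP.glue` are written `m + (1 - j) t`, `m - j t`.
-/

open scoped Manifold ContDiff Topology
open Set Filter
open Complex (I)
open Pool.Agent.RSG (E4 S4 ex cj c1 c2 ht fh Vx SV lV Fi)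

namespace Pool.Agent.RBM

variable {E : Type*} [NormedAddCommGroup E] [NormedSpace ℝ E] {H : Type*} [TopologicalSpace H]
  {J : ModelWithCorners ℝ E H}
  {P : Type*} [TopologicalSpace P] [ChartedSpace H P] {κ : ℝ × ℂ × ℝ → P} {b : ℂ × ℝ × ℝ → P}
  {X : Type*} [TopologicalSpace X] [ChartedSpace E4 X] {n j : ℤ}

theorem VgP_arg {p : ℂ} : ∃ x : ℝ, p = (‖p‖ : ℂ) * ex x :=
  ⟨Complex.arg p / (2 * Real.pi), RSG.ex_arg.symm⟩

theorem VgP_log {p : ℂ} : p = (‖p‖ : ℂ) * ex ((Complex.log p).im / (2 * Real.pi)) := by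
  rw [Complex.log_im]
  exact RSG.ex_arg.symm

theorem vertex_glueP (D : TwinP J κ n j X) {δ ε : ℝ} (hδ : δ = 1 ∨ δ = -1)
    (hs : ∀ (l : ℝ) (v : ℂ) (t : ℝ), |l| < 1 / 16 → ‖v‖ < 1 →
      κ (1 / 2 - δ / 4 + l, v, t) = b (δ + cj ε v / 2, 16 * ε * l, t))
    {q : ℂ × ℂ} (h : SV q < 1) (h1 : q.1 + q.2 / 2 ≠ 0)
    (h2 : q.1 - q.2 / 2 ≠ 0) (hl : |lV δ n q| < 1 / 16) :
    D.Q (Vx δ q) = D.A (b (Fi δ ε n j q)) := by
  obtain ⟨v1, v2, v3⟩ := RSG.Vx_c hδ h.le
  have vf := RSG.Vx_fh hδ h.le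
  have vn := RSG.Vx_ne hδ h
  set z := Vx δ q with hz
  set A : ℂ := q.1 + q.2 / 2 with hA
  set B : ℂ := q.1 - q.2 / 2 with hB
  set t := RSG.tV q with ht
  have hδ2 : δ * δ = 1 := by rcases hδ with h | h <;> rw [h] <;> norm_num
  have pA : 0 < ‖A‖ := norm_pos_iff.2 h1
  have pB : 0 < ‖B‖ := norm_pos_iff.2 h2
  -- the angle of B
  obtain ⟨β, hβ⟩ := VgP_arg (p := B)
  set m := β + j * t with hm
  have eB : B = (‖B‖ : ℂ) * ex (m - j * t) := by
    rw [hm, show β + j * t - j * t = β by ring]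
    exact hβ
  -- the angle of A
  have eAB : A / B = (‖A / B‖ : ℂ) * ex t := VgP_log
  have eA : A = (‖A‖ : ℂ) * ex (m + (1 - j) * t) := by
    have h3 : A = A / B * B := (div_mul_cancel₀ _ h2).symm
    have h4 : ‖A / B‖ * ‖B‖ = ‖A‖ := by
      rw [norm_div, div_mul_cancel₀ _ pB.ne']
    calc A = A / B * B := h3
      _ = ((‖A / B‖ : ℂ) * ex t) * ((‖B‖ : ℂ) * ex (m - j * t)) := by rw [← eAB, ← eB]
      _ = ((‖A / B‖ * ‖B‖ : ℝ) : ℂ) * (ex t * ex (m - j * t)) := by push_cast; ring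
      _ = (‖A‖ : ℂ) * ex (m + (1 - j) * t) := by
        rw [h4, ← RSG.ex_add, show t + (m - j * t) = m + (1 - j) * t by ring]
  -- the angle of fh
  set g : ℂ := (Real.sqrt (1 - SV q ^ 2) : ℝ) - (δ * RSG.uV q : ℝ) * I with hg
  have hfg : fh z = δ * I * g := by
    rw [vf, hg]
    apply Complex.ext
    · simp
      rw [← mul_assoc, hδ2, one_mul]
    · simp
  have hng : ‖fh z‖ = ‖g‖ := by
    rw [hfg, norm_mul, norm_mul, Complex.norm_I, Complex.norm_real, mul_one]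
    rcases hδ with h | h <;> rw [h] <;> norm_num
  have eg : g = (‖g‖ : ℂ) * ex (lV δ n q - n * t) := by
    have h3 : lV δ n q - n * t = (Complex.log g).im / (2 * Real.pi) := by
      unfold lV
      rw [← hg, ← ht]
      ring
    rw [h3]
    exact VgP_log
  have hδI : (δ : ℂ) * I = ex (1 / 2 - δ / 4) := by
    rcases hδ with h | h
    · rw [h, show (1 : ℝ) / 2 - 1 / 4 = 1 / 4 by norm_num, RSG.ex_quarter]
      simp
    · rw [h, show (1 : ℝ) / 2 - -1 / 4 = 1 / 2 + 1 / 4 by norm_num, RSG.ex_add, RSG.ex_quarter,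
        RSG.ex_half]
      simp
  set l := 1 / 2 - δ / 4 + lV δ n q with hl'
  have ef : fh z = (‖fh z‖ : ℂ) * ex (l - n * t) := by
    rw [hng]
    calc fh z = δ * I * g := hfg
      _ = ex (1 / 2 - δ / 4) * ((‖g‖ : ℂ) * ex (lV δ n q - n * t)) := by rw [← hδI, ← eg]
      _ = (‖g‖ : ℂ) * (ex (1 / 2 - δ / 4) * ex (lV δ n q - n * t)) := by ring
      _ = (‖g‖ : ℂ) * ex (l - n * t) := by
        rw [← RSG.ex_add, show 1 / 2 - δ / 4 + (lV δ n q - n * t) = l - n * t by rw [hl']; ring]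
  have hglue := D.glue z l m t vn (by rw [v1]; exact h1) (by rw [v2]; exact h2)
    (by rw [v1]; exact eA) (by rw [v2]; exact eB) ef
  -- the point of the knot
  have hv : ((2 * ‖c1 z‖ * ‖c2 z‖ : ℝ) : ℂ) * ex m = RSG.vV j q := by
    rw [v1, v2]
    unfold RSG.vV
    rw [← hA, ← hB, ← ht]
    have h3 : B = (‖B‖ : ℂ) * ex (m - j * t) := eB
    calc ((2 * ‖A‖ * ‖B‖ : ℝ) : ℂ) * ex m
        = ((2 * ‖A‖ : ℝ) : ℂ) * ((‖B‖ : ℂ) * ex (m - j * t)) * ex (j * t) := by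
          have h4 : ex m = ex (m - j * t) * ex (j * t) := by
            rw [← RSG.ex_add]
            congr 1
            ring
          rw [h4]
          push_cast
          ring
      _ = _ := by rw [← h3]
  have hvn : ‖RSG.vV j q‖ < 1 := by
    rw [← hv]
    exact RSG.glue_norm vn m
  rw [hglue, hv]
  unfold Fi
  rw [← ht, hl', hs (lV δ n q) (RSG.vV j q) t hl hvn]

end Pool.Agent.RBM
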