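import Pool.Agent.RBM.VgP
import Pool.Agent.RBM.GdM
import Pool.Agent.RSG.XWm
import Pool.Agent.RSG.FiM

/-!
# RBM/DCa: the chart of the disc, part 1   (difficulty 3)

Model: `RSG/EEa.lean` (`EE_near`, `EE_zero`, `EE_vertex`, `EE_vertex_ne`), the same proofs.
* `Ab_ld`: `b (z, s, t)` is not on the torus (`box_torus`), composition of `h.box.loc` and `D.A_loc`.  `Ab_inj`: `D.A_inj`, `h.box.inj`.
* `DC_near`: `p ≠ ±4`: near `(p, 0)`, `DC = D.A ∘ b ∘ BD`: if `|p' - 4δ| < 1/4` then `DC q = D.Q (Vx δ (XW δ ε q)) = D.A (b (Fi δ ε n j (XW δ ε q)))`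
  (`vertex_glueP`, `strand_eq`, hypotheses by `Fi_ev`), and `BD q = BBi δ ε n j q = Fi .. (XW ..)` there (`stp (1/16) (1/4) = 0`).
* `DC_zero`, `DC_vertex`, `DC_vertex_ne` as in EEa.
-/

open scoped Manifold ContDiff Topology
open Set Filter
open Complex (I)
open Pool.Agent.RSG (E4 S4 ex cj c1 c2 ht fh Vx XW BBi mix)

namespace Pool.Agent.RBM

variable {E : Type*} [NormedAddCommGroup E] [NormedSpace ℝ E] {H : Type*} [TopologicalSpace H]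
  {J : ModelWithCorners ℝ E H}
  {P : Type*} [TopologicalSpace P] [ChartedSpace H P] {κ : ℝ × ℂ × ℝ → P} {b : ℂ × ℝ × ℝ → P}
  {X : Type*} [TopologicalSpace X] [ChartedSpace E4 X] {n j : ℤ} {ε₁ ε₂ : ℝ}

theorem DCa_not (h : Bundle J κ b ε₁ ε₂) {z : ℂ} {s t : ℝ}
    (hz : ‖z‖ < 4) (hs : |s| < 1) (h1 : z ≠ 1) (h2 : z ≠ -1) : ¬ OnT κ (b (z, s, t)) := by
  intro hk
  rcases (box_torus h hz hs).1 hk with h3 | h3
  · exact h1 h3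
  · exact h2 h3

theorem Ab_ld (D : TwinP J κ n j X) (h : Bundle J κ b ε₁ ε₂) {z : ℂ} {s t : ℝ}
    (hz : ‖z‖ < 4) (hs : |s| < 1) (h1 : z ≠ 1) (h2 : z ≠ -1) :
    IsLocalDiffeomorphAt 𝓘(ℝ, ℂ × ℝ × ℝ) (𝓡 4) ∞ (fun a => D.A (b a)) (z, s, t) := by
  have h3 := h.box.loc z s t hz hs
  have h4 := D.A_loc (b (z, s, t)) (DCa_not h hz hs h1 h2)
  exact IsLocalDiffeomorphAt.comp (hf := h3) (hg := h4) ..

theorem Ab_inj (D : TwinP J κ n j X) (h : Bundle J κ b ε₁ ε₂) {z z' : ℂ} {s s' t t' : ℝ}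
    (hz : ‖z‖ < 4) (hs : |s| < 1) (h1 : z ≠ 1) (h2 : z ≠ -1)
    (hz' : ‖z'‖ < 4) (hs' : |s'| < 1) (h1' : z' ≠ 1) (h2' : z' ≠ -1)
    (he : D.A (b (z, s, t)) = D.A (b (z', s', t'))) : z = z' ∧ s = s' ∧ ∃ m : ℤ, t' = t + m :=
  h.box.inj z s t z' s' t' hz hs hz' hs'
    (D.A_inj _ _ (DCa_not h hz hs h1 h2) (DCa_not h hz' hs' h1' h2') he)

/-- near a strand, the vertex chart is the chart `BBi` in ball coordinates -/
theorem DCa_key (D : TwinP J κ n j X) {δ ε : ℝ} (hδ : δ = 1 ∨ δ = -1) (hε : ε = 1 ∨ ε = -1)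
    (hs : ∀ (l : ℝ) (v : ℂ) (t : ℝ), |l| < 1 / 16 → ‖v‖ < 1 →
      κ (1 / 2 - δ / 4 + l, v, t) = b (δ + cj ε v / 2, 16 * ε * l, t))
    {p : ℂ} (hp0 : p ≠ 4 * (δ : ℂ)) (hp : ‖p - 4 * (δ : ℂ)‖ < 1) :
    ∀ᶠ q in 𝓝 (p, (0 : ℂ)), ‖q.1 - 4 * (δ : ℂ)‖ < 1 / 4 →
      D.Q (Vx δ (XW δ ε q)) = D.A (b (BBi δ ε n j q)) := by
  have hcn : ‖cj ε (p - 4 * δ)‖ = ‖p - 4 * δ‖ := Pool.Agent.RSG.cj_norm hε _
  have hpp : p - 4 * δ ≠ 0 := sub_ne_zero.2 hp0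
  have hx0 : cj ε (p - 4 * δ) / 2 ≠ 0 := by
    refine div_ne_zero ?_ two_ne_zero
    rw [← norm_ne_zero_iff, hcn]
    exact norm_ne_zero_iff.2 hpp
  have hx1 : 2 * ‖cj ε (p - 4 * δ) / 2‖ ^ 2 < 1 := by
    rw [norm_div, hcn, Complex.norm_two]
    nlinarith [norm_nonneg (p - 4 * δ)]
  have h8 : p + 4 * δ ≠ 0 := by
    intro h0
    have e : p - 4 * δ = -(8 * δ) := by
      rw [eq_neg_of_add_eq_zero_left h0]; ring
    rw [e, norm_neg, norm_mul, Complex.norm_real, Real.norm_eq_abs] at hp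
    have : |δ| = 1 := by rcases hδ with h | h <;> simp [h]
    rw [this] at hp
    norm_num at hp
  have hc : Tendsto (XW δ ε) (𝓝 (p, (0 : ℂ))) (𝓝 (cj ε (p - 4 * δ) / 2, 0)) := by
    rw [← Pool.Agent.RSG.XW_zero]
    exact Pool.Agent.CSG.ld_continuousAt (Pool.Agent.RSG.XW_ld hδ hε h8)
  filter_upwards [hc.eventually (Pool.Agent.RSG.Fi_ev (δ := δ) (n := n) hx0 hx1)] with q hq hq4
  obtain ⟨a1, a2, a3, a4⟩ := hq
  rw [vertex_glueP D hδ hs a1 a2 a3 a4]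
  have hst : Pool.Agent.CSG.stp (1 / 16) (1 / 4) (‖q.1 - 4 * δ‖ ^ 2) = 0 := by
    apply Pool.Agent.CSG.stp_zero (by norm_num)
    nlinarith [norm_nonneg (q.1 - 4 * δ)]
  simp only [BBi, hst, mix, sub_zero, one_smul, zero_smul, add_zero]

theorem DC_near (D : TwinP J κ n j X) (h : Bundle J κ b ε₁ ε₂) {p : ℂ} (h3 : p ≠ 4) (h4 : p ≠ -4) :
    ∀ᶠ q in 𝓝 (p, (0 : ℂ)), DC D b ε₁ ε₂ q = D.A (b (BD ε₁ ε₂ n j q)) := by
  have c1 : Continuous fun q : ℂ × ℂ => ‖q.1 - 4‖ := by fun_prop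
  have c2 : Continuous fun q : ℂ × ℂ => ‖q.1 + 4‖ := by fun_prop
  have t1 := c1.tendsto (p, (0 : ℂ))
  have t2 := c2.tendsto (p, (0 : ℂ))
  simp only at t1 t2
  have h8 : ∀ q : ℂ, 8 ≤ ‖q - 4‖ + ‖q + 4‖ := by
    intro q
    have := norm_sub_le (q + 4) (q - 4)
    have e : q + 4 - (q - 4) = 8 := by ring
    rw [e] at this
    have e8 : ‖(8 : ℂ)‖ = 8 := by simp
    linarith
  by_cases hp1 : ‖p - 4‖ < 1
  · obtain ⟨ε, hε, e1, -, hs⟩ := strand_eq h (δ := 1) (Or.inl rfl)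
    have hε1 := e1 rfl
    subst hε1
    have hk := DCa_key (b := b) (n := n) (j := j) D (δ := 1) (Or.inl rfl) hε hs (p := p)
      (by simpa using h3) (by simpa using hp1)
    filter_upwards [t1.eventually (gt_mem_nhds hp1), hk] with q hq1 hq2
    by_cases hq : ‖q.1 - 4‖ < 1 / 4
    · rw [DC, if_pos hq, hq2 (by simpa using hq), BD, if_pos hq1]
    · have : ¬ ‖q.1 + 4‖ < 1 / 4 := by linarith [h8 q.1]
      rw [DC, if_neg hq, if_neg this]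
  · by_cases hp2 : ‖p + 4‖ < 1
    · obtain ⟨ε, hε, -, e1, hs⟩ := strand_eq h (δ := -1) (Or.inr rfl)
      have hε1 := e1 rfl
      subst hε1
      have hk := DCa_key (b := b) (n := n) (j := j) D (δ := -1) (Or.inr rfl) hε hs (p := p)
        (by simpa using h4) (by simpa using hp2)
      filter_upwards [t2.eventually (gt_mem_nhds hp2), hk] with q hq1 hq2
      have g1 : ¬ ‖q.1 - 4‖ < 1 := by linarith [h8 q.1]
      have g2 : ¬ ‖q.1 - 4‖ < 1 / 4 := by linarith [h8 q.1]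
      by_cases hq : ‖q.1 + 4‖ < 1 / 4
      · rw [DC, if_neg g2, if_pos hq, hq2 (by simpa using hq), BD, if_neg g1, if_pos hq1]
      · rw [DC, if_neg g2, if_neg hq]
    · filter_upwards [t1.eventually (lt_mem_nhds (show 1 / 4 < ‖p - 4‖ by linarith)),
        t2.eventually (lt_mem_nhds (show 1 / 4 < ‖p + 4‖ by linarith))] with q hq1 hq2
      rw [DC, if_neg (not_lt.2 hq1.le), if_neg (not_lt.2 hq2.le)]

theorem DC_zero (D : TwinP J κ n j X) (h : Bundle J κ b ε₁ ε₂) {p : ℂ} (h3 : p ≠ 4) (h4 : p ≠ -4) :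
    DC D b ε₁ ε₂ (p, 0) = D.A (b (gD p, 0, 0)) := by
  rw [(DC_near D h h3 h4).self_of_nhds, BD_zero h.sign₁ h.sign₂ n j h3 h4]

theorem DC_vertex (D : TwinP J κ n j X) (b : ℂ × ℝ × ℝ → P) (ε₁ ε₂ : ℝ) :
    DC D b ε₁ ε₂ (4, 0) = D.Q (Vx 1 (0, 0)) ∧ DC D b ε₁ ε₂ (-4, 0) = D.Q (Vx (-1) (0, 0)) := by
  constructor
  · have e : XW 1 ε₁ ((4 : ℂ), 0) = (0, 0) := by
      rw [Pool.Agent.RSG.XW_zero]
      simp [Pool.Agent.RSG.cj_zero]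
    rw [DC, if_pos (by norm_num), e]
  · have e : XW (-1) ε₂ ((-4 : ℂ), 0) = (0, 0) := by
      rw [Pool.Agent.RSG.XW_zero]
      simp [Pool.Agent.RSG.cj_zero]
    have e8 : ¬ ‖(-4 : ℂ) - 4‖ < 1 / 4 := by
      have : (-4 : ℂ) - 4 = -8 := by norm_num
      rw [this, norm_neg]
      norm_num
    rw [DC, if_neg e8, if_pos (by norm_num), e]

theorem DC_vertex_c {δ : ℝ} (hδ : δ = 1 ∨ δ = -1) :
    fh (Vx δ (0, 0)) ≠ 0 ∧ c1 (Vx δ (0, 0)) = 0 := by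
  have h0 : Pool.Agent.RSG.SV ((0 : ℂ), (0 : ℂ)) = 0 := by simp [Pool.Agent.RSG.SV]
  refine ⟨Pool.Agent.RSG.Vx_ne hδ (by rw [h0]; norm_num), ?_⟩
  rw [(Pool.Agent.RSG.Vx_c hδ (by rw [h0]; norm_num)).1]
  simp

theorem DC_vertex_ne (D : TwinP J κ n j X) {δ : ℝ} (hδ : δ = 1 ∨ δ = -1) {p : P}
    (hp : ¬ OnT κ p) : D.Q (Vx δ (0, 0)) ≠ D.A p :=
  D.disj (Vx δ (0, 0)) p (DC_vertex_c hδ).1 (Or.inl (DC_vertex_c hδ).2) hp

end Pool.Agent.RBM
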