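import Pool.Agent.RBM.DCa

/-!
# RBM/DCb: the chart of the disc, part 2   (difficulty 3)

* `DC_loc`: as `EE_loc` in RSG/EEb: if `|p - 4δ| < 1/4`, `DC = D.Q ∘ Vx δ ∘ XW δ ε` near `(p, 0)` (`XW_ld`, `Vx_ld`, `D.Q_loc`); otherwise
  `DC_near`, `BD_ld`, `Ab_ld` at `BD (p, 0) = (gD p, 0, 0)`, `|gD p| < 4` for `|p| < 16` (`gD_norm`, `gD_far`), `gD_ne`.
* `DC_inj0`: `p, p' ≠ ±4`: `DC_zero`, `Ab_inj`, `gD_inj`; vertices: `DC_vertex`, `DC_vertex_ne`, `D.Q_inj` + `Vx_inj`: as `EE_inj0`.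
* `DC_far`: `|p| ≥ 9`: by definition (`|p ∓ 4| ≥ 5`, `BBs_far`).
* `DC_inn`: `|p| ≤ 9`.  If `|p - 4δ| < 1/4`: near `(p, 0)` the value is `D.Q (Vx δ ..)`, `fh ≠ 0` (`Vx_ne`, `SV < 1` near the point,
  `SV_XW_zero`).  Otherwise `p ≠ ±4`, `DC_near`, `BD` is continuous at `(p, 0)` (`BD_ld`) with value `(gD p, 0, 0)`, `|gD p| ≤ 9/4 < 5/2`
  (`gD_norm`; if `|p| = 9`: `gD_far`), `gD p ≠ ±1`: near the point `|z| < 5/2`, `|s| < 1`, `z ≠ ±1`, so not on the torus (`box_torus`).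
-/

open scoped Manifold ContDiff Topology
open Set Filter
open Complex (I)
open Pool.Agent.RSG (E4 S4 ex cj c1 c2 ht fh Vx XW SV)

namespace Pool.Agent.RBM

variable {E : Type*} [NormedAddCommGroup E] [NormedSpace ℝ E] {H : Type*} [TopologicalSpace H]
  {J : ModelWithCorners ℝ E H}
  {P : Type*} [TopologicalSpace P] [ChartedSpace H P] {κ : ℝ × ℂ × ℝ → P} {b : ℂ × ℝ × ℝ → P}
  {X : Type*} [TopologicalSpace X] [ChartedSpace E4 X] {n j : ℤ} {ε₁ ε₂ : ℝ}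

theorem DCb_one (p : ℂ) : p - 4 * ((1 : ℝ) : ℂ) = p - 4 := by push_cast; ring

theorem DCb_neg (p : ℂ) : p - 4 * ((-1 : ℝ) : ℂ) = p + 4 := by push_cast; ring

theorem DCb_far {p : ℂ} (h : ‖p + 4‖ < 7) : ¬ ‖p - 4‖ < 1 := by
  intro h1
  have h2 : ‖(p + 4) - (p - 4)‖ ≤ ‖p + 4‖ + ‖p - 4‖ := norm_sub_le _ _
  have h3 : (p + 4) - (p - 4) = (8 : ℂ) := by ring
  rw [h3] at h2
  have h4 : ‖(8 : ℂ)‖ = 8 := by simp
  linarith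

theorem DCb_SV0 : SV ((0 : ℂ), (0 : ℂ)) < 1 := by simp [SV]

theorem DCb_sv {δ ε : ℝ} (hε : ε = 1 ∨ ε = -1) {p : ℂ} (h1 : ‖p - 4 * δ‖ < 1 / 4) :
    SV (XW δ ε (p, 0)) < 1 := by
  rw [Pool.Agent.RSG.SV_XW_zero hε]
  nlinarith [norm_nonneg (p - 4 * (δ : ℂ))]

theorem DCb_ne {δ : ℝ} (hδ : δ = 1 ∨ δ = -1) {p : ℂ} (h1 : ‖p - 4 * δ‖ < 1 / 4) :
    p + 4 * (δ : ℂ) ≠ 0 := by
  intro h
  have e : p - 4 * (δ : ℂ) = -(8 * (δ : ℂ)) := by linear_combination h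
  rw [e, norm_neg] at h1
  have h3 : ‖(8 * (δ : ℂ))‖ = 8 := by
    rcases hδ with rfl | rfl <;> simp
  rw [h3] at h1
  norm_num at h1

theorem DCb_vx (D : TwinP J κ n j X) {δ ε : ℝ} (hδ : δ = 1 ∨ δ = -1) (hε : ε = 1 ∨ ε = -1)
    {p : ℂ} (h1 : ‖p - 4 * δ‖ < 1 / 4) :
    IsLocalDiffeomorphAt 𝓘(ℝ, ℂ × ℂ) (𝓡 4) ∞ (fun q => D.Q (Vx δ (XW δ ε q))) (p, 0) := by
  have h2 : p + 4 * (δ : ℂ) ≠ 0 := DCb_ne hδ h1
  have hsv : SV (XW δ ε (p, 0)) < 1 := DCb_sv hε h1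
  have h3 : IsLocalDiffeomorphAt 𝓘(ℝ, ℂ × ℂ) 𝓘(ℝ, ℂ × ℂ) ∞ (XW δ ε) (p, 0) :=
    Pool.Agent.RSG.XW_ld hδ hε h2
  have h4 : IsLocalDiffeomorphAt 𝓘(ℝ, ℂ × ℂ) (𝓡 4) ∞ (Vx δ) (XW δ ε (p, 0)) :=
    Pool.Agent.RSG.Vx_ld hδ hsv
  have h5 : IsLocalDiffeomorphAt (𝓡 4) (𝓡 4) ∞ D.Q (Vx δ (XW δ ε (p, 0))) :=
    D.Q_loc _ (Pool.Agent.RSG.Vx_ne hδ hsv)
  have h6 : IsLocalDiffeomorphAt 𝓘(ℝ, ℂ × ℂ) (𝓡 4) ∞ (Vx δ ∘ XW δ ε) (p, 0) :=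
    IsLocalDiffeomorphAt.comp (hf := h3) (hg := h4) ..
  have h7 : IsLocalDiffeomorphAt 𝓘(ℝ, ℂ × ℂ) (𝓡 4) ∞ (D.Q ∘ (Vx δ ∘ XW δ ε)) (p, 0) :=
    IsLocalDiffeomorphAt.comp (hf := h6) (hg := h5) ..
  exact h7

/-- `‖gD p‖ < 4` for `‖p‖ < 16` -/
theorem DCb_gD4 {p : ℂ} (hp : ‖p‖ < 16) : ‖gD p‖ < 4 := by
  by_cases h9 : ‖p‖ < 9
  · linarith [gD_norm h9]
  · rw [gD_far (by linarith [not_lt.1 h9]), norm_div]
    have h4 : ‖(4 : ℂ)‖ = 4 := by simp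
    rw [h4]
    linarith

theorem DCb_le {p : ℂ} (hp : ‖p‖ ≤ 9) : ‖gD p‖ ≤ 9 / 4 := by
  by_cases h9 : ‖p‖ < 9
  · exact (gD_norm h9).le
  · have h9' : 9 ≤ ‖p‖ := not_lt.1 h9
    rw [gD_far (by linarith), norm_div]
    have h4 : ‖(4 : ℂ)‖ = 4 := by simp
    rw [h4]
    linarith

theorem DC_loc (D : TwinP J κ n j X) (h : Bundle J κ b ε₁ ε₂) {p : ℂ} (hp : ‖p‖ < 16) :
    IsLocalDiffeomorphAt 𝓘(ℝ, ℂ × ℂ) (𝓡 4) ∞ (DC D b ε₁ ε₂) (p, 0) := by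
  have hc1 : ContinuousAt (fun q : ℂ × ℂ => ‖q.1 - 4‖) (p, 0) :=
    ((continuous_fst.sub continuous_const).norm).continuousAt
  have hc2 : ContinuousAt (fun q : ℂ × ℂ => ‖q.1 + 4‖) (p, 0) :=
    ((continuous_fst.add continuous_const).norm).continuousAt
  by_cases h5 : ‖p - 4‖ < 1 / 4
  · refine Pool.Agent.CSG.ld_congr (DCb_vx D (δ := 1) (ε := ε₁) (Or.inl rfl) h.sign₁ ?_) ?_
    · rw [DCb_one]; exact h5
    · filter_upwards [hc1.eventually (gt_mem_nhds h5)] with q hq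
      unfold DC
      rw [if_pos hq]
  by_cases h6 : ‖p + 4‖ < 1 / 4
  · refine Pool.Agent.CSG.ld_congr (DCb_vx D (δ := -1) (ε := ε₂) (Or.inr rfl) h.sign₂ ?_) ?_
    · rw [DCb_neg]; exact h6
    · filter_upwards [hc2.eventually (gt_mem_nhds h6)] with q hq
      unfold DC
      have h7 : ¬ ‖q.1 - 4‖ < 1 / 4 := fun h8 => DCb_far (p := q.1) (by linarith) (by linarith)
      rw [if_neg h7, if_pos hq]
  · have h3 : p ≠ 4 := by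
      rintro rfl
      apply h5
      simp
    have h4 : p ≠ -4 := by
      rintro rfl
      apply h6
      simp
    refine Pool.Agent.CSG.ld_congr ?_ (DC_near D h h3 h4)
    have h7 := BD_ld h.sign₁ h.sign₂ n j h3 h4
    obtain ⟨h8, h9⟩ := gD_ne h3 h4
    have h10 : IsLocalDiffeomorphAt 𝓘(ℝ, ℂ × ℝ × ℝ) (𝓡 4) ∞ (fun a => D.A (b a))
        (BD ε₁ ε₂ n j (p, 0)) := by
      rw [BD_zero h.sign₁ h.sign₂ n j h3 h4]
      exact Ab_ld D h (DCb_gD4 hp) (by simp) h8 h9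
    exact IsLocalDiffeomorphAt.comp (hf := h7) (hg := h10) ..

/-- a point of the vertices is not in the image of `A ∘ b` -/
theorem DCb_vne (D : TwinP J κ n j X) (h : Bundle J κ b ε₁ ε₂) {p : ℂ}
    (hp : p = 4 ∨ p = -4) {z : ℂ} {s t : ℝ} (hz : ‖z‖ < 4) (hs : |s| < 1)
    (h1 : z ≠ 1) (h2 : z ≠ -1) : DC D b ε₁ ε₂ (p, 0) ≠ D.A (b (z, s, t)) := by
  rcases hp with rfl | rfl
  · rw [(DC_vertex D b ε₁ ε₂).1]
    exact DC_vertex_ne D (Or.inl rfl) (DCa_not h hz hs h1 h2)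
  · rw [(DC_vertex D b ε₁ ε₂).2]
    exact DC_vertex_ne D (Or.inr rfl) (DCa_not h hz hs h1 h2)

theorem DC_inj0 (D : TwinP J κ n j X) (h : Bundle J κ b ε₁ ε₂) {p p' : ℂ} (hp : ‖p‖ < 16)
    (hp' : ‖p'‖ < 16) (he : DC D b ε₁ ε₂ (p, 0) = DC D b ε₁ ε₂ (p', 0)) : p = p' := by
  have hvv : DC D b ε₁ ε₂ (4, 0) ≠ DC D b ε₁ ε₂ (-4, 0) := by
    rw [(DC_vertex D b ε₁ ε₂).1, (DC_vertex D b ε₁ ε₂).2]
    intro h1
    have h2 := D.Q_inj _ _ (DC_vertex_c (Or.inl rfl)).1 (DC_vertex_c (Or.inr rfl)).1 h1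
    have h3 := (Pool.Agent.RSG.Vx_inj (Or.inl rfl) (Or.inr rfl) DCb_SV0 DCb_SV0 h2).1
    norm_num at h3
  by_cases hq : p = 4 ∨ p = -4
  · by_cases hq' : p' = 4 ∨ p' = -4
    · rcases hq with rfl | rfl <;> rcases hq' with rfl | rfl
      · rfl
      · exact absurd he hvv
      · exact absurd he.symm hvv
      · rfl
    · exfalso
      rw [not_or] at hq'
      obtain ⟨h8, h9⟩ := gD_ne hq'.1 hq'.2
      rw [DC_zero D h hq'.1 hq'.2] at he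
      exact DCb_vne D h hq (DCb_gD4 hp') (by simp) h8 h9 he
  · rw [not_or] at hq
    obtain ⟨h8, h9⟩ := gD_ne hq.1 hq.2
    by_cases hq' : p' = 4 ∨ p' = -4
    · exfalso
      rw [DC_zero D h hq.1 hq.2] at he
      exact DCb_vne D h hq' (DCb_gD4 hp) (by simp) h8 h9 he.symm
    · rw [not_or] at hq'
      obtain ⟨h8', h9'⟩ := gD_ne hq'.1 hq'.2
      rw [DC_zero D h hq.1 hq.2, DC_zero D h hq'.1 hq'.2] at he
      exact gD_inj (Ab_inj D h (DCb_gD4 hp) (by simp) h8 h9 (DCb_gD4 hp') (by simp) h8' h9' he).1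

theorem DC_far (D : TwinP J κ n j X) (b : ℂ × ℝ × ℝ → P) (ε₁ ε₂ : ℝ) {p ν : ℂ} (hp : 9 ≤ ‖p‖) :
    DC D b ε₁ ε₂ (p, ν) = D.A (b (p / 4, ν.re, ν.im)) := by
  have h4 : ‖(4 : ℂ)‖ = 4 := by simp
  have hm : 5 ≤ ‖p - 4‖ := by
    have := norm_sub_norm_le p 4
    rw [h4] at this
    linarith
  have hq : 5 ≤ ‖p + 4‖ := by
    have := norm_sub_norm_le p (-4)
    rw [norm_neg, h4, sub_neg_eq_add] at this
    linarith
  unfold DC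
  rw [if_neg (by simp only; linarith), if_neg (by simp only; linarith)]
  unfold BD
  rw [if_neg (by simp only; linarith), if_neg (by simp only; linarith), BBs_far hp]

/-- the points of the disc at the vertices are in the twin -/
theorem DCb_innv (D : TwinP J κ n j X) (b : ℂ × ℝ × ℝ → P) {δ ε : ℝ} (hδ : δ = 1 ∨ δ = -1)
    (hε : ε = 1 ∨ ε = -1) {p : ℂ} (h1 : ‖p - 4 * δ‖ < 1 / 4) :
    ∀ᶠ q in 𝓝 (p, (0 : ℂ)), D.Q (Vx δ (XW δ ε q)) ∈ Inn D b (5 / 2) := by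
  have hc : ContinuousAt (XW δ ε) (p, (0 : ℂ)) :=
    Pool.Agent.CSG.ld_continuousAt (Pool.Agent.RSG.XW_ld hδ hε (DCb_ne hδ h1))
  have hS : ContinuousAt (fun q => SV (XW δ ε q)) (p, (0 : ℂ)) :=
    ContinuousAt.comp (g := SV)
      (Pool.Agent.RSG.FiA_SV_smooth.continuous.continuousAt) hc
  filter_upwards [hS.eventually (gt_mem_nhds (DCb_sv hε h1))] with q hq
  exact Or.inr ⟨_, Pool.Agent.RSG.Vx_ne hδ hq, rfl⟩

theorem DC_inn (D : TwinP J κ n j X) (h : Bundle J κ b ε₁ ε₂) {p : ℂ} (hp : ‖p‖ ≤ 9) :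
    ∀ᶠ q in 𝓝 (p, (0 : ℂ)), DC D b ε₁ ε₂ q ∈ Inn D b (5 / 2) := by
  have hc1 : ContinuousAt (fun q : ℂ × ℂ => ‖q.1 - 4‖) (p, 0) :=
    ((continuous_fst.sub continuous_const).norm).continuousAt
  have hc2 : ContinuousAt (fun q : ℂ × ℂ => ‖q.1 + 4‖) (p, 0) :=
    ((continuous_fst.add continuous_const).norm).continuousAt
  by_cases h5 : ‖p - 4‖ < 1 / 4
  · have h5' : ‖p - 4 * ((1 : ℝ) : ℂ)‖ < 1 / 4 := by rw [DCb_one]; exact h5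
    filter_upwards [hc1.eventually (gt_mem_nhds h5),
      DCb_innv D b (δ := 1) (ε := ε₁) (Or.inl rfl) h.sign₁ h5'] with q hq hq2
    unfold DC
    rw [if_pos hq]
    exact hq2
  by_cases h6 : ‖p + 4‖ < 1 / 4
  · have h6' : ‖p - 4 * ((-1 : ℝ) : ℂ)‖ < 1 / 4 := by rw [DCb_neg]; exact h6
    filter_upwards [hc2.eventually (gt_mem_nhds h6),
      DCb_innv D b (δ := -1) (ε := ε₂) (Or.inr rfl) h.sign₂ h6'] with q hq hq2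
    unfold DC
    have h7 : ¬ ‖q.1 - 4‖ < 1 / 4 := fun h8 => DCb_far (p := q.1) (by linarith) (by linarith)
    rw [if_neg h7, if_pos hq]
    exact hq2
  · have h3 : p ≠ 4 := by
      rintro rfl
      apply h5
      simp
    have h4 : p ≠ -4 := by
      rintro rfl
      apply h6
      simp
    obtain ⟨h8, h9⟩ := gD_ne h3 h4
    have hc : ContinuousAt (BD ε₁ ε₂ n j) (p, (0 : ℂ)) :=
      Pool.Agent.CSG.ld_continuousAt (BD_ld h.sign₁ h.sign₂ n j h3 h4)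
    have e0 := BD_zero h.sign₁ h.sign₂ n j h3 h4
    have k1 : ContinuousAt (fun q => (BD ε₁ ε₂ n j q).1) (p, (0 : ℂ)) := hc.fst
    have k2 : ContinuousAt (fun q => |(BD ε₁ ε₂ n j q).2.1|) (p, (0 : ℂ)) := hc.snd.fst.abs
    have k3 : ContinuousAt (fun q => ‖(BD ε₁ ε₂ n j q).1‖) (p, (0 : ℂ)) := k1.norm
    filter_upwards [DC_near D h h3 h4,
      k3.eventually (gt_mem_nhds (show ‖(BD ε₁ ε₂ n j (p, 0)).1‖ < 5 / 2 by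
        rw [e0]; exact lt_of_le_of_lt (DCb_le hp) (by norm_num))),
      k2.eventually (gt_mem_nhds (show |(BD ε₁ ε₂ n j (p, 0)).2.1| < 1 by rw [e0]; simp)),
      k1.eventually_ne (show (BD ε₁ ε₂ n j (p, 0)).1 ≠ 1 by rw [e0]; exact h8),
      k1.eventually_ne (show (BD ε₁ ε₂ n j (p, 0)).1 ≠ -1 by rw [e0]; exact h9)] with q q1 q2 q3 q4 q5
    rw [q1]
    refine Or.inl ⟨(BD ε₁ ε₂ n j q).1, (BD ε₁ ε₂ n j q).2.1, (BD ε₁ ε₂ n j q).2.2, q2, q3, ?_, rfl⟩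
    exact DCa_not h (by linarith) q3 q4 q5

end Pool.Agent.RBM
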