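import Pool.Agent.RBM.Defs

/-!
# RBM/Frc: the representative modulo 1   (difficulty 1)

`frc x = x - round x`.
* `frc_abs`: `abs_sub_round`.  `frc_add_int`: `round_add_intCast`.  `frc_of`: if `|x - m| < 1/2` then `round x = m`
  (`round_eq_iff` / `Int.floor`), `frc_ev`: by `frc_of` for all `y` near `x`.
* `frc_half`: let `m = round x`, `f = frc x = x - m`, `|f| ≤ 1/2`.  If `f > 0`: `x - 1/2 = m + (f - 1/2)` with
  `f - 1/2 ∈ (-1/2, 0]`, so `frc (x - 1/2) = f - 1/2` and `|frc (x - 1/2)| = 1/2 - |f|`.  If `f < 0`: `x - 1/2 = (m - 1) +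
  (f + 1/2)`.  If `f = 0`: `x - 1/2` is a half integer, `|frc| = 1/2`; so in all cases `|frc (x - 1/2)| = 1/2 - |frc x|`.
* `frc_sq_smooth`: at `x` with `|frc x| < 1/2`: `frc` is smooth near `x` (`frc_ev`); if `|frc x| = 1/2` then near `x`
  `frc y ^ 2 > a` (as `|frc y| = 1/2 - |frc (y - 1/2)|`, `frc (x - 1/2) = 0`, and `frc` is continuous at `x - 1/2`), so `F (frc y ^ 2)`
  is constant near `x`.
-/

open scoped ContDiff Topology
open Set Filter

namespace Pool.Agent.RBM

theorem frc_abs (x : ℝ) : |frc x| ≤ 1 / 2 := abs_sub_round x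

theorem frc_add_int (x : ℝ) (m : ℤ) : frc (x + m) = frc x := by
  unfold frc
  rw [round_add_intCast]
  push_cast
  ring

theorem frc_eq (x : ℝ) : ∃ m : ℤ, frc x = x - m := ⟨round x, rfl⟩

theorem frc_of {x : ℝ} {m : ℤ} (h : |x - m| < 1 / 2) : frc x = x - m := by
  have h1 : round x = m := by
    rw [round_eq, Int.floor_eq_iff]
    rw [abs_lt] at h
    constructor <;> linarith [h.1, h.2]
  rw [frc, h1]

theorem frc_ev {x : ℝ} (h : |frc x| < 1 / 2) : ∀ᶠ y in 𝓝 x, frc y = y - round x := by
  have h1 : Continuous fun y : ℝ => |y - (round x : ℝ)| := by fun_prop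
  have h2 : ∀ᶠ y : ℝ in 𝓝 x, |y - (round x : ℝ)| < 1 / 2 :=
    h1.continuousAt.eventually (Iio_mem_nhds h)
  filter_upwards [h2] with y hy
  exact frc_of hy

theorem frc_smooth {x : ℝ} (h : |frc x| < 1 / 2) : ContDiffAt ℝ ∞ frc x := by
  have h1 : ContDiffAt ℝ ∞ (fun y : ℝ => y - round x) x :=
    (contDiff_id.sub contDiff_const).contDiffAt
  exact h1.congr_of_eventuallyEq (frc_ev h)

theorem frc_half (x : ℝ) : |frc (x - 1 / 2)| = 1 / 2 - |frc x| := by
  have h1 := frc_abs x
  rw [abs_le] at h1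
  set f := frc x with hf
  have hx : x = round x + f := by rw [hf, frc]; ring
  rcases lt_trichotomy f 0 with h | h | h
  · have h2 : frc (x - 1 / 2) = x - 1 / 2 - ((round x - 1 : ℤ) : ℝ) := by
      apply frc_of
      have e : x - 1 / 2 - ((round x - 1 : ℤ) : ℝ) = f + 1 / 2 := by
        push_cast
        linarith
      rw [e, abs_of_nonneg (by linarith [h1.1])]
      linarith
    have e : x - 1 / 2 - ((round x - 1 : ℤ) : ℝ) = f + 1 / 2 := by
      push_cast
      linarith
    rw [h2, e, abs_of_nonneg (by linarith [h1.1]), abs_of_neg h]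
    ring
  · have h2 : round (x - 1 / 2) = round x := by
      rw [round_eq (x - 1 / 2), Int.floor_eq_iff]
      constructor <;> linarith
    have h3 : frc (x - 1 / 2) = -(1 / 2) := by
      rw [frc, h2]
      linarith
    rw [h3, h, abs_neg, abs_zero, abs_of_pos (by norm_num)]
    ring
  · have e : x - 1 / 2 - (round x : ℝ) = f - 1 / 2 := by linarith
    have h2 : frc (x - 1 / 2) = x - 1 / 2 - (round x : ℝ) := by
      apply frc_of
      rw [e, abs_lt]
      constructor <;> linarith [h1.2]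
    rw [h2, e, abs_of_nonpos (by linarith [h1.2]), abs_of_pos h]
    ring

/-- `|frc|` is continuous -/
theorem frc_abs_cont : Continuous fun x => |frc x| := by
  rw [continuous_iff_continuousAt]
  intro x
  rcases (frc_abs x).lt_or_eq with h | h
  · exact (frc_smooth h).continuousAt.abs
  · have h0 : |frc (x - 1 / 2)| = 0 := by rw [frc_half, h, sub_self]
    have h1 : ContinuousAt frc (x - 1 / 2) :=
      (frc_smooth (by rw [h0]; norm_num)).continuousAt
    have h2 : ContinuousAt (fun y : ℝ => 1 / 2 - |frc (y - 1 / 2)|) x := by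
      have h3 : ContinuousAt (fun y : ℝ => frc (y - 1 / 2)) x :=
        ContinuousAt.comp (g := frc) (f := fun y : ℝ => y - 1 / 2) h1 (by fun_prop)
      exact continuousAt_const.sub h3.abs
    have h4 : (fun y : ℝ => 1 / 2 - |frc (y - 1 / 2)|) = fun y : ℝ => |frc y| := by
      funext y
      rw [frc_half]
      ring
    rwa [h4] at h2

theorem frc_sq_smooth {F : ℝ → ℝ} (hF : ContDiff ℝ ∞ F) {a c : ℝ} (ha : a < 1 / 4)
    (h : ∀ q, a ≤ q → F q = c) : ContDiff ℝ ∞ fun x : ℝ => F (frc x ^ 2) := by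
  rw [contDiff_iff_contDiffAt]
  intro x
  rcases (frc_abs x).lt_or_eq with h1 | h1
  · exact hF.contDiffAt.comp x ((frc_smooth h1).pow 2)
  · have h2 : ∀ᶠ y in 𝓝 x, a < |frc y| ^ 2 := by
      have h3 : Continuous fun y : ℝ => |frc y| ^ 2 := frc_abs_cont.pow 2
      apply h3.continuousAt.eventually (Ioi_mem_nhds _)
      change a < |frc x| ^ 2
      rw [h1]
      norm_num
      linarith
    have h4 : (fun y : ℝ => F (frc y ^ 2)) =ᶠ[𝓝 x] fun _ => c := by
      filter_upwards [h2] with y hy
      rw [sq_abs] at hy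
      exact h _ hy.le
    exact contDiffAt_const.congr_of_eventuallyEq h4

/-- if `frc x = frc y` then `y - x` is an integer -/
theorem frc_inj {x y : ℝ} (h : frc x = frc y) : ∃ m : ℤ, y = x + m := by
  refine ⟨round y - round x, ?_⟩
  unfold frc at h
  push_cast
  linarith

end Pool.Agent.RBM
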