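import Pool.Agent.RBM.DCa
import Pool.Agent.RBM.Frc

/-!
# RBM/JmA: the map `J` is a local diffeomorphism   (difficulty 3)

`G (z, s, t) = (z, λ s, λ frc (t - τ s) + μ τ s)`, `λ = lamJ σ (‖z‖²) ∈ [σ, 1]`, `μ = muJ (‖z‖²)`.
On `DomJ`:
* `‖z‖ < 5/2`: near the point `Jm = hD (z, σ s, σ frc (t - τ s))`, where `frc (t - τ s) = t - τ s - m` locally (`frc_ev`,
  `|frc| < 1/2 - δ < 1/2`); the inner map `(z, s, t) ↦ (z, σ s, σ (t - τ s - m))` is a local diffeomorphism (explicit smooth inverse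
  `(z, s', t') ↦ (z, s'/σ, t'/σ + τ (s'/σ) + m)`), and `hD` is a local diffeomorphism at the value (`DiscOK.loc`, `|σ s| < σ`, `|σ frc| ≤ σ/2`).
* `9/4 < ‖z‖ < 3`: `Jm = D.A ∘ b ∘ G` near the point: for `‖z‖ < 5/2` by `DiscOK.out` and `λ = σ`, `μ = 0`; for `5/2 ≤ ‖z‖ < 3` by definition.
  `G` is a local diffeomorphism (inverse `(z, s', t') ↦ (z, s'/λ, (t' - μ τ (s'/λ))/λ + τ (s'/λ) + m)`; `ld_of_perm` for fixed `m`
  and fixed `z`-dependence, or `ld_two`), the value has `|λ s| < 1`, `z ≠ ±1`: `Ab_ld`.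
* `‖z‖ = 3` (or slightly more): near the point `Jm a = D.A (b (G a))`: for `‖z‖ ≥ 3`: `λ = μ = 1`, `G (z, s, t) = (z, s, t - τ s - m + τ s) =
  (z, s, t - m)` and `b` has period `1` (`box_int`), so `b (G a) = b a`.
* `‖z‖ > 3`: `Jm = D.A ∘ b` near the point: `Ab_ld`.
-/

open scoped Manifold ContDiff Topology
open Set Filter
open Complex (I)
open Pool.Agent.RSG (E4 S4 ex cj c1 c2 ht fh Vx)

namespace Pool.Agent.RBM

variable {E : Type*} [NormedAddCommGroup E] [NormedSpace ℝ E] {H : Type*} [TopologicalSpace H]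
  {J : ModelWithCorners ℝ E H}
  {P : Type*} [TopologicalSpace P] [ChartedSpace H P] {κ : ℝ × ℂ × ℝ → P} {b : ℂ × ℝ × ℝ → P}
  {X : Type*} [TopologicalSpace X] [ChartedSpace E4 X] {n j : ℤ} {ε₁ ε₂ : ℝ}

theorem lamJ_smooth (σ : ℝ) : ContDiff ℝ ∞ (lamJ σ) := by
  unfold lamJ
  exact contDiff_const.add (contDiff_const.mul (Pool.Agent.CSG.stp_smooth _ _))

theorem muJ_smooth : ContDiff ℝ ∞ muJ := Pool.Agent.CSG.stp_smooth _ _

theorem lamJ_bd {σ : ℝ} (h0 : 0 < σ) (h1 : σ ≤ 1) (q : ℝ) : σ ≤ lamJ σ q ∧ lamJ σ q ≤ 1 := by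
  have h2 := Pool.Agent.CSG.stp_nonneg (25 / 4) 9 q
  have h3 := Pool.Agent.CSG.stp_le_one (25 / 4) 9 q
  unfold lamJ
  constructor
  · nlinarith
  · nlinarith

theorem lamJ_in (σ : ℝ) {q : ℝ} (h : q ≤ 25 / 4) : lamJ σ q = σ ∧ muJ q = 0 := by
  have h1 := Pool.Agent.CSG.stp_zero (a := 25 / 4) (b := 9) (by norm_num) h
  unfold lamJ muJ
  rw [h1]
  constructor
  · ring
  · rfl

theorem lamJ_out (σ : ℝ) {q : ℝ} (h : 9 ≤ q) : lamJ σ q = 1 ∧ muJ q = 1 := by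
  have h1 := Pool.Agent.CSG.stp_one (a := 25 / 4) (b := 9) (by norm_num) h
  unfold lamJ muJ
  rw [h1]
  constructor
  · ring
  · rfl

/-- the inner map is a local diffeomorphism -/
theorem JmA_perm {Λ M τ : ℝ → ℝ} (hΛ : ContDiff ℝ ∞ Λ) (hM : ContDiff ℝ ∞ M)
    (hτ : ContDiff ℝ ∞ τ) (hpos : ∀ q, 0 < Λ q) (m : ℝ) (x : ℂ × ℝ × ℝ) :
    IsLocalDiffeomorphAt 𝓘(ℝ, ℂ × ℝ × ℝ) 𝓘(ℝ, ℂ × ℝ × ℝ) ∞
      (fun a : ℂ × ℝ × ℝ => (a.1, Λ (‖a.1‖ ^ 2) * a.2.1,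
        Λ (‖a.1‖ ^ 2) * (a.2.2 - τ a.2.1 - m) + M (‖a.1‖ ^ 2) * τ a.2.1)) x := by
  have hn : ContDiff ℝ ∞ fun a : ℂ × ℝ × ℝ => ‖a.1‖ ^ 2 := (contDiff_norm_sq ℝ).comp contDiff_fst
  have h1 : ContDiff ℝ ∞ fun a : ℂ × ℝ × ℝ => Λ (‖a.1‖ ^ 2) := hΛ.comp hn
  have h2 : ContDiff ℝ ∞ fun a : ℂ × ℝ × ℝ => M (‖a.1‖ ^ 2) := hM.comp hn
  have hs : ContDiff ℝ ∞ fun a : ℂ × ℝ × ℝ => a.2.1 := contDiff_fst.comp contDiff_snd
  have ht : ContDiff ℝ ∞ fun a : ℂ × ℝ × ℝ => a.2.2 := contDiff_snd.comp contDiff_snd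
  have h3 : ContDiff ℝ ∞ fun a : ℂ × ℝ × ℝ => τ a.2.1 := hτ.comp hs
  have hd : ContDiff ℝ ∞ fun a : ℂ × ℝ × ℝ => a.2.1 / Λ (‖a.1‖ ^ 2) :=
    hs.div h1 (fun a => (hpos _).ne')
  have h4 : ContDiff ℝ ∞ fun a : ℂ × ℝ × ℝ => τ (a.2.1 / Λ (‖a.1‖ ^ 2)) := hτ.comp hd
  have h := Pool.Agent.CSG.ld_of_perm (f := (⟨fun a : ℂ × ℝ × ℝ => (a.1, Λ (‖a.1‖ ^ 2) * a.2.1,
        Λ (‖a.1‖ ^ 2) * (a.2.2 - τ a.2.1 - m) + M (‖a.1‖ ^ 2) * τ a.2.1),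
      fun a : ℂ × ℝ × ℝ => (a.1, a.2.1 / Λ (‖a.1‖ ^ 2),
        (a.2.2 - M (‖a.1‖ ^ 2) * τ (a.2.1 / Λ (‖a.1‖ ^ 2))) / Λ (‖a.1‖ ^ 2) +
          τ (a.2.1 / Λ (‖a.1‖ ^ 2)) + m), ?_, ?_⟩ : ℂ × ℝ × ℝ ≃ ℂ × ℝ × ℝ)) ?_ ?_ x
  · exact h
  · rintro ⟨z, s, t⟩
    have hp := (hpos (‖z‖ ^ 2)).ne'
    simp only [mul_div_cancel_left₀ _ hp]
    refine Prod.ext rfl (Prod.ext rfl ?_)
    simp only
    field_simp
    ring
  · rintro ⟨z, s, t⟩
    have hp := (hpos (‖z‖ ^ 2)).ne'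
    refine Prod.ext rfl (Prod.ext ?_ ?_)
    · simp only
      field_simp
    · simp only
      field_simp
      ring
  · exact contDiff_fst.prodMk ((h1.mul hs).prodMk ((h1.mul ((ht.sub h3).sub contDiff_const)).add
      (h2.mul h3)))
  · exact contDiff_fst.prodMk (hd.prodMk ((((ht.sub (h2.mul h4)).div h1
      (fun a => (hpos _).ne')).add h4).add contDiff_const))

theorem Jm_loc (D : TwinP J κ n j X) (h : Bundle J κ b ε₁ ε₂) {σ : ℝ} (hσ : DiscOK D b ε₁ ε₂ σ)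
    {τ : ℝ → ℝ} (hτ : ContDiff ℝ ∞ τ) {δ : ℝ} (hδ : 0 < δ) {a : ℂ × ℝ × ℝ} (ha : a ∈ DomJ τ δ) :
    IsLocalDiffeomorphAt 𝓘(ℝ, ℂ × ℝ × ℝ) (𝓡 4) ∞ (Jm D b ε₁ ε₂ σ τ) a := by
  classical
  obtain ⟨z, s, t⟩ := a
  obtain ⟨hz, hs, hf⟩ := ha
  simp only at hz hs hf
  have hσ0 := hσ.pos
  have hσ1 : σ ≤ 1 := hσ.le.trans (by norm_num)
  have hc1 : Continuous fun a : ℂ × ℝ × ℝ => ‖a.1‖ := by fun_prop
  have hτc : Continuous τ := hτ.continuous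
  have hc2 : Continuous fun a : ℂ × ℝ × ℝ => a.2.2 - τ a.2.1 := by fun_prop
  rcases lt_or_ge 3 ‖z‖ with h3 | h3
  · -- outside
    have hne : z ≠ 1 ∧ z ≠ -1 := by
      constructor
      · rintro rfl
        rw [norm_one] at h3
        linarith
      · rintro rfl
        rw [norm_neg, norm_one] at h3
        linarith
    refine Pool.Agent.CSG.ld_congr (Ab_ld D h hz hs hne.1 hne.2) ?_
    have hev : ∀ᶠ a : ℂ × ℝ × ℝ in 𝓝 (z, s, t), 3 < ‖a.1‖ :=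
      hc1.continuousAt.eventually_const_lt h3
    filter_upwards [hev] with a ha
    unfold Jm
    rw [if_neg (by linarith), if_neg (by linarith)]
  · have hfr := hf h3
    have hfr2 : |frc (t - τ s)| < 1 / 2 := by linarith
    have hev := (hc2.tendsto (z, s, t)).eventually (frc_ev hfr2)
    simp only at hev
    rcases lt_or_ge ‖z‖ (5 / 2) with h5 | h5
    · -- the disc
      obtain ⟨G, hGd⟩ : ∃ G : ℂ × ℝ × ℝ → ℂ × ℝ × ℝ, G = fun a : ℂ × ℝ × ℝ =>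
          (a.1, (fun _ : ℝ => σ) (‖a.1‖ ^ 2) * a.2.1,
          (fun _ : ℝ => σ) (‖a.1‖ ^ 2) * (a.2.2 - τ a.2.1 - (round (t - τ s) : ℝ)) +
            (fun _ : ℝ => (0 : ℝ)) (‖a.1‖ ^ 2) * τ a.2.1) := ⟨_, rfl⟩
      have hG : IsLocalDiffeomorphAt 𝓘(ℝ, ℂ × ℝ × ℝ) 𝓘(ℝ, ℂ × ℝ × ℝ) ∞ G (z, s, t) := by
        rw [hGd]
        exact JmA_perm (Λ := fun _ => σ) (M := fun _ => 0) contDiff_const contDiff_const hτ
          (fun _ => hσ0) (round (t - τ s)) (z, s, t)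
      have hval : G (z, s, t) = (z, σ * s, σ * frc (t - τ s)) := by
        rw [hGd]
        simp [frc]
      have hD := hσ.loc z (σ * s) (σ * frc (t - τ s)) h5.le
        (by rw [abs_mul, abs_of_pos hσ0]; nlinarith)
        (by rw [abs_mul, abs_of_pos hσ0]; nlinarith [frc_abs (t - τ s)])
      have hcomp := IsLocalDiffeomorphAt.comp (hf := hG) (hg := by rw [hval]; exact hD) ..
      refine Pool.Agent.CSG.ld_congr hcomp ?_
      have hev2 : ∀ᶠ a : ℂ × ℝ × ℝ in 𝓝 (z, s, t), ‖a.1‖ < 5 / 2 :=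
        hc1.continuousAt.eventually_lt_const h5
      filter_upwards [hev, hev2] with a ha ha2
      simp only [Function.comp, hGd, zero_mul, add_zero]
      unfold Jm
      rw [if_pos ha2, ha]
    · -- the collar
      obtain ⟨G, hGd⟩ : ∃ G : ℂ × ℝ × ℝ → ℂ × ℝ × ℝ, G = fun a : ℂ × ℝ × ℝ =>
          (a.1, lamJ σ (‖a.1‖ ^ 2) * a.2.1,
          lamJ σ (‖a.1‖ ^ 2) * (a.2.2 - τ a.2.1 - (round (t - τ s) : ℝ)) +
            muJ (‖a.1‖ ^ 2) * τ a.2.1) := ⟨_, rfl⟩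
      have hG : IsLocalDiffeomorphAt 𝓘(ℝ, ℂ × ℝ × ℝ) 𝓘(ℝ, ℂ × ℝ × ℝ) ∞ G (z, s, t) := by
        rw [hGd]
        exact JmA_perm (lamJ_smooth σ) muJ_smooth hτ
          (fun q => hσ0.trans_le (lamJ_bd hσ0 hσ1 q).1) (round (t - τ s)) (z, s, t)
      have hval : G (z, s, t) =
          (z, lamJ σ (‖z‖ ^ 2) * s, lamJ σ (‖z‖ ^ 2) * frc (t - τ s) + muJ (‖z‖ ^ 2) * τ s) := by
        rw [hGd]
        simp [frc]
      have hne : z ≠ 1 ∧ z ≠ -1 := by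
        constructor
        · rintro rfl
          rw [norm_one] at h5
          linarith
        · rintro rfl
          rw [norm_neg, norm_one] at h5
          linarith
      have hA := Ab_ld D h (z := z) (s := lamJ σ (‖z‖ ^ 2) * s)
        (t := lamJ σ (‖z‖ ^ 2) * frc (t - τ s) + muJ (‖z‖ ^ 2) * τ s) hz
        (by
          have h6 := lamJ_bd hσ0 hσ1 (‖z‖ ^ 2)
          rw [abs_mul, abs_of_pos (hσ0.trans_le h6.1)]
          nlinarith [abs_nonneg s]) hne.1 hne.2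
      have hcomp := IsLocalDiffeomorphAt.comp (hf := hG) (hg := by rw [hval]; exact hA) ..
      refine Pool.Agent.CSG.ld_congr hcomp ?_
      have hev2 : ∀ᶠ a : ℂ × ℝ × ℝ in 𝓝 (z, s, t), 9 / 4 < ‖a.1‖ :=
        hc1.continuousAt.eventually_const_lt (by linarith : (9 / 4 : ℝ) < ‖z‖)
      filter_upwards [hev, hev2] with a ha ha2
      simp only [Function.comp, hGd]
      unfold Jm
      by_cases h7 : ‖a.1‖ < 5 / 2
      · rw [if_pos h7, hσ.out _ _ _ ha2.le, ha]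
        obtain ⟨e1, e2⟩ := lamJ_in σ (q := ‖a.1‖ ^ 2) (by nlinarith [norm_nonneg a.1])
        rw [e1, e2, zero_mul, add_zero]
      · rw [if_neg h7]
        by_cases h8 : ‖a.1‖ < 3
        · rw [if_pos h8, ha]
        · rw [if_neg h8]
          obtain ⟨e1, e2⟩ := lamJ_out σ (q := ‖a.1‖ ^ 2) (by nlinarith [norm_nonneg a.1])
          rw [e1, e2]
          have e3 := box_int h.box a.1 a.2.1 a.2.2 (-round (t - τ s))
          have e4 : ((1 : ℝ) * (a.2.2 - τ a.2.1 - (round (t - τ s) : ℝ)) + 1 * τ a.2.1) =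
              a.2.2 + ((-round (t - τ s) : ℤ) : ℝ) := by
            push_cast
            ring
          rw [e4, one_mul, e3]

end Pool.Agent.RBM
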