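import Pool.Agent.RBM.JmA
import Pool.Agent.RSG.NewS

/-!
# RBM/JmB: the map `J`, values and injectivity   (difficulty 3)

* `Q_phase`: `D.Q z`, `fh z ≠ 0`: either `c1 z = 0 ∨ c2 z = 0`, or `D.Q z = D.A (κ (l, v, t))` with `0 < ‖v‖ < 1` (`RSG.exists_phase` in
  RSG/NewS, `D.glue`, `RSG.glue_norm`), and then `κ (l, v, t)` is not on the torus (`kap_not`).
* `Q_box`: `D.Q z = D.A (b (z', s, t))`, the point `b (z', s, t)` not on the torus: first case of `Q_phase` is excluded by `D.disj`; second: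
  `D.A_inj`, `κ (l, v, t'') = b (z', s, t)`, `kap_box_norm`: `‖z'‖ < 3/2`.
* `Jm_out`: `‖z‖ ≥ 3`.  `Jm_mid`: `9/4 ≤ ‖z‖`: one formula (`DiscOK.out`; for `‖z‖ ≥ 3`: `λ = μ = 1` and the period of `b`).
* `Jm_inn`: `‖z‖ < 3`: value in `Inn 3`: `‖z‖ < 9/4`: `DiscOK.inn` (`Inn (5/2) ⊆ Inn 3`); else `Jm_mid`, `|λ s| < 1`, `z ≠ ±1`.
* `Jm_per`: `frc (t + 1 - τ s) = frc (t - τ s)`, `box.per`.
* `Jm_inj`: `a, a' ∈ DomJ`, same value.  Write `x` for it.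
  - both `‖z‖, ‖z'‖ ≥ 9/4`: `Jm_mid` and `Ab_inj`: `z = z'`, `λ s = λ s'` so `s = s'`, `λ f + μ τ = λ f' + μ τ + m`, `f = frc (t - τ s)`,
    `f' = frc (t' - τ s)`: if `‖z‖ < 3` or `= 3`: `|f|, |f'| < 1/2`, `λ ≤ 1`: `|λ (f - f')| < 1`, `m = 0`, `f = f'`: `frc_inj`.  If `‖z‖ > 3`: `t' = t + m` directly
    (`λ = μ = 1`: `f + τ s = t - integer`).
  - both `< 5/2`: `DiscOK.inj`: `z = z'`, `σ s = σ s'`, `σ f = σ f'`: `frc_inj`.
  - `‖z‖ < 9/4`, `‖z'‖ ≥ 5/2`: `x ∈ Inn (5/2)` (`DiscOK.inn`) and `x = D.A (b (z', ..))`: in the first case of `Inn`, `Ab_inj` (the points are not on the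
    torus: `box_torus`) gives `‖z'‖ < 5/2`; in the second case `Q_box` gives `‖z'‖ < 3/2`: contradiction.
-/

open scoped Manifold ContDiff Topology
open Set Filter
open Complex (I)
open Pool.Agent.RSG (E4 S4 ex cj c1 c2 ht fh Vx)

namespace Pool.Agent.RBM

variable {E : Type*} [NormedAddCommGroup E] [NormedSpace ℝ E] {H : Type*} [TopologicalSpace H]
  {J : ModelWithCorners ℝ E H}
  {P : Type*} [TopologicalSpace P] [ChartedSpace H P] {κ : ℝ × ℂ × ℝ → P} {b : ℂ × ℝ × ℝ → P}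
  {X : Type*} [TopologicalSpace X] [ChartedSpace E4 X] {n j : ℤ} {ε₁ ε₂ : ℝ}

theorem JmB_ne {z : ℂ} (h : 3 / 2 ≤ ‖z‖) : z ≠ 1 ∧ z ≠ -1 := by
  constructor
  · rintro rfl
    rw [norm_one] at h
    linarith
  · rintro rfl
    rw [norm_neg, norm_one] at h
    linarith

theorem Q_phase (D : TwinP J κ n j X) (h : ThickT J κ) {z : S4} (hz : fh z ≠ 0) :
    (c1 z = 0 ∨ c2 z = 0) ∨ ∃ (l : ℝ) (v : ℂ) (t : ℝ), v ≠ 0 ∧ ‖v‖ < 1 ∧ D.Q z = D.A (κ (l, v, t)) ∧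
      ¬ OnT κ (κ (l, v, t)) := by
  by_cases hc : c1 z = 0 ∨ c2 z = 0
  · exact Or.inl hc
  · right
    push Not at hc
    obtain ⟨l, m, t, e1, e2, e3⟩ := Pool.Agent.RSG.exists_phase n j z
    have e1' : c1 z = ‖c1 z‖ * ex (m + (1 - j) * t) := by
      rw [← sub_eq_zero]
      have := sub_eq_zero.mpr e1
      convert this using 3
      push_cast
      ring_nf
    have e2' : c2 z = ‖c2 z‖ * ex (m - j * t) := by
      rw [← sub_eq_zero]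
      have := sub_eq_zero.mpr e2
      convert this using 3
      push_cast
      ring_nf
    have hg := D.glue z l m t hz hc.1 hc.2 e1' e2' e3
    have hv1 := Pool.Agent.RSG.glue_norm hz m
    have hv0 : ((2 * ‖c1 z‖ * ‖c2 z‖ : ℝ) : ℂ) * ex m ≠ 0 := by
      apply mul_ne_zero _ (Pool.Agent.RSG.ex_ne m)
      have := norm_pos_iff.2 hc.1
      have := norm_pos_iff.2 hc.2
      exact_mod_cast (by positivity : (2 * ‖c1 z‖ * ‖c2 z‖ : ℝ) ≠ 0)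
    exact ⟨l, _, t, hv0, hv1, hg, kap_not h t hv0 hv1⟩

theorem Q_box (D : TwinP J κ n j X) (h : Bundle J κ b ε₁ ε₂) {z : S4} (hz : fh z ≠ 0) {z' : ℂ}
    {s t : ℝ} (hz' : ‖z'‖ < 4) (hs : |s| < 1) (ht : ¬ OnT κ (b (z', s, t)))
    (he : D.Q z = D.A (b (z', s, t))) : ‖z'‖ < 3 / 2 := by
  rcases Q_phase D h.thick hz with hc | ⟨l, v, t'', _, hv1, hQ, hn⟩
  · exact absurd he (D.disj z _ hz hc ht)
  · rw [hQ] at he
    exact kap_box_norm h hv1 hz' hs (D.A_inj _ _ hn ht he)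

theorem Jm_out (D : TwinP J κ n j X) (b : ℂ × ℝ × ℝ → P) (ε₁ ε₂ σ : ℝ) (τ : ℝ → ℝ) {a : ℂ × ℝ × ℝ}
    (h : 3 ≤ ‖a.1‖) : Jm D b ε₁ ε₂ σ τ a = D.A (b a) := by
  unfold Jm
  rw [if_neg (by linarith), if_neg (by linarith)]

theorem Jm_mid (D : TwinP J κ n j X) (h : Bundle J κ b ε₁ ε₂) {σ : ℝ} (hσ : DiscOK D b ε₁ ε₂ σ)
    (τ : ℝ → ℝ) {z : ℂ} (s t : ℝ) (hz : 9 / 4 ≤ ‖z‖) :
    Jm D b ε₁ ε₂ σ τ (z, s, t) = D.A (b (z, lamJ σ (‖z‖ ^ 2) * s,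
      lamJ σ (‖z‖ ^ 2) * frc (t - τ s) + muJ (‖z‖ ^ 2) * τ s)) := by
  unfold Jm
  by_cases h7 : ‖z‖ < 5 / 2
  · simp only [h7, if_true]
    rw [hσ.out _ _ _ hz]
    obtain ⟨e1, e2⟩ := lamJ_in σ (q := ‖z‖ ^ 2) (by nlinarith [norm_nonneg z])
    rw [e1, e2, zero_mul, add_zero]
  · by_cases h8 : ‖z‖ < 3
    · simp only [h7, h8, if_true, if_false]
    · simp only [h7, h8, if_false]
      obtain ⟨e1, e2⟩ := lamJ_out σ (q := ‖z‖ ^ 2) (by nlinarith [norm_nonneg z])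
      rw [e1, e2]
      have e3 := box_int h.box z s t (-round (t - τ s))
      have e4 : ((1 : ℝ) * frc (t - τ s) + 1 * τ s) = t + ((-round (t - τ s) : ℤ) : ℝ) := by
        unfold frc
        push_cast
        ring
      rw [e4, one_mul, e3]

theorem JmB_lam {σ : ℝ} (h0 : 0 < σ) (h1 : σ ≤ 1) (q : ℝ) {s : ℝ} (hs : |s| < 1) :
    |lamJ σ q * s| < 1 := by
  have h6 := lamJ_bd h0 h1 q
  rw [abs_mul, abs_of_pos (h0.trans_le h6.1)]
  nlinarith [abs_nonneg s]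

theorem JmB_small (D : TwinP J κ n j X) (b : ℂ × ℝ × ℝ → P) (ε₁ ε₂ σ : ℝ) (τ : ℝ → ℝ) {z : ℂ}
    (s t : ℝ) (hz : ‖z‖ < 5 / 2) :
    Jm D b ε₁ ε₂ σ τ (z, s, t) = hD D b ε₁ ε₂ (z, σ * s, σ * frc (t - τ s)) := by
  unfold Jm
  simp only [hz, if_true]

theorem JmB_bds {D : TwinP J κ n j X} {b : ℂ × ℝ × ℝ → P} {σ : ℝ} (hσ : DiscOK D b ε₁ ε₂ σ)
    {s : ℝ} (x : ℝ) (hs : |s| < 1) : |σ * s| < σ ∧ |σ * frc x| < σ := by
  have h0 := hσ.pos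
  constructor
  · rw [abs_mul, abs_of_pos h0]
    nlinarith
  · rw [abs_mul, abs_of_pos h0]
    nlinarith [frc_abs x]

theorem Jm_inn (D : TwinP J κ n j X) (h : Bundle J κ b ε₁ ε₂) {σ : ℝ} (hσ : DiscOK D b ε₁ ε₂ σ)
    (τ : ℝ → ℝ) {z : ℂ} {s : ℝ} (t : ℝ) (hz : ‖z‖ < 3) (hs : |s| < 1) :
    Jm D b ε₁ ε₂ σ τ (z, s, t) ∈ Inn D b 3 := by
  rcases lt_or_ge ‖z‖ (9 / 4) with h9 | h9
  · rw [JmB_small D b ε₁ ε₂ σ τ s t (by linarith)]
    have hb := JmB_bds hσ (t - τ s) hs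
    rcases hσ.inn z (σ * s) (σ * frc (t - τ s)) h9 hb.1 hb.2 with ⟨z', s', t', h1, h2⟩ | h1
    · exact Or.inl ⟨z', s', t', by linarith, h2⟩
    · exact Or.inr h1
  · rw [Jm_mid D h hσ τ s t h9]
    have hσ1 : σ ≤ 1 := hσ.le.trans (by norm_num)
    have h6 := JmB_lam hσ.pos hσ1 (‖z‖ ^ 2) hs
    refine Or.inl ⟨z, _, _, hz, h6, ?_, rfl⟩
    rw [box_torus h (by linarith) h6]
    have hne := JmB_ne (z := z) (by linarith)
    exact not_or.mpr hne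

theorem Jm_per (D : TwinP J κ n j X) (h : Bundle J κ b ε₁ ε₂) (σ : ℝ) (τ : ℝ → ℝ) (z : ℂ) (s t : ℝ) :
    Jm D b ε₁ ε₂ σ τ (z, s, t + 1) = Jm D b ε₁ ε₂ σ τ (z, s, t) := by
  have e : frc (t + 1 - τ s) = frc (t - τ s) := by
    have := frc_add_int (t - τ s) 1
    rw [← this]
    congr 1
    push_cast
    ring
  unfold Jm
  simp only [e, h.box.per]

theorem JmB_mixed (D : TwinP J κ n j X) (h : Bundle J κ b ε₁ ε₂) {σ : ℝ}
    (hσ : DiscOK D b ε₁ ε₂ σ) (τ : ℝ → ℝ) {z z' : ℂ} {s s' t t' : ℝ} (hs : |s| < 1)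
    (hs' : |s'| < 1) (h1 : ‖z‖ < 9 / 4) (h2 : 5 / 2 ≤ ‖z'‖) (h4 : ‖z'‖ < 4)
    (he : Jm D b ε₁ ε₂ σ τ (z, s, t) = Jm D b ε₁ ε₂ σ τ (z', s', t')) : False := by
  have hσ1 : σ ≤ 1 := hσ.le.trans (by norm_num)
  have h6 := JmB_lam hσ.pos hσ1 (‖z'‖ ^ 2) hs'
  have hne := JmB_ne (z := z') (by linarith)
  have hnt : ¬ OnT κ (b (z', lamJ σ (‖z'‖ ^ 2) * s',
      lamJ σ (‖z'‖ ^ 2) * frc (t' - τ s') + muJ (‖z'‖ ^ 2) * τ s')) := by
    rw [box_torus h h4 h6]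
    exact not_or.mpr hne
  rw [JmB_small D b ε₁ ε₂ σ τ s t (by linarith), Jm_mid D h hσ τ s' t' (by linarith)] at he
  have hb := JmB_bds hσ (t - τ s) hs
  rcases hσ.inn z (σ * s) (σ * frc (t - τ s)) h1 hb.1 hb.2 with ⟨w, u, x, hw, hu, hn, hx⟩ | ⟨w, hw, hx⟩
  · rw [hx] at he
    have e := D.A_inj _ _ hn hnt he
    have e2 := (h.box.inj _ _ _ _ _ _ (by linarith : ‖w‖ < 4) hu h4 h6 e).1
    rw [e2] at hw
    linarith
  · rw [hx] at he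
    have := Q_box D h hw h4 h6 hnt he
    linarith

theorem Jm_inj (D : TwinP J κ n j X) (h : Bundle J κ b ε₁ ε₂) {σ : ℝ} (hσ : DiscOK D b ε₁ ε₂ σ)
    (τ : ℝ → ℝ) {δ : ℝ} (hδ : 0 < δ) {z z' : ℂ} {s s' t t' : ℝ} (ha : (z, s, t) ∈ DomJ τ δ)
    (ha' : (z', s', t') ∈ DomJ τ δ)
    (he : Jm D b ε₁ ε₂ σ τ (z, s, t) = Jm D b ε₁ ε₂ σ τ (z', s', t')) :
    z = z' ∧ s = s' ∧ ∃ m : ℤ, t' = t + m := by
  obtain ⟨hz, hs, hf⟩ := ha
  obtain ⟨hz', hs', hf'⟩ := ha'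
  simp only at hz hs hf hz' hs' hf'
  have hσ0 := hσ.pos
  have hσ1 : σ ≤ 1 := hσ.le.trans (by norm_num)
  have key : ∀ x y : ℝ, frc (x - τ s) = frc (y - τ s) → ∃ m : ℤ, y = x + m := by
    intro x y hxy
    obtain ⟨m, hm⟩ := frc_inj hxy
    exact ⟨m, by linarith⟩
  by_cases h1 : 9 / 4 ≤ ‖z‖ ∧ 9 / 4 ≤ ‖z'‖
  · rw [Jm_mid D h hσ τ s t h1.1, Jm_mid D h hσ τ s' t' h1.2] at he
    have hne := JmB_ne (z := z) (by linarith [h1.1])
    have hne' := JmB_ne (z := z') (by linarith [h1.2])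
    obtain ⟨e1, e2, m, e3⟩ := Ab_inj D h hz (JmB_lam hσ0 hσ1 _ hs) hne.1 hne.2 hz'
      (JmB_lam hσ0 hσ1 _ hs') hne'.1 hne'.2 he
    subst e1
    have hb := lamJ_bd hσ0 hσ1 (‖z‖ ^ 2)
    have hl0 : 0 < lamJ σ (‖z‖ ^ 2) := hσ0.trans_le hb.1
    have e4 : s = s' := mul_left_cancel₀ hl0.ne' e2
    subst e4
    refine ⟨rfl, rfl, ?_⟩
    rcases le_or_gt ‖z‖ 3 with h3 | h3
    · have f1 := hf h3
      have f2 := hf' h3
      set f := frc (t - τ s) with hfd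
      set f' := frc (t' - τ s) with hfd'
      have e5 : lamJ σ (‖z‖ ^ 2) * (f' - f) = m := by linarith
      have hm : m = 0 := by
        have h8 : |(m : ℝ)| < 1 := by
          rw [← e5, abs_mul, abs_of_pos hl0]
          have h9 : |f' - f| < 1 := by
            calc |f' - f| ≤ |f'| + |f| := abs_sub _ _
              _ < 1 := by linarith
          nlinarith [abs_nonneg (f' - f)]
        have h9 : |m| < 1 := by exact_mod_cast h8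
        exact Int.abs_lt_one_iff.mp h9
      rw [hm] at e5
      have e6 : f' - f = 0 := by
        have e7 : lamJ σ (‖z‖ ^ 2) * (f' - f) = 0 := by
          rw [e5, Int.cast_zero]
        rcases mul_eq_zero.mp e7 with h9 | h9
        · exact absurd h9 hl0.ne'
        · exact h9
      exact key t t' (by rw [← hfd, ← hfd']; linarith)
    · obtain ⟨g1, g2⟩ := lamJ_out σ (q := ‖z‖ ^ 2) (by nlinarith [norm_nonneg z])
      rw [g1, g2] at e3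
      refine ⟨m + (round (t' - τ s) - round (t - τ s)), ?_⟩
      unfold frc at e3
      push_cast
      linarith
  · by_cases h2 : ‖z‖ < 5 / 2 ∧ ‖z'‖ < 5 / 2
    · rw [JmB_small D b ε₁ ε₂ σ τ s t h2.1, JmB_small D b ε₁ ε₂ σ τ s' t' h2.2] at he
      have hb := JmB_bds hσ (t - τ s) hs
      have hb' := JmB_bds hσ (t' - τ s') hs'
      have e := hσ.inj _ _ _ _ _ _ h2.1.le hb.1 hb.2 h2.2.le hb'.1 hb'.2 he
      simp only [Prod.mk.injEq] at e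
      obtain ⟨e1, e2, e3⟩ := e
      have e4 : s = s' := mul_left_cancel₀ hσ0.ne' e2
      subst e4
      exact ⟨e1, rfl, key t t' (mul_left_cancel₀ hσ0.ne' e3)⟩
    · exfalso
      rcases lt_or_ge ‖z‖ (9 / 4) with h3 | h3
      · have h4 : 5 / 2 ≤ ‖z'‖ := by
          by_contra hc
          push Not at hc
          exact h2 ⟨by linarith, hc⟩
        exact JmB_mixed D h hσ τ hs hs' h3 h4 hz' he
      · have h4 : ‖z'‖ < 9 / 4 := by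
          by_contra hc
          push Not at hc
          exact h1 ⟨h3, hc⟩
        have h5 : 5 / 2 ≤ ‖z‖ := by
          by_contra hc
          push Not at hc
          exact h2 ⟨hc, by linarith⟩
        exact JmB_mixed D h hσ τ hs' hs h4 h5 hz he.symm

end Pool.Agent.RBM
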