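import Pool.Agent.RBM.Defs
import Pool.Agent.RSG.ExM

/-!
# RBM/DtM: the double rotation   (difficulty 2)

Write `ex θ = C + i S`, `C² + S² = 1`.
* `Ti_inv`, `Ti_norm`: `‖x.1‖² + x.2²` is preserved (`‖x.1‖² = re² + im²`).  `Rz_norm`: `‖(Rz θ x).1‖ = ‖x.1‖`.
* `Hf_inv`: if `a = 1`, `Hf a` depends only on `‖x.1‖² + x.2²`; if `ψ = 0`, `Ti 0 = id` and `Hf a` depends only on `‖x.1‖`, `x.2`.
* `Dt_inv`: put `h = Hf a x`, `x₁ = Ti ψ (Rz h (Ti (-ψ) x))`, `Hf a x₁ = h`, `x₂ = Rz h x₁`, `Hf a x₂ = h`.  The inverse is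
  `Dt' a ψ x = Ti ψ (Rz (-h) (Ti (-ψ) (Rz (-h) x)))`, `h = Hf a x`; state and prove both compositions.
* `Dt_half`: `ψ = 1/2`: `ex (1/2) = -1`, `Ti (1/2) x = Ti (-1/2) x = (⟨-re, im⟩, -u)`, so `Ti (1/2) Rz h Ti (-1/2) = Rz (-h)`.
* `Dt_in`: `‖x.1‖² + x.2² ≤ 1849/10000`: then `Hf a x = 1`, `ex 1 = 1`.
* `Dt_out`: `144/625 ≤ ‖x.1‖²`: `Hf a x = 0`.
* `Dt_cyl`: `ψ = 0`: `Dt a 0 x = (ex (2 Hf a x) x.1, x.2)`.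
* `Dt_high`: `a = 1`, `144/625 ≤ x.2²`: `Hf 1 x = 0`, `Dt = id`.
* `Dt_abs`: `a = 1 ∨ ψ = 0`, `|x.2| < 1/2` implies `|(Dt a ψ x).2| < 1/2`: `ψ = 0`: `x.2` is not changed.  `a = 1`: if
  `‖x.1‖² + x.2² ≥ 144/625` then `Dt = id`, otherwise `(Dt x).2² ≤ ‖x.1‖² + x.2² < 144/625 < 1/4`.
-/

open scoped Manifold ContDiff Topology
open Set Filter
open Complex (I)

namespace Pool.Agent.RBM

noncomputable def Dt' (a ψ : ℝ) (x : ℂ × ℝ) : ℂ × ℝ :=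
  Ti ψ (Rz (-Hf a x) (Ti (-ψ) (Rz (-Hf a x) x)))

theorem DtM_mk {E : Type*} [NormedAddCommGroup E] [NormedSpace ℝ E] {f g : E → ℝ}
    (hf : ContDiff ℝ ∞ f) (hg : ContDiff ℝ ∞ g) : ContDiff ℝ ∞ fun x => (⟨f x, g x⟩ : ℂ) :=
  Complex.equivRealProdCLM.symm.contDiff.comp (hf.prodMk hg)

theorem DtM_Ti {E : Type*} [NormedAddCommGroup E] [NormedSpace ℝ E] {f : E → ℝ} {g : E → ℂ × ℝ}
    (hf : ContDiff ℝ ∞ f) (hg : ContDiff ℝ ∞ g) : ContDiff ℝ ∞ fun x => Ti (f x) (g x) := by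
  have he : ContDiff ℝ ∞ fun x => RSG.ex (f x) := RSG.ex_smooth.comp hf
  have h1 : ContDiff ℝ ∞ fun x => (RSG.ex (f x)).re := Complex.reCLM.contDiff.comp he
  have h2 : ContDiff ℝ ∞ fun x => (RSG.ex (f x)).im := Complex.imCLM.contDiff.comp he
  have g1 : ContDiff ℝ ∞ fun x => (g x).1 := contDiff_fst.comp hg
  have g2 : ContDiff ℝ ∞ fun x => (g x).2 := contDiff_snd.comp hg
  have g3 : ContDiff ℝ ∞ fun x => (g x).1.re := Complex.reCLM.contDiff.comp g1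
  have g4 : ContDiff ℝ ∞ fun x => (g x).1.im := Complex.imCLM.contDiff.comp g1
  unfold Ti
  exact (DtM_mk ((h1.mul g3).add (h2.mul g2)) g4).prodMk ((h2.neg.mul g3).add (h1.mul g2))

theorem DtM_Rz {E : Type*} [NormedAddCommGroup E] [NormedSpace ℝ E] {f : E → ℝ} {g : E → ℂ × ℝ}
    (hf : ContDiff ℝ ∞ f) (hg : ContDiff ℝ ∞ g) : ContDiff ℝ ∞ fun x => Rz (f x) (g x) := by
  have he : ContDiff ℝ ∞ fun x => RSG.ex (f x) := RSG.ex_smooth.comp hf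
  have g1 : ContDiff ℝ ∞ fun x => (g x).1 := contDiff_fst.comp hg
  have g2 : ContDiff ℝ ∞ fun x => (g x).2 := contDiff_snd.comp hg
  unfold Rz
  exact (he.mul g1).prodMk g2

theorem DtM_Hf {E : Type*} [NormedAddCommGroup E] [NormedSpace ℝ E] {f : E → ℝ} {g : E → ℂ × ℝ}
    (hf : ContDiff ℝ ∞ f) (hg : ContDiff ℝ ∞ g) : ContDiff ℝ ∞ fun x => Hf (f x) (g x) := by
  have g1 : ContDiff ℝ ∞ fun x => (g x).1 := contDiff_fst.comp hg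
  have g2 : ContDiff ℝ ∞ fun x => (g x).2 := contDiff_snd.comp hg
  have g3 : ContDiff ℝ ∞ fun x => ‖(g x).1‖ ^ 2 := (contDiff_norm_sq ℝ).comp g1
  have g4 : ContDiff ℝ ∞ fun x => ‖(g x).1‖ ^ 2 + (g x).2 ^ 2 := g3.add (g2.pow 2)
  have s1 : ContDiff ℝ ∞ fun x => CSG.stp (1849 / 10000) (144 / 625) (‖(g x).1‖ ^ 2) :=
    (CSG.stp_smooth _ _).comp g3
  have s2 : ContDiff ℝ ∞ fun x => CSG.stp (1849 / 10000) (144 / 625) (‖(g x).1‖ ^ 2 + (g x).2 ^ 2) :=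
    (CSG.stp_smooth _ _).comp g4
  unfold Hf
  exact ((contDiff_const.sub hf).mul (contDiff_const.sub s1)).add
    (hf.mul (contDiff_const.sub s2))

theorem Dt_smooth : ContDiff ℝ ∞ fun q : ℝ × ℝ × ℂ × ℝ => Dt q.1 q.2.1 q.2.2 := by
  have ha : ContDiff ℝ ∞ fun q : ℝ × ℝ × ℂ × ℝ => q.1 := contDiff_fst
  have hp : ContDiff ℝ ∞ fun q : ℝ × ℝ × ℂ × ℝ => q.2.1 := contDiff_fst.comp contDiff_snd
  have hx : ContDiff ℝ ∞ fun q : ℝ × ℝ × ℂ × ℝ => q.2.2 := contDiff_snd.comp contDiff_snd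
  have hh := DtM_Hf ha hx
  unfold Dt
  exact DtM_Rz hh (DtM_Ti hp (DtM_Rz hh (DtM_Ti hp.neg hx)))

theorem Dt'_smooth : ContDiff ℝ ∞ fun q : ℝ × ℝ × ℂ × ℝ => Dt' q.1 q.2.1 q.2.2 := by
  have ha : ContDiff ℝ ∞ fun q : ℝ × ℝ × ℂ × ℝ => q.1 := contDiff_fst
  have hp : ContDiff ℝ ∞ fun q : ℝ × ℝ × ℂ × ℝ => q.2.1 := contDiff_fst.comp contDiff_snd
  have hx : ContDiff ℝ ∞ fun q : ℝ × ℝ × ℂ × ℝ => q.2.2 := contDiff_snd.comp contDiff_snd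
  have hh := DtM_Hf ha hx
  unfold Dt'
  exact DtM_Ti hp (DtM_Rz hh.neg (DtM_Ti hp.neg (DtM_Rz hh.neg hx)))

theorem DtM_sq (z : ℂ) : ‖z‖ ^ 2 = z.re ^ 2 + z.im ^ 2 := by
  rw [Complex.sq_norm, Complex.normSq_apply]
  ring

theorem DtM_cs (θ : ℝ) : (RSG.ex θ).re ^ 2 + (RSG.ex θ).im ^ 2 = 1 := by
  rw [← DtM_sq, RSG.ex_norm]
  norm_num

theorem DtM_re (θ : ℝ) : (RSG.ex (-θ)).re = (RSG.ex θ).re := by
  rw [RSG.ex_neg, Complex.conj_re]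

theorem DtM_im (θ : ℝ) : (RSG.ex (-θ)).im = -(RSG.ex θ).im := by
  rw [RSG.ex_neg, Complex.conj_im]

theorem Ti_inv (θ : ℝ) (x : ℂ × ℝ) : Ti θ (Ti (-θ) x) = x := by
  have h := DtM_cs θ
  unfold Ti
  rw [DtM_re, DtM_im]
  refine Prod.ext (Complex.ext ?_ rfl) ?_
  · show (RSG.ex θ).re * ((RSG.ex θ).re * x.1.re + -(RSG.ex θ).im * x.2) +
      (RSG.ex θ).im * (- -(RSG.ex θ).im * x.1.re + (RSG.ex θ).re * x.2) = x.1.re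
    linear_combination x.1.re * h
  · show -(RSG.ex θ).im * ((RSG.ex θ).re * x.1.re + -(RSG.ex θ).im * x.2) +
      (RSG.ex θ).re * (- -(RSG.ex θ).im * x.1.re + (RSG.ex θ).re * x.2) = x.2
    linear_combination x.2 * h

theorem Ti_inv' (θ : ℝ) (x : ℂ × ℝ) : Ti (-θ) (Ti θ x) = x := by
  have := Ti_inv (-θ) x
  rwa [neg_neg] at this

theorem Ti_norm (θ : ℝ) (x : ℂ × ℝ) :
    ‖(Ti θ x).1‖ ^ 2 + (Ti θ x).2 ^ 2 = ‖x.1‖ ^ 2 + x.2 ^ 2 := by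
  have h := DtM_cs θ
  rw [DtM_sq, DtM_sq]
  show ((RSG.ex θ).re * x.1.re + (RSG.ex θ).im * x.2) ^ 2 + x.1.im ^ 2 +
    (-(RSG.ex θ).im * x.1.re + (RSG.ex θ).re * x.2) ^ 2 = x.1.re ^ 2 + x.1.im ^ 2 + x.2 ^ 2
  linear_combination (x.1.re ^ 2 + x.2 ^ 2) * h

theorem Ti_zero (x : ℂ × ℝ) : Ti 0 x = x := by
  unfold Ti
  rw [RSG.ex_zero]
  refine Prod.ext (Complex.ext ?_ rfl) ?_ <;> simp

theorem Rz_zero (x : ℂ × ℝ) : Rz 0 x = x := by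
  unfold Rz
  rw [RSG.ex_zero, one_mul]

theorem Rz_one (x : ℂ × ℝ) : Rz 1 x = x := by
  unfold Rz
  have := RSG.ex_int 1
  rw [Int.cast_one] at this
  rw [this, one_mul]

theorem Rz_add (s t : ℝ) (x : ℂ × ℝ) : Rz s (Rz t x) = Rz (s + t) x := by
  unfold Rz
  rw [RSG.ex_add, mul_assoc]

theorem Rz_inv (θ : ℝ) (x : ℂ × ℝ) : Rz θ (Rz (-θ) x) = x := by
  rw [Rz_add, add_neg_cancel, Rz_zero]

theorem Rz_inv' (θ : ℝ) (x : ℂ × ℝ) : Rz (-θ) (Rz θ x) = x := by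
  rw [Rz_add, neg_add_cancel, Rz_zero]

theorem Rz_norm (θ : ℝ) (x : ℂ × ℝ) : ‖(Rz θ x).1‖ = ‖x.1‖ := by
  unfold Rz
  rw [norm_mul, RSG.ex_norm, one_mul]

theorem Rz_norm2 (θ : ℝ) (x : ℂ × ℝ) :
    ‖(Rz θ x).1‖ ^ 2 + (Rz θ x).2 ^ 2 = ‖x.1‖ ^ 2 + x.2 ^ 2 := by
  rw [Rz_norm]
  rfl

theorem DtM_Hf1 {x y : ℂ × ℝ} (h : ‖x.1‖ ^ 2 + x.2 ^ 2 = ‖y.1‖ ^ 2 + y.2 ^ 2) :
    Hf 1 x = Hf 1 y := by
  unfold Hf
  rw [h]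
  ring

theorem DtM_Hf2 {a : ℝ} {x y : ℂ × ℝ} (h : ‖x.1‖ = ‖y.1‖) (h2 : x.2 = y.2) :
    Hf a x = Hf a y := by
  unfold Hf
  rw [h, h2]

theorem Dt_norm2 (a ψ : ℝ) (x : ℂ × ℝ) :
    ‖(Dt a ψ x).1‖ ^ 2 + (Dt a ψ x).2 ^ 2 = ‖x.1‖ ^ 2 + x.2 ^ 2 := by
  unfold Dt
  rw [Rz_norm2, Ti_norm, Rz_norm2, Ti_norm]

theorem Dt_cyl (a : ℝ) (x : ℂ × ℝ) : Dt a 0 x = (RSG.ex (2 * Hf a x) * x.1, x.2) := by
  unfold Dt
  rw [neg_zero, Ti_zero, Ti_zero, Rz_add, ← two_mul]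
  rfl

theorem Dt'_cyl (a : ℝ) (x : ℂ × ℝ) : Dt' a 0 x = (RSG.ex (-(2 * Hf a x)) * x.1, x.2) := by
  unfold Dt'
  rw [neg_zero, Ti_zero, Ti_zero, Rz_add, ← two_mul, mul_neg]
  rfl

theorem DtM_Hf_Dt {a ψ : ℝ} (h : a = 1 ∨ ψ = 0) (x : ℂ × ℝ) : Hf a (Dt a ψ x) = Hf a x := by
  rcases h with rfl | rfl
  · exact DtM_Hf1 (Dt_norm2 1 ψ x)
  · rw [Dt_cyl]
    apply DtM_Hf2
    · show ‖RSG.ex (2 * Hf a x) * x.1‖ = ‖x.1‖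
      rw [norm_mul, RSG.ex_norm, one_mul]
    · rfl

theorem DtM_Hf_Dt' {a ψ : ℝ} (h : a = 1 ∨ ψ = 0) (x : ℂ × ℝ) : Hf a (Dt' a ψ x) = Hf a x := by
  rcases h with rfl | rfl
  · apply DtM_Hf1
    unfold Dt'
    rw [Ti_norm, Rz_norm2, Ti_norm, Rz_norm2]
  · rw [Dt'_cyl]
    apply DtM_Hf2
    · show ‖RSG.ex (-(2 * Hf a x)) * x.1‖ = ‖x.1‖
      rw [norm_mul, RSG.ex_norm, one_mul]
    · rfl

theorem Dt_inv {a ψ : ℝ} (h : a = 1 ∨ ψ = 0) (x : ℂ × ℝ) : Dt' a ψ (Dt a ψ x) = x := by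
  have h1 := DtM_Hf_Dt h x
  unfold Dt'
  rw [h1]
  unfold Dt
  rw [Rz_inv', Ti_inv', Rz_inv', Ti_inv]

theorem Dt_inv' {a ψ : ℝ} (h : a = 1 ∨ ψ = 0) (x : ℂ × ℝ) : Dt a ψ (Dt' a ψ x) = x := by
  have h1 := DtM_Hf_Dt' h x
  unfold Dt
  rw [h1]
  unfold Dt'
  rw [Ti_inv', Rz_inv, Ti_inv, Rz_inv]

theorem Dt_half (x : ℂ × ℝ) : Dt 1 (1 / 2) x = x := by
  have e1 : RSG.ex (-(1 / 2)) = -1 := by
    rw [RSG.ex_neg, RSG.ex_half]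
    simp
  have h1 : ∀ y : ℂ × ℝ, Ti (1 / 2) y = (⟨-y.1.re, y.1.im⟩, -y.2) := by
    intro y
    unfold Ti
    rw [RSG.ex_half]
    refine Prod.ext (Complex.ext ?_ rfl) ?_ <;> simp
  have h2 : ∀ y : ℂ × ℝ, Ti (-(1 / 2)) y = (⟨-y.1.re, y.1.im⟩, -y.2) := by
    intro y
    unfold Ti
    rw [e1]
    refine Prod.ext (Complex.ext ?_ rfl) ?_ <;> simp
  have h3 : Ti (1 / 2) (Rz (Hf 1 x) (Ti (-(1 / 2)) x)) = Rz (-Hf 1 x) x := by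
    rw [h2, h1]
    unfold Rz
    rw [RSG.ex_neg]
    refine Prod.ext (Complex.ext ?_ ?_) ?_
    · simp
      ring
    · simp
    · simp
  unfold Dt
  rw [h3, Rz_inv]

theorem Dt_in (a ψ : ℝ) {x : ℂ × ℝ} (h : ‖x.1‖ ^ 2 + x.2 ^ 2 ≤ 1849 / 10000) : Dt a ψ x = x := by
  have h1 : Hf a x = 1 := by
    unfold Hf
    rw [CSG.stp_zero (by norm_num) h, CSG.stp_zero (by norm_num)
      (le_trans (le_add_of_nonneg_right (sq_nonneg _)) h)]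
    ring
  unfold Dt
  rw [h1, Rz_one, Rz_one, Ti_inv]

theorem Dt_out (a ψ : ℝ) {x : ℂ × ℝ} (h : 144 / 625 ≤ ‖x.1‖ ^ 2) : Dt a ψ x = x := by
  have h1 : Hf a x = 0 := by
    unfold Hf
    rw [CSG.stp_one (by norm_num) h, CSG.stp_one (by norm_num)
      (le_trans h (le_add_of_nonneg_right (sq_nonneg _)))]
    ring
  unfold Dt
  rw [h1, Rz_zero, Rz_zero, Ti_inv]

theorem Dt_high (ψ : ℝ) {x : ℂ × ℝ} (h : 144 / 625 ≤ x.2 ^ 2) : Dt 1 ψ x = x := by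
  have h1 : Hf 1 x = 0 := by
    unfold Hf
    rw [CSG.stp_one (a := 1849 / 10000) (b := 144 / 625) (x := ‖x.1‖ ^ 2 + x.2 ^ 2) (by norm_num)
      (le_trans h (le_add_of_nonneg_left (sq_nonneg _)))]
    ring
  unfold Dt
  rw [h1, Rz_zero, Rz_zero, Ti_inv]

theorem DtM_out2 (ψ : ℝ) {x : ℂ × ℝ} (h : 144 / 625 ≤ ‖x.1‖ ^ 2 + x.2 ^ 2) : Dt 1 ψ x = x := by
  have h1 : Hf 1 x = 0 := by
    unfold Hf
    rw [CSG.stp_one (a := 1849 / 10000) (b := 144 / 625) (x := ‖x.1‖ ^ 2 + x.2 ^ 2) (by norm_num)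
      h]
    ring
  unfold Dt
  rw [h1, Rz_zero, Rz_zero, Ti_inv]

theorem Dt_abs {a ψ : ℝ} (h : a = 1 ∨ ψ = 0) {x : ℂ × ℝ} (hx : |x.2| < 1 / 2) :
    |(Dt a ψ x).2| < 1 / 2 := by
  rcases h with rfl | rfl
  · rcases le_or_gt (144 / 625) (‖x.1‖ ^ 2 + x.2 ^ 2) with h1 | h1
    · rw [DtM_out2 ψ h1]
      exact hx
    · have h2 := Dt_norm2 1 ψ x
      have h3 : (Dt 1 ψ x).2 ^ 2 < (1 / 2) ^ 2 := by
        have := sq_nonneg ‖(Dt 1 ψ x).1‖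
        norm_num
        linarith
      exact abs_lt_of_sq_lt_sq h3 (by norm_num)
  · rw [Dt_cyl]
    exact hx

end Pool.Agent.RBM
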