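import Pool.Agent.RBM.Defs
import Pool.Agent.RBM.StepL

/-!
# RBM/EvM: the small translation `Ev`   (difficulty 3)

`Ev v y = y + (f y) v`, `f y = 1 - stp (1/16) (9/16) (‖y‖²)`, `‖v‖ ≤ 1/50`.
`S = Real.smoothTransition` has `|S'| ≤ 8` (`StepLip_deriv`, `stp_lip`), so `x ↦ stp (1/16) (9/16) x = S ((x - 1/16)/(1/2))` is Lipschitz with
constant `16`.  `f` is Lipschitz with constant `24`: if `‖y‖, ‖y'‖ ≤ 3/4`, `|‖y‖² - ‖y'‖²| ≤ (3/2) ‖y - y'‖`, so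
`|f y - f y'| ≤ 24 ‖y - y'‖`; if both norms are `≥ 3/4` then `f y = f y' = 0`; if `‖y‖ < 3/4 ≤ ‖y'‖` then `f y' = 0 =
1 - stp (9/16)`, `|f y - 0| ≤ 16 |9/16 - ‖y‖²| = 16 (3/4 - ‖y‖)(3/4 + ‖y‖) ≤ 24 (‖y'‖ - ‖y‖)`.
So `y ↦ f y • v` is a contraction with constant `24/50`:
* `Ev_inj`; `Ev_surj`: for given `x` the map `y ↦ x - f y v` is a contraction of `ℂ`, its fixed point is the preimage
  (`ContractingWith.fixedPoint`).
* `Ev_fderiv`: the derivative of `y ↦ f y v` has norm `≤ 24/50` (`norm_fderiv_le_of_lipschitz`), so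
  `fderiv (Ev v) y u = u + ..`, of norm `≥ (1 - 24/50) ‖u‖`.
* `Ev_smooth`: clear (`stp_smooth`).
* `Ev_low`: `‖y‖ ≤ 1/4`.  `Ev_out`: `3/4 ≤ ‖y‖`.  `Ev_zero`: `v = 0`.
-/

open scoped Manifold ContDiff Topology
open Set Filter
open Complex (I)

namespace Pool.Agent.RBM

open Pool.Agent.CSG (stp stp_smooth stp_zero stp_one)

/-- the cutoff -/
noncomputable def EvM_f (y : ℂ) : ℝ := 1 - stp (1 / 16) (9 / 16) (‖y‖ ^ 2)

theorem EvM_ev (v y : ℂ) : Ev v y = y + (EvM_f y : ℂ) * v := rfl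

theorem EvM_min (r : ℝ) :
    stp (1 / 16) (9 / 16) (r ^ 2) = stp (1 / 16) (9 / 16) ((min |r| (3 / 4)) ^ 2) := by
  rcases le_total |r| (3 / 4) with h | h
  · rw [min_eq_left h, sq_abs]
  · rw [min_eq_right h]
    have h1 : 9 / 16 ≤ r ^ 2 := by
      rw [← sq_abs]; nlinarith
    rw [stp_one (by norm_num) h1, stp_one (by norm_num) (by norm_num)]

theorem EvM_lip (y y' : ℂ) : |EvM_f y - EvM_f y'| ≤ 24 * ‖y - y'‖ := by
  have e : EvM_f y - EvM_f y' = -(stp (1 / 16) (9 / 16) ((min |‖y‖| (3 / 4)) ^ 2) -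
      stp (1 / 16) (9 / 16) ((min |‖y'‖| (3 / 4)) ^ 2)) := by
    unfold EvM_f
    rw [EvM_min ‖y‖, EvM_min ‖y'‖]; ring
  rw [e, abs_neg]
  have h1 := stp_lip (a := 1 / 16) (b := 9 / 16) (by norm_num) ((min |‖y‖| (3 / 4)) ^ 2)
    ((min |‖y'‖| (3 / 4)) ^ 2)
  rw [abs_norm, abs_norm] at *
  set a := min ‖y‖ (3 / 4) with ha
  set b := min ‖y'‖ (3 / 4) with hb
  have ha0 : 0 ≤ a := le_min (norm_nonneg _) (by norm_num)
  have hb0 : 0 ≤ b := le_min (norm_nonneg _) (by norm_num)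
  have ha1 : a ≤ 3 / 4 := min_le_right _ _
  have hb1 : b ≤ 3 / 4 := min_le_right _ _
  have hab : |a - b| ≤ ‖y - y'‖ := by
    have h2 : |a - b| ≤ |‖y‖ - ‖y'‖| := by
      have := abs_min_sub_min_le_max ‖y‖ (3 / 4) ‖y'‖ (3 / 4)
      rw [sub_self, abs_zero, max_eq_left (abs_nonneg _)] at this
      exact this
    exact h2.trans (abs_norm_sub_norm_le y y')
  have h3 : |a ^ 2 - b ^ 2| = |a - b| * (a + b) := by
    have : a ^ 2 - b ^ 2 = (a - b) * (a + b) := by ring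
    rw [this, abs_mul, abs_of_nonneg (by linarith : 0 ≤ a + b)]
  have h4 : (8 : ℝ) / (9 / 16 - 1 / 16) = 16 := by norm_num
  rw [h4, h3] at h1
  have h5 : |a - b| * (a + b) ≤ ‖y - y'‖ * (3 / 2) :=
    mul_le_mul hab (by linarith) (by linarith) (norm_nonneg _)
  linarith

theorem EvM_dist {v : ℂ} (hv : ‖v‖ ≤ 1 / 50) (y y' : ℂ) :
    ‖(EvM_f y : ℂ) * v - (EvM_f y' : ℂ) * v‖ ≤ 24 / 50 * ‖y - y'‖ := by
  rw [← sub_mul, norm_mul, ← Complex.ofReal_sub, Complex.norm_real, Real.norm_eq_abs]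
  have h1 := EvM_lip y y'
  have h2 : |EvM_f y - EvM_f y'| * ‖v‖ ≤ (24 * ‖y - y'‖) * (1 / 50) :=
    mul_le_mul h1 hv (norm_nonneg _) (by positivity)
  linarith

theorem EvM_lipW {v : ℂ} (hv : ‖v‖ ≤ 1 / 50) :
    LipschitzWith (24 / 50) fun y : ℂ => (EvM_f y : ℂ) * v := by
  apply LipschitzWith.of_dist_le_mul
  intro y y'
  rw [dist_eq_norm, dist_eq_norm]
  have := EvM_dist hv y y'
  simpa using this

theorem EvM_smf : ContDiff ℝ ∞ EvM_f := by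
  unfold EvM_f
  exact contDiff_const.sub ((stp_smooth _ _).comp (contDiff_norm_sq ℝ))

theorem Ev_smooth : ContDiff ℝ ∞ fun q : ℂ × ℂ => Ev q.1 q.2 := by
  have h : ContDiff ℝ ∞ fun q : ℂ × ℂ => q.2 + (EvM_f q.2 : ℂ) * q.1 :=
    contDiff_snd.add
      ((Complex.ofRealCLM.contDiff.comp (EvM_smf.comp contDiff_snd)).mul contDiff_fst)
  exact h

theorem Ev_bij {v : ℂ} (hv : ‖v‖ ≤ 1 / 50) : Function.Bijective (Ev v) := by
  constructor
  · intro y y' h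
    rw [EvM_ev, EvM_ev] at h
    have h1 : y - y' = -((EvM_f y : ℂ) * v - (EvM_f y' : ℂ) * v) := by
      linear_combination h
    have h2 := EvM_dist hv y y'
    rw [← norm_neg ((EvM_f y : ℂ) * v - (EvM_f y' : ℂ) * v), ← h1] at h2
    have h3 : ‖y - y'‖ ≤ 0 := by linarith
    exact sub_eq_zero.1 (norm_le_zero_iff.1 h3)
  · intro x
    have hc : ContractingWith (24 / 50) fun y : ℂ => x - (EvM_f y : ℂ) * v := by
      refine ⟨?_, ?_⟩
      · rw [← NNReal.coe_lt_coe]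
        push_cast
        norm_num
      · apply LipschitzWith.of_dist_le_mul
        intro y y'
        rw [dist_eq_norm, dist_eq_norm]
        have h1 : x - (EvM_f y : ℂ) * v - (x - (EvM_f y' : ℂ) * v) =
            -((EvM_f y : ℂ) * v - (EvM_f y' : ℂ) * v) := by ring
        have := EvM_dist hv y y'
        rw [h1, norm_neg]
        simpa using this
    refine ⟨hc.fixedPoint _, ?_⟩
    have h1 := hc.fixedPoint_isFixedPt
    have h2 : x - (EvM_f (hc.fixedPoint _) : ℂ) * v = hc.fixedPoint _ := h1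
    rw [EvM_ev]
    linear_combination -h2

theorem Ev_fderiv {v : ℂ} (hv : ‖v‖ ≤ 1 / 50) (y u : ℂ) (h : fderiv ℝ (Ev v) y u = 0) : u = 0 := by
  have hd : DifferentiableAt ℝ (fun y : ℂ => (EvM_f y : ℂ) * v) y := by
    have h1 : ContDiff ℝ ∞ fun y : ℂ => (EvM_f y : ℂ) * v :=
      (Complex.ofRealCLM.contDiff.comp EvM_smf).mul contDiff_const
    exact (h1.differentiable (by simp)) y
  have h1 : fderiv ℝ (Ev v) y = ContinuousLinearMap.id ℝ ℂ +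
      fderiv ℝ (fun y : ℂ => (EvM_f y : ℂ) * v) y := by
    have h2 : Ev v = fun y : ℂ => y + (EvM_f y : ℂ) * v := by
      funext z; exact EvM_ev v z
    rw [h2]
    exact ((hasFDerivAt_id y).add hd.hasFDerivAt).fderiv
  rw [h1] at h
  have h2 : u + fderiv ℝ (fun y : ℂ => (EvM_f y : ℂ) * v) y u = 0 := h
  have h3 : ‖fderiv ℝ (fun y : ℂ => (EvM_f y : ℂ) * v) y‖ ≤ ((24 / 50 : NNReal) : ℝ) :=
    norm_fderiv_le_of_lipschitz ℝ (EvM_lipW hv)
  have h4 := ContinuousLinearMap.le_opNorm (fderiv ℝ (fun y : ℂ => (EvM_f y : ℂ) * v) y) u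
  have h5 : u = -(fderiv ℝ (fun y : ℂ => (EvM_f y : ℂ) * v) y u) := by
    linear_combination h2
  have h6 : ‖u‖ = ‖fderiv ℝ (fun y : ℂ => (EvM_f y : ℂ) * v) y u‖ := by
    conv_lhs => rw [h5, norm_neg]
  have h7 : ((24 / 50 : NNReal) : ℝ) = 24 / 50 := by push_cast; rfl
  rw [h7] at h3
  have h8 : ‖u‖ ≤ 24 / 50 * ‖u‖ := by
    calc ‖u‖ = _ := h6
      _ ≤ _ := h4
      _ ≤ _ := mul_le_mul_of_nonneg_right h3 (norm_nonneg _)
  have h9 : ‖u‖ ≤ 0 := by linarith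
  exact norm_le_zero_iff.1 h9

theorem Ev_low (v : ℂ) {y : ℂ} (h : ‖y‖ ≤ 1 / 4) : Ev v y = y + v := by
  have h1 : EvM_f y = 1 := by
    unfold EvM_f
    rw [stp_zero (by norm_num) (by nlinarith [norm_nonneg y]), sub_zero]
  rw [EvM_ev, h1]
  simp

theorem Ev_out (v : ℂ) {y : ℂ} (h : 3 / 4 ≤ ‖y‖) : Ev v y = y := by
  have h1 : EvM_f y = 0 := by
    unfold EvM_f
    rw [stp_one (by norm_num) (by nlinarith [norm_nonneg y]), sub_self]
  rw [EvM_ev, h1]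
  simp

theorem Ev_zero (y : ℂ) : Ev 0 y = y := by
  rw [EvM_ev]; simp

end Pool.Agent.RBM
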