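import Pool.Agent.RBM.WcM
import Pool.Agent.RSG.ExM

/-!
# RBM/TauM: the function `τ`   (difficulty 2)

* `tau_smooth`: finite sum of smooth functions (`((x - β)/ρ)²` smooth, `stp_smooth`).
* `beta_dist`: let `i ≠ i'`, `ς = ±1`.  The pieces are disjoint: suppose `|β i - β i'| < ρ i + ρ i'`.  Then there are `s, s'` with
  `|s|, |s'| < 1` and `β i + ς i ρ i s = β i' + ς i' ρ i' s'` (the two open intervals meet).  Then
  `d (c i, s, - sh i) = b (0, x, 0) = d (c i', s', - sh i')` (`piece` with `y = c i`: `cj _ 0 = 0`), and `box.inj` gives `c i = c i'`, against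
  `dist` (`η > 0`).
* `tau_val`: `|x - β i| ≤ ρ i / 4`: the term of `i` is `hh i + sh i`; for `i' ≠ i`: `|x - β i'| ≥ ρ i + ρ i' - ρ i/4 ≥ ρ i'/2`, the term is `0`.
* `tau_piece`: `|s| ≤ 1/4`.
-/

open scoped Manifold ContDiff Topology
open Set Filter
open Complex (I)

namespace Pool.Agent.RBM

variable {E : Type*} [NormedAddCommGroup E] [NormedSpace ℝ E] {H : Type*} [TopologicalSpace H]
  {J : ModelWithCorners ℝ E H}
  {P : Type*} [TopologicalSpace P] [ChartedSpace H P] {κ : ℝ × ℂ × ℝ → P} {b d : ℂ × ℝ × ℝ → P}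
  {r : ℝ} {k : ℕ} {c μ : Fin k → ℂ} {β ς sh η ρ : Fin k → ℝ}

theorem tau_smooth (β sh ρ : Fin k → ℝ) : ContDiff ℝ ∞ (tau β sh ρ) := by
  unfold tau
  apply ContDiff.sum
  intro i _
  refine contDiff_const.mul (contDiff_const.sub ?_)
  apply (CSG.stp_smooth _ _).comp (f := fun x : ℝ => ((x - β i) / ρ i) ^ 2)
  exact ((contDiff_id.sub contDiff_const).div_const _).pow 2

theorem beta_dist (hp : Pieces J κ b d r c μ β ς sh η ρ) {i i' : Fin k} (h : i ≠ i') :
    ρ i + ρ i' ≤ |β i - β i'| := by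
  by_contra hcon
  push Not at hcon
  have hρ := hp.rho i
  have hρ' := hp.rho i'
  have hs : 0 < ρ i + ρ i' := by linarith
  set u : ℝ := (β i' - β i) / (ρ i + ρ i') with hu
  have hu1 : |u| < 1 := by
    rw [hu, abs_div, abs_of_pos hs, div_lt_one hs, abs_sub_comm]
    exact hcon
  have hς : ∀ l, ς l * ς l = 1 := by
    intro l
    rcases hp.sign l with h | h <;> rw [h] <;> norm_num
  have hςa : ∀ l, |ς l| = 1 := by
    intro l
    rcases hp.sign l with h | h <;> rw [h] <;> norm_num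
  have hnorm : ∀ l, ‖c l‖ < r := by
    intro l
    have h1 := hp.small l
    have h2 := hp.eta l
    linarith
  have hs1 : |ς i * u| < 1 := by rw [abs_mul, hςa, one_mul]; exact hu1
  have hs2 : |-(ς i' * u)| < 1 := by rw [abs_neg, abs_mul, hςa, one_mul]; exact hu1
  have hc0 : ∀ l, ‖c l - c l‖ < 4 * η l := by
    intro l
    rw [sub_self, norm_zero]
    have := hp.eta l
    linarith
  have e1 := hp.piece i (c i) (ς i * u) (-sh i) (hc0 i) hs1
  have e2 := hp.piece i' (c i') (-(ς i' * u)) (-sh i') (hc0 i') hs2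
  have hz : ∀ l, RSG.cj (ς l) ((c l - c l) / μ l) = 0 := by
    intro l
    rw [sub_self, zero_div]
    exact RSG.cj_zero _
  rw [hz, neg_add_cancel] at e1 e2
  have e3 : β i + ς i * ρ i * (ς i * u) = β i' + ς i' * ρ i' * -(ς i' * u) := by
    have h1 : β i + ς i * ρ i * (ς i * u) = β i + (ς i * ς i) * (ρ i * u) := by ring
    have h2 : β i' + ς i' * ρ i' * -(ς i' * u) = β i' - (ς i' * ς i') * (ρ i' * u) := by ring
    rw [h1, h2, hς, hς, hu]
    field_simp
    ring
  rw [e3, ← e2] at e1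
  have h3 := (hp.box.inj _ _ _ _ _ _ (hnorm i) hs1 (hnorm i') hs2 e1).1
  have h4 := hp.dist i i' h
  rw [h3, sub_self, norm_zero] at h4
  have h5 := hp.eta i
  have h6 := hp.eta i'
  linarith

theorem tau_val (hp : Pieces J κ b d r c μ β ς sh η ρ) {i : Fin k} {x : ℝ} (h : |x - β i| ≤ ρ i / 4) :
    tau β sh ρ x = hh k i + sh i := by
  have hρ := hp.rho i
  unfold tau
  rw [Finset.sum_eq_single i]
  · have h1 : ((x - β i) / ρ i) ^ 2 ≤ 1 / 16 := by
      have h2 : |(x - β i) / ρ i| ≤ 1 / 4 := by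
        rw [abs_div, abs_of_pos hρ, div_le_iff₀ hρ]
        linarith
      rw [← sq_abs]
      nlinarith [abs_nonneg ((x - β i) / ρ i)]
    rw [CSG.stp_zero (by norm_num) h1]
    ring
  · intro i' _ hi'
    have hρ' := hp.rho i'
    have h1 : 1 / 4 ≤ ((x - β i') / ρ i') ^ 2 := by
      have h2 : 1 / 2 ≤ |(x - β i') / ρ i'| := by
        rw [abs_div, abs_of_pos hρ', le_div_iff₀ hρ']
        have h3 := beta_dist hp hi'
        have h4 : |β i' - β i| ≤ |x - β i| + |x - β i'| := by
          have := abs_sub (x - β i) (x - β i')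
          have e : x - β i - (x - β i') = β i' - β i := by ring
          rwa [e] at this
        linarith
      rw [← sq_abs]
      nlinarith [abs_nonneg ((x - β i') / ρ i')]
    rw [CSG.stp_one (by norm_num) h1]
    ring
  · intro h
    exact absurd (Finset.mem_univ i) h

theorem tau_piece (hp : Pieces J κ b d r c μ β ς sh η ρ) (i : Fin k) {s : ℝ} (h : |s| ≤ 1 / 4) :
    tau β sh ρ (β i + ς i * ρ i * s) = hh k i + sh i := by
  apply tau_val hp
  have hρ := hp.rho i
  have e : β i + ς i * ρ i * s - β i = ς i * ρ i * s := by ring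
  have hςa : |ς i| = 1 := by
    rcases hp.sign i with h | h <;> rw [h] <;> norm_num
  rw [e, abs_mul, abs_mul, hςa, one_mul, abs_of_pos hρ]
  nlinarith

end Pool.Agent.RBM
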