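import Pool.Agent.RBM.JmB
import Pool.Agent.RBM.TauM

/-!
# RBM/JdA: the map `J` in the box `d`   (difficulty 3)

`Jd_piece`: `‖y - c i‖ < 4 η i`, `|s| < 1`: if some index `i'` has `‖y - c i'‖ ≤ 7/2 η i'` then `i' = i` (`dist`: `‖c i - c i'‖ < 4 η i + 4 η i'`), so the
definition gives the claim.  Otherwise `Jd = D.A (d a) = D.A (b (..))` (`piece`) with `‖(y - c i)/μ i‖ ≥ 7/2 ≥ 3`: `Jm_out`
(`cj` preserves the norm for `ς = ±1`).
`Jd_off`: `3 η i ≤ ‖y - c i‖` for all `i`: the same (`piece`, `Jm_out`; here `‖(y - c i)/μ i‖ ≥ 3`).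
`Ud_dom`: for `(y, s, t) ∈ Ud`, `‖y - c i‖ < 4 η i`: the point `(cj (ς i) ((y - c i)/μ i), β i + ς i ρ i s, t + sh i)` is in `DomJ (tau β sh ρ) (dl k)`: norm `< 4`;
`|β i + ς i ρ i s| ≤ |β i| + ρ i |s| < 1`; if the norm is `≤ 3` then `‖y - c i‖ ≤ 3 η i` and `t + sh i - tau = t - hh i` (`tau_piece`).
`Jd_per`: `Jm_per`, `hp.box.per`.
-/

open scoped Manifold ContDiff Topology
open Set Filter
open Complex (I)
open Pool.Agent.RSG (E4 S4 ex cj c1 c2 ht fh Vx)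

namespace Pool.Agent.RBM

variable {E : Type*} [NormedAddCommGroup E] [NormedSpace ℝ E] {H : Type*} [TopologicalSpace H]
  {J : ModelWithCorners ℝ E H}
  {P : Type*} [TopologicalSpace P] [ChartedSpace H P] {κ : ℝ × ℂ × ℝ → P} {b d : ℂ × ℝ × ℝ → P}
  {X : Type*} [TopologicalSpace X] [ChartedSpace E4 X] {n j : ℤ} {ε₁ ε₂ σ : ℝ}
  {r : ℝ} {k : ℕ} {c μ : Fin k → ℂ} {β ς sh η ρ : Fin k → ℝ}

theorem JdA_norm (hp : Pieces J κ b d r c μ β ς sh η ρ) (i : Fin k) (y : ℂ) :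
    ‖cj (ς i) ((y - c i) / μ i)‖ = ‖y - c i‖ / η i := by
  rw [RSG.cj_norm (hp.sign i), norm_div, hp.mu i]

theorem JdA_uniq (hp : Pieces J κ b d r c μ β ς sh η ρ) {i i' : Fin k} {y : ℂ}
    (hy : ‖y - c i‖ < 4 * η i) (hy' : ‖y - c i'‖ ≤ 4 * η i') : i' = i := by
  by_contra hne
  have h1 := hp.dist i i' (Ne.symm hne)
  have h2 : ‖c i - c i'‖ ≤ ‖y - c i'‖ + ‖y - c i‖ := by
    have : c i - c i' = (y - c i') - (y - c i) := by ring
    rw [this]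
    exact norm_sub_le _ _
  linarith

theorem Jd_piece (D : TwinP J κ n j X) (h : Bundle J κ b ε₁ ε₂)
    (hp : Pieces J κ b d r c μ β ς sh η ρ) {i : Fin k} {y : ℂ} {s : ℝ} (t : ℝ)
    (hy : ‖y - c i‖ < 4 * η i) (hs : |s| < 1) :
    Jd D b d ε₁ ε₂ σ c μ β ς sh η ρ (y, s, t) =
      Jm D b ε₁ ε₂ σ (tau β sh ρ) (cj (ς i) ((y - c i) / μ i), β i + ς i * ρ i * s, t + sh i) := by
  by_cases hex : ∃ i, ‖y - c i‖ ≤ 7 / 2 * η i
  · have e : hex.choose = i := by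
      have h1 := hex.choose_spec
      have h2 := hp.eta hex.choose
      exact JdA_uniq hp hy (by linarith)
    unfold Jd
    rw [dif_pos (show ∃ i, ‖((y, s, t) : ℂ × ℝ × ℝ).1 - c i‖ ≤ 7 / 2 * η i from hex)]
    simp only [e]
  · unfold Jd
    rw [dif_neg (show ¬ ∃ i, ‖((y, s, t) : ℂ × ℝ × ℝ).1 - c i‖ ≤ 7 / 2 * η i from hex)]
    rw [hp.piece i y s t hy hs]
    symm
    apply Jm_out
    change 3 ≤ ‖cj (ς i) ((y - c i) / μ i)‖
    rw [JdA_norm hp i y, le_div_iff₀ (hp.eta i)]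
    push Not at hex
    have h1 := hex i
    have h2 := hp.eta i
    linarith

theorem Jd_off (D : TwinP J κ n j X) (h : Bundle J κ b ε₁ ε₂)
    (hp : Pieces J κ b d r c μ β ς sh η ρ) {y : ℂ} {s : ℝ} (t : ℝ)
    (hy : ∀ i, 3 * η i ≤ ‖y - c i‖) (hs : |s| < 1) :
    Jd D b d ε₁ ε₂ σ c μ β ς sh η ρ (y, s, t) = D.A (d (y, s, t)) := by
  by_cases hex : ∃ i, ‖y - c i‖ ≤ 7 / 2 * η i
  · obtain ⟨i, hi⟩ := hex
    have h2 := hp.eta i
    have h3 : ‖y - c i‖ < 4 * η i := by linarith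
    rw [Jd_piece D h hp t h3 hs, hp.piece i y s t h3 hs]
    apply Jm_out
    change 3 ≤ ‖cj (ς i) ((y - c i) / μ i)‖
    rw [JdA_norm hp i y, le_div_iff₀ (hp.eta i)]
    exact hy i
  · unfold Jd
    rw [dif_neg (show ¬ ∃ i, ‖((y, s, t) : ℂ × ℝ × ℝ).1 - c i‖ ≤ 7 / 2 * η i from hex)]

theorem Ud_dom (hp : Pieces J κ b d r c μ β ς sh η ρ) {i : Fin k} {y : ℂ} {s t : ℝ}
    (ha : (y, s, t) ∈ Ud r c η) (hy : ‖y - c i‖ < 4 * η i) :
    (cj (ς i) ((y - c i) / μ i), β i + ς i * ρ i * s, t + sh i) ∈ DomJ (tau β sh ρ) (dl k) := by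
  obtain ⟨h1, h2, h3⟩ := ha
  have h2' : |s| < 1 / 4 := h2
  refine ⟨?_, ?_, ?_⟩
  · change ‖cj (ς i) ((y - c i) / μ i)‖ < 4
    rw [JdA_norm hp i y, div_lt_iff₀ (hp.eta i)]
    exact hy
  · change |β i + ς i * ρ i * s| < 1
    have h4 := hp.range i
    have h5 := hp.rho i
    have h6 : |ς i * ρ i * s| = ρ i * |s| := by
      rw [abs_mul, abs_mul, abs_of_pos h5]
      rcases hp.sign i with h7 | h7 <;> rw [h7] <;> simp
    have h8 : |β i + ς i * ρ i * s| ≤ |β i| + |ς i * ρ i * s| := abs_add_le _ _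
    rw [h6] at h8
    have h9 : ρ i * |s| < ρ i * 1 := mul_lt_mul_of_pos_left (by linarith) h5
    linarith
  · intro h4
    have h4' : ‖cj (ς i) ((y - c i) / μ i)‖ ≤ 3 := h4
    rw [JdA_norm hp i y, div_le_iff₀ (hp.eta i)] at h4'
    have h5 : |frc (t - hh k i)| < 1 / 2 - dl k := h3 i h4'
    change |frc (t + sh i - tau β sh ρ (β i + ς i * ρ i * s))| < 1 / 2 - dl k
    rw [tau_piece hp i h2'.le]
    have h6 : t + sh i - (hh k i + sh i) = t - hh k i := by ring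
    rw [h6]
    exact h5

theorem Jd_per (D : TwinP J κ n j X) (h : Bundle J κ b ε₁ ε₂)
    (hp : Pieces J κ b d r c μ β ς sh η ρ) (y : ℂ) (s t : ℝ) :
    Jd D b d ε₁ ε₂ σ c μ β ς sh η ρ (y, s, t + 1) = Jd D b d ε₁ ε₂ σ c μ β ς sh η ρ (y, s, t) := by
  by_cases hex : ∃ i, ‖y - c i‖ ≤ 7 / 2 * η i
  · unfold Jd
    rw [dif_pos (show ∃ i, ‖((y, s, t + 1) : ℂ × ℝ × ℝ).1 - c i‖ ≤ 7 / 2 * η i from hex),
      dif_pos (show ∃ i, ‖((y, s, t) : ℂ × ℝ × ℝ).1 - c i‖ ≤ 7 / 2 * η i from hex)]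
    have e : t + 1 + sh hex.choose = (t + sh hex.choose) + 1 := by ring
    change Jm D b ε₁ ε₂ σ (tau β sh ρ) (_, _, t + 1 + sh hex.choose) =
      Jm D b ε₁ ε₂ σ (tau β sh ρ) (_, _, t + sh hex.choose)
    rw [e]
    exact Jm_per D h σ _ _ _ _
  · unfold Jd
    rw [dif_neg (show ¬ ∃ i, ‖((y, s, t + 1) : ℂ × ℝ × ℝ).1 - c i‖ ≤ 7 / 2 * η i from hex),
      dif_neg (show ¬ ∃ i, ‖((y, s, t) : ℂ × ℝ × ℝ).1 - c i‖ ≤ 7 / 2 * η i from hex),
      hp.box.per]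

theorem Ud_open (c : Fin k → ℂ) (η : Fin k → ℝ) (r : ℝ) : IsOpen (Ud r c η) := by
  have e : Ud r c η = {a : ℂ × ℝ × ℝ | ‖a.1‖ < r} ∩ ({a : ℂ × ℝ × ℝ | |a.2.1| < 1 / 4} ∩
      ⋂ i, ({a : ℂ × ℝ × ℝ | 3 * η i < ‖a.1 - c i‖} ∪
        {a : ℂ × ℝ × ℝ | |frc (a.2.2 - hh k i)| < 1 / 2 - dl k})) := by
    ext a
    simp only [Ud, mem_setOf_eq, mem_inter_iff, mem_iInter, mem_union]
    refine and_congr_right fun _ => and_congr_right fun _ => forall_congr' fun i => ?_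
    constructor
    · intro h
      rcases lt_or_ge (3 * η i) ‖a.1 - c i‖ with h1 | h1
      · exact Or.inl h1
      · exact Or.inr (h h1)
    · rintro (h | h) h1
      · exact absurd h (not_lt.2 h1)
      · exact h
  rw [e]
  refine IsOpen.inter (isOpen_lt (by fun_prop) continuous_const)
    (IsOpen.inter (isOpen_lt (by fun_prop) continuous_const) ?_)
  refine isOpen_iInter_of_finite fun i => IsOpen.union (isOpen_lt continuous_const (by fun_prop)) ?_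
  refine isOpen_lt ?_ continuous_const
  exact frc_abs_cont.comp (by fun_prop : Continuous fun a : ℂ × ℝ × ℝ => a.2.2 - hh k i)

theorem Ud_per {y : ℂ} {s t : ℝ} (m : ℤ) : (y, s, t + m) ∈ Ud r c η ↔ (y, s, t) ∈ Ud r c η := by
  simp only [Ud, mem_setOf_eq]
  refine and_congr_right fun _ => and_congr_right fun _ => forall_congr' fun i => ?_
  have e : t + m - hh k i = (t - hh k i) + m := by ring
  rw [e, frc_add_int]

end Pool.Agent.RBM
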