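import Pool.Agent.RBM.JdA

/-!
# RBM/JdB: `Jd` is an open embedding   (difficulty 3)

* `d_not`: `(y, s, t)`, `‖y‖ < r`, `|s| < 1`, `3/2 η i ≤ ‖y - c i‖` for all `i`: `d (y, s, t)` is not on the torus, and more generally is not
  `κ (l, v, t')` with `‖v‖ < 1`: by `hp.torus` some `‖y - c i‖ < 4 η i`, so `d (y, s, t) = b (..)` (`piece`), `kap_box_norm`: `‖(y - c i)/μ i‖ < 3/2`.
* `Jd_loc`: `a = (y, s, t) ∈ Ud`.  If `‖y - c i‖ < 4 η i` for some `i`: near `a`, `Jd = Jm ∘ G_i`, `G_i` the affine bijection of `Jd_piece` (local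
  diffeomorphism: `CSG.ld_of_perm`), `Jm_loc` (`Ud_dom`, `tau_smooth`, `dl_pos`).  Otherwise `‖y - c i‖ ≥ 4 η i` for all `i`, near `a` all are `≥ 3 η i`:
  `Jd = D.A ∘ d` (`Jd_off`), `hp.box.loc`, `D.A_loc` (`d_not`).
* `Jd_inj`: two points of `Ud` with the same value.
  - both in pieces (`i`, `i'`): `Jm_inj`: `cj (ς i) ((y - c i)/μ i) = cj (ς i') ((y' - c i')/μ i')`, `β i + ς i ρ i s = β i' + ς i' ρ i' s'`,
    `t' + sh i' = t + sh i + m`.  If `i ≠ i'`: `beta_dist`: `|β i - β i'| ≥ ρ i + ρ i'` but `|ρ i s| < ρ i`, ...: contradiction.  So `i = i'`, all equal.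
  - both with `‖y - c i‖ ≥ 3 η i` for all `i`: `Jd_off`, `D.A_inj` (`d_not`), `hp.box.inj`.
  - `‖y - c i‖ < 3 η i`, and `‖y' - c i'‖ ≥ 4 η i'` for all `i'` (the remaining case, up to symmetry): the value is `Jm (z, ..)` with `‖z‖ < 3`, so in
    `Inn 3` (`Jm_inn`), and it is `D.A (d (y', s', t'))`.  First case of `Inn`: `D.A_inj`: `d (y', s', t') = b (z₁, s₁, t₁)`, against `hp.inter`.
    Second case (`D.Q z = D.A (d ..)`): `Q_phase`: `D.disj`, or `κ (l, v, t'') = d (y', s', t')`, against `d_not`.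
-/

open scoped Manifold ContDiff Topology
open Set Filter
open Complex (I)
open Pool.Agent.RSG (E4 S4 ex cj c1 c2 ht fh Vx)

namespace Pool.Agent.RBM

variable {E : Type*} [NormedAddCommGroup E] [NormedSpace ℝ E] {H : Type*} [TopologicalSpace H]
  {J : ModelWithCorners ℝ E H}
  {P : Type*} [TopologicalSpace P] [ChartedSpace H P] {κ : ℝ × ℂ × ℝ → P} {b d : ℂ × ℝ × ℝ → P}
  {X : Type*} [TopologicalSpace X] [ChartedSpace E4 X] {n j : ℤ} {ε₁ ε₂ σ : ℝ}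
  {r : ℝ} {k : ℕ} {c μ : Fin k → ℂ} {β ς sh η ρ : Fin k → ℝ}

theorem JdB_abs (hp : Pieces J κ b d r c μ β ς sh η ρ) (i : Fin k) {s : ℝ} (hs : |s| < 1) :
    |β i + ς i * ρ i * s| < 1 := by
  have h4 := hp.range i
  have h5 := hp.rho i
  have h6 : |ς i * ρ i * s| = ρ i * |s| := by
    rw [abs_mul, abs_mul, abs_of_pos h5]
    rcases hp.sign i with h7 | h7 <;> rw [h7] <;> simp
  have h8 : |β i + ς i * ρ i * s| ≤ |β i| + |ς i * ρ i * s| := abs_add_le _ _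
  rw [h6] at h8
  have h9 : ρ i * |s| < ρ i * 1 := mul_lt_mul_of_pos_left hs h5
  linarith

theorem JdB_lt (hp : Pieces J κ b d r c μ β ς sh η ρ) (i : Fin k) {y : ℂ} {x : ℝ} :
    ‖cj (ς i) ((y - c i) / μ i)‖ < x ↔ ‖y - c i‖ < x * η i := by
  rw [JdA_norm hp i y, div_lt_iff₀ (hp.eta i)]

theorem d_not (h : Bundle J κ b ε₁ ε₂)
    (hp : Pieces J κ b d r c μ β ς sh η ρ) {y : ℂ} {s t : ℝ} (hr : ‖y‖ < r) (hs : |s| < 1)
    (hy : ∀ i, 3 / 2 * η i ≤ ‖y - c i‖) {l : ℝ} {v : ℂ} {t' : ℝ} (hv : ‖v‖ < 1) :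
    d (y, s, t) ≠ κ (l, v, t') := by
  intro he
  obtain ⟨i, hi⟩ := hp.torus y s t l v t' hr hs hv he
  rw [hp.piece i y s t hi hs] at he
  have h1 := kap_box_norm h hv ((JdB_lt hp i).2 hi) (JdB_abs hp i hs) he.symm
  rw [JdB_lt hp i] at h1
  exact absurd (hy i) (not_le.2 h1)

theorem d_notT (h : Bundle J κ b ε₁ ε₂)
    (hp : Pieces J κ b d r c μ β ς sh η ρ) {y : ℂ} {s t : ℝ} (hr : ‖y‖ < r) (hs : |s| < 1)
    (hy : ∀ i, 3 / 2 * η i ≤ ‖y - c i‖) : ¬ OnT κ (d (y, s, t)) := by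
  rintro ⟨l, t', he⟩
  exact d_not h hp hr hs hy (by simp) he

/-- the affine change of coordinates of the piece `i` -/
noncomputable def JdBG (hp : Pieces J κ b d r c μ β ς sh η ρ) (i : Fin k) :
    (ℂ × ℝ × ℝ) ≃ (ℂ × ℝ × ℝ) where
  toFun a := (cj (ς i) ((a.1 - c i) / μ i), β i + ς i * ρ i * a.2.1, a.2.2 + sh i)
  invFun a := (c i + μ i * cj (ς i) a.1, (a.2.1 - β i) / (ς i * ρ i), a.2.2 - sh i)
  left_inv a := by
    have h1 : μ i ≠ 0 := by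
      intro h0
      have h3 := hp.mu i
      rw [h0, norm_zero] at h3
      exact (hp.eta i).ne h3
    have h2 : ς i * ρ i ≠ 0 := by
      refine mul_ne_zero ?_ (hp.rho i).ne'
      rcases hp.sign i with h | h <;> rw [h] <;> norm_num
    refine Prod.ext ?_ (Prod.ext ?_ ?_)
    · change c i + μ i * cj (ς i) (cj (ς i) ((a.1 - c i) / μ i)) = a.1
      rw [RSG.cj_cj (hp.sign i), mul_div_cancel₀ _ h1]
      ring
    · change (β i + ς i * ρ i * a.2.1 - β i) / (ς i * ρ i) = a.2.1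
      rw [add_sub_cancel_left, mul_div_cancel_left₀ _ h2]
    · change a.2.2 + sh i - sh i = a.2.2
      ring
  right_inv a := by
    have h1 : μ i ≠ 0 := by
      intro h0
      have h3 := hp.mu i
      rw [h0, norm_zero] at h3
      exact (hp.eta i).ne h3
    have h2 : ς i * ρ i ≠ 0 := by
      refine mul_ne_zero ?_ (hp.rho i).ne'
      rcases hp.sign i with h | h <;> rw [h] <;> norm_num
    refine Prod.ext ?_ (Prod.ext ?_ ?_)
    · change cj (ς i) ((c i + μ i * cj (ς i) a.1 - c i) / μ i) = a.1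
      rw [add_sub_cancel_left, mul_div_cancel_left₀ _ h1, RSG.cj_cj (hp.sign i)]
    · change β i + ς i * ρ i * ((a.2.1 - β i) / (ς i * ρ i)) = a.2.1
      rw [mul_div_cancel₀ _ h2]
      ring
    · change a.2.2 - sh i + sh i = a.2.2
      ring

theorem JdBG_ld (hp : Pieces J κ b d r c μ β ς sh η ρ) (i : Fin k) (a : ℂ × ℝ × ℝ) :
    IsLocalDiffeomorphAt 𝓘(ℝ, ℂ × ℝ × ℝ) 𝓘(ℝ, ℂ × ℝ × ℝ) ∞ (JdBG hp i) a := by
  refine CSG.ld_of_perm (f := JdBG hp i) ?_ ?_ a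
  · refine ContDiff.prodMk ((RSG.cj_smooth (ς i)).comp ?_) (ContDiff.prodMk ?_ ?_)
    · exact (contDiff_fst.sub contDiff_const).div_const _
    · exact contDiff_const.add (contDiff_const.mul contDiff_snd.fst)
    · exact contDiff_snd.snd.add contDiff_const
  · refine ContDiff.prodMk ?_ (ContDiff.prodMk ?_ ?_)
    · exact contDiff_const.add (contDiff_const.mul ((RSG.cj_smooth (ς i)).comp contDiff_fst))
    · exact (contDiff_snd.fst.sub contDiff_const).div_const _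
    · exact contDiff_snd.snd.sub contDiff_const

theorem Jd_loc (D : TwinP J κ n j X) (h : Bundle J κ b ε₁ ε₂) (hσ : DiscOK D b ε₁ ε₂ σ)
    (hp : Pieces J κ b d r c μ β ς sh η ρ) {a : ℂ × ℝ × ℝ} (ha : a ∈ Ud r c η) :
    IsLocalDiffeomorphAt 𝓘(ℝ, ℂ × ℝ × ℝ) (𝓡 4) ∞ (Jd D b d ε₁ ε₂ σ c μ β ς sh η ρ) a := by
  obtain ⟨y, s, t⟩ := a
  have hr : ‖y‖ < r := ha.1
  have hs4 : |s| < 1 / 4 := ha.2.1
  have hs : |s| < 1 := by linarith
  have hevs : ∀ᶠ a' : ℂ × ℝ × ℝ in 𝓝 (y, s, t), |a'.2.1| < 1 := by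
    have hc : Continuous fun a' : ℂ × ℝ × ℝ => |a'.2.1| := by fun_prop
    exact hc.continuousAt.eventually (gt_mem_nhds (show |s| < 1 from hs))
  by_cases hex : ∃ i, ‖y - c i‖ < 4 * η i
  · obtain ⟨i, hi⟩ := hex
    have h1 : IsLocalDiffeomorphAt 𝓘(ℝ, ℂ × ℝ × ℝ) (𝓡 4) ∞ (Jm D b ε₁ ε₂ σ (tau β sh ρ))
        (JdBG hp i (y, s, t)) :=
      Jm_loc D h hσ (tau_smooth β sh ρ) (dl_pos k) (Ud_dom hp ha hi)
    have h2 := IsLocalDiffeomorphAt.comp (hf := JdBG_ld hp i (y, s, t))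
      (g := Jm D b ε₁ ε₂ σ (tau β sh ρ)) (hg := h1)
    refine CSG.ld_congr h2 ?_
    have hev : ∀ᶠ a' : ℂ × ℝ × ℝ in 𝓝 (y, s, t), ‖a'.1 - c i‖ < 4 * η i := by
      have hc : Continuous fun a' : ℂ × ℝ × ℝ => ‖a'.1 - c i‖ := by fun_prop
      exact hc.continuousAt.eventually (gt_mem_nhds (show ‖y - c i‖ < 4 * η i from hi))
    filter_upwards [hev, hevs] with a' ha1 ha2
    exact Jd_piece D h hp a'.2.2 ha1 ha2
  · push Not at hex
    have hy : ∀ i, 3 / 2 * η i ≤ ‖y - c i‖ := fun i => by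
      have h1 := hex i
      have h2 := hp.eta i
      linarith
    have h1 : IsLocalDiffeomorphAt J (𝓡 4) ∞ D.A (d (y, s, t)) :=
      D.A_loc _ (d_notT h hp hr hs hy)
    have h2 := IsLocalDiffeomorphAt.comp (hf := hp.box.loc y s t hr hs) (g := D.A) (hg := h1)
    refine CSG.ld_congr h2 ?_
    have hev : ∀ᶠ a' : ℂ × ℝ × ℝ in 𝓝 (y, s, t), ∀ i, 3 * η i < ‖a'.1 - c i‖ := by
      rw [Filter.eventually_all]
      intro i
      have hc : Continuous fun a' : ℂ × ℝ × ℝ => ‖a'.1 - c i‖ := by fun_prop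
      have h3 : 3 * η i < ‖y - c i‖ := by
        have h1 := hex i
        have h2 := hp.eta i
        linarith
      exact hc.continuousAt.eventually (lt_mem_nhds (show 3 * η i < ‖y - c i‖ from h3))
    filter_upwards [hev, hevs] with a' ha1 ha2
    exact Jd_off D h hp a'.2.2 (fun i => (ha1 i).le) ha2

/-- a point of the twin is not on the part of `d` away from the torus -/
theorem JdB_Q (D : TwinP J κ n j X) (h : Bundle J κ b ε₁ ε₂)
    (hp : Pieces J κ b d r c μ β ς sh η ρ) {z : S4} (hz : fh z ≠ 0) {y : ℂ} {s t : ℝ} (hr : ‖y‖ < r)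
    (hs : |s| < 1) (hy : ∀ i, 3 / 2 * η i ≤ ‖y - c i‖) : D.Q z ≠ D.A (d (y, s, t)) := by
  intro he
  rcases Q_phase D h.thick hz with hc | ⟨l, v, t', hv0, hv1, hQ, hn⟩
  · exact D.disj z _ hz hc (d_notT h hp hr hs hy) he
  · rw [hQ] at he
    have h1 := D.A_inj _ _ hn (d_notT h hp hr hs hy) he
    exact d_not h hp hr hs hy hv1 h1.symm

theorem JdB_far (hp : Pieces J κ b d r c μ β ς sh η ρ) {y : ℂ} (hy : ∀ i, 3 * η i ≤ ‖y - c i‖) :
    ∀ i, 3 / 2 * η i ≤ ‖y - c i‖ := fun i => by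
  have h1 := hy i
  have h2 := hp.eta i
  linarith

theorem JdB_off_off (D : TwinP J κ n j X) (h : Bundle J κ b ε₁ ε₂)
    (hp : Pieces J κ b d r c μ β ς sh η ρ) {y y' : ℂ} {s s' t t' : ℝ} (ha : (y, s, t) ∈ Ud r c η)
    (ha' : (y', s', t') ∈ Ud r c η) (hy : ∀ i, 3 * η i ≤ ‖y - c i‖)
    (hy' : ∀ i, 3 * η i ≤ ‖y' - c i‖)
    (he : Jd D b d ε₁ ε₂ σ c μ β ς sh η ρ (y, s, t) = Jd D b d ε₁ ε₂ σ c μ β ς sh η ρ (y', s', t')) :
    y = y' ∧ s = s' ∧ ∃ m : ℤ, t' = t + m := by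
  have hr : ‖y‖ < r := ha.1
  have hr' : ‖y'‖ < r := ha'.1
  have hs4 : |s| < 1 / 4 := ha.2.1
  have hs4' : |s'| < 1 / 4 := ha'.2.1
  have hs : |s| < 1 := by linarith
  have hs' : |s'| < 1 := by linarith
  rw [Jd_off D h hp t hy hs, Jd_off D h hp t' hy' hs'] at he
  have h1 := D.A_inj _ _ (d_notT h hp hr hs (JdB_far hp hy))
    (d_notT h hp hr' hs' (JdB_far hp hy')) he
  exact hp.box.inj y s t y' s' t' hr hs hr' hs' h1

theorem JdB_mixed (D : TwinP J κ n j X) (h : Bundle J κ b ε₁ ε₂) (hσ : DiscOK D b ε₁ ε₂ σ)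
    (hp : Pieces J κ b d r c μ β ς sh η ρ) {y y' : ℂ} {s s' t t' : ℝ} (ha : (y, s, t) ∈ Ud r c η)
    (ha' : (y', s', t') ∈ Ud r c η) (hy : ∃ i, ‖y - c i‖ < 3 * η i)
    (hy' : ∀ i, 4 * η i ≤ ‖y' - c i‖) :
    Jd D b d ε₁ ε₂ σ c μ β ς sh η ρ (y, s, t) ≠ Jd D b d ε₁ ε₂ σ c μ β ς sh η ρ (y', s', t') := by
  intro he
  have hr' : ‖y'‖ < r := ha'.1
  have hs4 : |s| < 1 / 4 := ha.2.1
  have hs4' : |s'| < 1 / 4 := ha'.2.1
  have hs : |s| < 1 := by linarith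
  have hs' : |s'| < 1 := by linarith
  obtain ⟨i, hi⟩ := hy
  have hη := hp.eta i
  have hy3 : ∀ i, 3 * η i ≤ ‖y' - c i‖ := fun i => by
    have h1 := hy' i
    have h2 := hp.eta i
    linarith
  have hn : ¬ OnT κ (d (y', s', t')) := d_notT h hp hr' hs' (JdB_far hp hy3)
  rw [Jd_piece D h hp t (show ‖y - c i‖ < 4 * η i by linarith) hs, Jd_off D h hp t' hy3 hs'] at he
  have h1 := Jm_inn D h hσ (tau β sh ρ) (t + sh i) ((JdB_lt hp i).2 hi) (JdB_abs hp i hs)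
  rw [he] at h1
  rcases h1 with ⟨z, s₁, t₁, hz, hs₁, hn₁, h2⟩ | ⟨z, hz, h2⟩
  · have h3 := D.A_inj _ _ hn hn₁ h2
    obtain ⟨i', hi'⟩ := hp.inter y' s' t' z s₁ t₁ hr' hs' (by linarith) hs₁ h3
    exact absurd (hy' i') (not_le.2 hi')
  · exact JdB_Q D h hp hz hr' hs' (JdB_far hp hy3) h2.symm

theorem JdB_piece_piece (D : TwinP J κ n j X) (h : Bundle J κ b ε₁ ε₂) (hσ : DiscOK D b ε₁ ε₂ σ)
    (hp : Pieces J κ b d r c μ β ς sh η ρ) {y y' : ℂ} {s s' t t' : ℝ} (ha : (y, s, t) ∈ Ud r c η)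
    (ha' : (y', s', t') ∈ Ud r c η) {i i' : Fin k} (hy : ‖y - c i‖ < 4 * η i)
    (hy' : ‖y' - c i'‖ < 4 * η i')
    (he : Jd D b d ε₁ ε₂ σ c μ β ς sh η ρ (y, s, t) = Jd D b d ε₁ ε₂ σ c μ β ς sh η ρ (y', s', t')) :
    y = y' ∧ s = s' ∧ ∃ m : ℤ, t' = t + m := by
  have hs4 : |s| < 1 / 4 := ha.2.1
  have hs4' : |s'| < 1 / 4 := ha'.2.1
  have hs : |s| < 1 := by linarith
  have hs' : |s'| < 1 := by linarith
  rw [Jd_piece D h hp t hy hs, Jd_piece D h hp t' hy' hs'] at he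
  obtain ⟨h1, h2, m, h3⟩ := Jm_inj D h hσ (tau β sh ρ) (dl_pos k) (Ud_dom hp ha hy)
    (Ud_dom hp ha' hy') he
  have habs : ∀ (i : Fin k) (s : ℝ), |ς i * ρ i * s| = ρ i * |s| := by
    intro i s
    rw [abs_mul, abs_mul, abs_of_pos (hp.rho i)]
    rcases hp.sign i with h7 | h7 <;> rw [h7] <;> simp
  have hii : i = i' := by
    by_contra hne
    have h4 := beta_dist hp hne
    have h5 : β i - β i' = ς i' * ρ i' * s' - ς i * ρ i * s := by linarith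
    have h6 : |β i - β i'| ≤ ρ i' * |s'| + ρ i * |s| := by
      rw [h5, ← habs i' s', ← habs i s]
      exact abs_sub _ _
    have h7 : ρ i * |s| < ρ i * 1 := mul_lt_mul_of_pos_left hs (hp.rho i)
    have h8 : ρ i' * |s'| < ρ i' * 1 := mul_lt_mul_of_pos_left hs' (hp.rho i')
    linarith
  subst hii
  have hG : JdBG hp i (y, s, t) = JdBG hp i (y', s', t' - m) := by
    refine Prod.ext h1 (Prod.ext h2 ?_)
    change t + sh i = t' - m + sh i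
    linarith
  have h9 := (JdBG hp i).injective hG
  refine ⟨congrArg Prod.fst h9, congrArg (fun q : ℂ × ℝ × ℝ => q.2.1) h9, m, ?_⟩
  have h10 : t = t' - m := congrArg (fun q : ℂ × ℝ × ℝ => q.2.2) h9
  linarith

theorem Jd_inj (D : TwinP J κ n j X) (h : Bundle J κ b ε₁ ε₂) (hσ : DiscOK D b ε₁ ε₂ σ)
    (hp : Pieces J κ b d r c μ β ς sh η ρ) {y y' : ℂ} {s s' t t' : ℝ} (ha : (y, s, t) ∈ Ud r c η)
    (ha' : (y', s', t') ∈ Ud r c η)
    (he : Jd D b d ε₁ ε₂ σ c μ β ς sh η ρ (y, s, t) = Jd D b d ε₁ ε₂ σ c μ β ς sh η ρ (y', s', t')) :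
    y = y' ∧ s = s' ∧ ∃ m : ℤ, t' = t + m := by
  have far : ∀ {x : ℂ}, (∀ i, 4 * η i ≤ ‖x - c i‖) → ∀ i, 3 * η i ≤ ‖x - c i‖ := by
    intro x hx i
    have h1 := hx i
    have h2 := hp.eta i
    linarith
  by_cases h1 : ∃ i, ‖y - c i‖ < 4 * η i
  · by_cases h2 : ∃ i, ‖y' - c i‖ < 4 * η i
    · obtain ⟨i, hi⟩ := h1
      obtain ⟨i', hi'⟩ := h2
      exact JdB_piece_piece D h hσ hp ha ha' hi hi' he
    · push Not at h2
      by_cases h3 : ∃ i, ‖y - c i‖ < 3 * η i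
      · exact absurd he (JdB_mixed D h hσ hp ha ha' h3 h2)
      · push Not at h3
        exact JdB_off_off D h hp ha ha' h3 (far h2) he
  · push Not at h1
    by_cases h3 : ∃ i, ‖y' - c i‖ < 3 * η i
    · exact absurd he.symm (JdB_mixed D h hσ hp ha' ha h3 h1)
    · push Not at h3
      exact JdB_off_off D h hp ha ha' (far h1) h3 he

/-- a point of the twin on the part of `Jd` away from the pieces -/
theorem Jd_Q (D : TwinP J κ n j X) (h : Bundle J κ b ε₁ ε₂)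
    (hp : Pieces J κ b d r c μ β ς sh η ρ) {z : S4} (hz : fh z ≠ 0) {y : ℂ} {s t : ℝ} (hr : ‖y‖ < r)
    (hs : |s| < 1) (hy : ∀ i, 3 * η i ≤ ‖y - c i‖) :
    D.Q z ≠ Jd D b d ε₁ ε₂ σ c μ β ς sh η ρ (y, s, t) := by
  rw [Jd_off D h hp t hy hs]
  exact JdB_Q D h hp hz hr hs (JdB_far hp hy)

end Pool.Agent.RBM
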