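import Pool.Agent.RBM.Defs

/-!
# RBM/Prm: permutations given on a part   (difficulty 2)

`f : α → β`, `S ⊆ α`, `g, g'` map `S` into `S`, are inverse to each other on `S`, and are compatible with the fibres
of `f`.  Define `Φ x = f (g a)` if `x = f a` for some `a ∈ S` (choose one), `Φ x = x` otherwise; by compatibility
`Φ (f a) = f (g a)` for all `a ∈ S`.  The same for `g'`: `Φ'`.  `Φ' (Φ (f a)) = f (g' (g a)) = f a`, and if `x ∉ f '' S` then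
`Φ x = x`; so `Φ`, `Φ'` are inverse to each other.
-/

namespace Pool.Agent.RBM

theorem Prm_map {α β : Type*} (S : Set α) (f : α → β) (g : α → α)
    (hc : ∀ a ∈ S, ∀ b ∈ S, f a = f b → f (g a) = f (g b)) :
    ∃ Φ : β → β, (∀ a ∈ S, Φ (f a) = f (g a)) ∧ ∀ x, x ∉ f '' S → Φ x = x := by
  classical
  refine ⟨fun x => if h : ∃ a, a ∈ S ∧ f a = x then f (g h.choose) else x, ?_, ?_⟩
  · intro a ha
    have h : ∃ b, b ∈ S ∧ f b = f a := ⟨a, ha, rfl⟩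
    simp only [dif_pos h]
    exact hc _ h.choose_spec.1 a ha h.choose_spec.2
  · intro x hx
    have h : ¬ ∃ a, a ∈ S ∧ f a = x := hx
    simp only [dif_neg h]

theorem exists_perm {α β : Type*} (S : Set α) (f : α → β) (g g' : α → α)
    (hg : ∀ a ∈ S, g a ∈ S) (hg' : ∀ a ∈ S, g' a ∈ S)
    (h1 : ∀ a ∈ S, g' (g a) = a) (h2 : ∀ a ∈ S, g (g' a) = a)
    (hc : ∀ a ∈ S, ∀ b ∈ S, f a = f b → f (g a) = f (g b))
    (hc' : ∀ a ∈ S, ∀ b ∈ S, f a = f b → f (g' a) = f (g' b)) :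
    ∃ Φ : Equiv.Perm β, (∀ a ∈ S, Φ (f a) = f (g a)) ∧ (∀ x, x ∉ f '' S → Φ x = x) ∧
      (∀ a ∈ S, Φ.symm (f a) = f (g' a)) ∧ (∀ x, x ∉ f '' S → Φ.symm x = x) := by
  classical
  obtain ⟨Φ, hΦ1, hΦ2⟩ := Prm_map S f g hc
  obtain ⟨Φ', hΦ1', hΦ2'⟩ := Prm_map S f g' hc'
  refine ⟨⟨Φ, Φ', ?_, ?_⟩, hΦ1, hΦ2, hΦ1', hΦ2'⟩
  · intro x
    by_cases hx : x ∈ f '' S
    · obtain ⟨a, ha, rfl⟩ := hx
      rw [hΦ1 a ha, hΦ1' _ (hg a ha), h1 a ha]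
    · rw [hΦ2 x hx, hΦ2' x hx]
  · intro x
    by_cases hx : x ∈ f '' S
    · obtain ⟨a, ha, rfl⟩ := hx
      rw [hΦ1' a ha, hΦ1 _ (hg' a ha), h2 a ha]
    · rw [hΦ2' x hx, hΦ2 x hx]

end Pool.Agent.RBM
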