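import Pool.Agent.RBM.TorP
import Pool.Agent.RBM.Prm

/-!
# RBM/MMa: the permutation `M`   (difficulty 2)

* `Ms_in`: `‖y‖ < r`; if `r ≤ ‖Ms (y, s)‖` then (`r' < r`, `IsMs.out`) `Ms (Ms (y, s), s) = Ms (y, s)`, so `Ms (y, s) = y` by injectivity of
  `Ms (·, s)`: contradiction.
* `exists_M`: `exists_perm` with `S = {(y, s, t) | ‖y‖ < r, |s| < 1/8}`, `f = d`, `g (y, s, t) = (Ms (y, s), s, t)`,
  `g' (y, s, t) = ((Equiv.ofBijective _ (hMs.bij s)).symm y, s, t)`; `g' a ∈ S`: the same argument as `Ms_in` (if `x = g' y` has norm `≥ r`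
  then `Ms (x, s) = x`, so `y = x`).  Fibres: `hb.inj`: `t' = t + m`, `box_int`.
* `M_high`, `M_far`: `M = id` on the part `1/8 ≤ |s|` of the box and off `d (‖y‖ ≤ r', |s| ≤ 1/8)`.
-/

open scoped Manifold ContDiff Topology
open Set Filter
open Complex (I)

namespace Pool.Agent.RBM

variable {E : Type*} [NormedAddCommGroup E] [NormedSpace ℝ E] {H : Type*} [TopologicalSpace H]
  {J : ModelWithCorners ℝ E H}
  {P : Type*} [TopologicalSpace P] [ChartedSpace H P] {d : ℂ × ℝ × ℝ → P}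
  {r r' : ℝ} {k : ℕ} {c : Fin k → ℂ} {η : Fin k → ℝ} {Ms : ℂ × ℝ → ℂ} {R : ℂ → ℂ}

theorem Ms_in (hr : r' < r) (hMs : IsMs r' c η Ms R) {y : ℂ} (s : ℝ) (hy : ‖y‖ < r) :
    ‖Ms (y, s)‖ < r := by
  by_contra hcon
  have h1 : r ≤ ‖Ms (y, s)‖ := not_lt.mp hcon
  have h2 : Ms (Ms (y, s), s) = Ms (y, s) := hMs.out _ _ (hr.le.trans h1)
  have h3 : Ms (y, s) = y := (hMs.bij s).1 h2
  rw [h3] at h1
  linarith

theorem exists_M (hb : Box J d r) (hr : r' < r) (hMs : IsMs r' c η Ms R) :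
    ∃ M : Equiv.Perm P, IsM r d Ms M := by
  have he : ∀ (y : ℂ) (s : ℝ), Ms ((Equiv.ofBijective _ (hMs.bij s)).symm y, s) = y := fun y s =>
    (Equiv.ofBijective _ (hMs.bij s)).apply_symm_apply y
  have he' : ∀ (y : ℂ) (s : ℝ), (Equiv.ofBijective _ (hMs.bij s)).symm (Ms (y, s)) = y := fun y s =>
    (Equiv.ofBijective _ (hMs.bij s)).symm_apply_apply y
  have hkey : ∀ (a a' : ℂ × ℝ × ℝ), ‖a.1‖ < r → |a.2.1| < 1 / 8 → ‖a'.1‖ < r → |a'.2.1| < 1 / 8 →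
      d a = d a' → a.1 = a'.1 ∧ a.2.1 = a'.2.1 ∧ ∃ m : ℤ, a'.2.2 = a.2.2 + m := by
    rintro ⟨y, s, t⟩ ⟨y', s', t'⟩ h1 h2 h3 h4 h5
    exact hb.inj y s t y' s' t' h1 (by simp only at h2; linarith) h3 (by simp only at h4; linarith) h5
  obtain ⟨Φ, h1, h2, -, -⟩ := exists_perm (α := ℂ × ℝ × ℝ) (β := P)
    {a : ℂ × ℝ × ℝ | ‖a.1‖ < r ∧ |a.2.1| < 1 / 8} d
    (fun a => (Ms (a.1, a.2.1), a.2.1, a.2.2))
    (fun a => ((Equiv.ofBijective _ (hMs.bij a.2.1)).symm a.1, a.2.1, a.2.2))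
    (fun a ha => ⟨Ms_in hr hMs _ ha.1, ha.2⟩)
    (fun a ha => by
      refine ⟨?_, ha.2⟩
      show ‖(Equiv.ofBijective _ (hMs.bij a.2.1)).symm a.1‖ < r
      by_contra hcon
      have h1 : r ≤ ‖(Equiv.ofBijective _ (hMs.bij a.2.1)).symm a.1‖ := not_lt.mp hcon
      have h2 := hMs.out ((Equiv.ofBijective _ (hMs.bij a.2.1)).symm a.1) a.2.1 (hr.le.trans h1)
      rw [he] at h2
      rw [← h2] at h1
      have h3 : ‖a.1‖ < r := ha.1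
      linarith)
    (fun a _ => by
      show ((Equiv.ofBijective _ (hMs.bij a.2.1)).symm (Ms (a.1, a.2.1)), a.2.1, a.2.2) = a
      rw [he'])
    (fun a _ => by
      show (Ms ((Equiv.ofBijective _ (hMs.bij a.2.1)).symm a.1, a.2.1), a.2.1, a.2.2) = a
      rw [he])
    (fun a ha a' ha' hh => by
      obtain ⟨e1, e2, m, e3⟩ := hkey a a' ha.1 ha.2 ha'.1 ha'.2 hh
      show d (Ms (a.1, a.2.1), a.2.1, a.2.2) = d (Ms (a'.1, a'.2.1), a'.2.1, a'.2.2)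
      rw [e3, ← e1, ← e2, box_int hb])
    (fun a ha a' ha' hh => by
      obtain ⟨e1, e2, m, e3⟩ := hkey a a' ha.1 ha.2 ha'.1 ha'.2 hh
      show d ((Equiv.ofBijective _ (hMs.bij a.2.1)).symm a.1, a.2.1, a.2.2) =
        d ((Equiv.ofBijective _ (hMs.bij a'.2.1)).symm a'.1, a'.2.1, a'.2.2)
      rw [e3, ← e1, box_int hb]
      rw [← e2])
  refine ⟨Φ, ⟨fun y s t hy hs => h1 (y, s, t) ⟨hy, hs⟩, fun p hp => h2 p ?_⟩⟩
  rintro ⟨⟨y, s, t⟩, ⟨hy, hs⟩, he⟩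
  exact hp y s t hy hs he.symm

theorem M_high (hb : Box J d r) {M : Equiv.Perm P} (hM : IsM r d Ms M) {y : ℂ} {s : ℝ} (t : ℝ)
    (hy : ‖y‖ < r) (h1 : 1 / 8 ≤ |s|) (h2 : |s| < 1) : M (d (y, s, t)) = d (y, s, t) := by
  refine hM.out _ fun y' s' t' hy' hs' he => ?_
  obtain ⟨-, e2, -⟩ := hb.inj y s t y' s' t' hy h2 hy' (by linarith) he
  rw [e2] at h1
  linarith

theorem M_far (hMs : IsMs r' c η Ms R) {M : Equiv.Perm P} (hM : IsM r d Ms M) {p : P}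
    (hp : ∀ (y : ℂ) (s t : ℝ), ‖y‖ ≤ r' → |s| ≤ 1 / 8 → p ≠ d (y, s, t)) : M p = p := by
  by_cases hex : ∃ (y : ℂ) (s t : ℝ), ‖y‖ < r ∧ |s| < 1 / 8 ∧ p = d (y, s, t)
  · obtain ⟨y, s, t, hy, hs, rfl⟩ := hex
    have h1 : r' ≤ ‖y‖ := by
      by_contra hcon
      exact hp y s t (not_le.mp hcon).le hs.le rfl
    rw [hM.ball y s t hy hs, hMs.out y s h1]
  · refine hM.out p fun y s t hy hs he => hex ⟨y, s, t, hy, hs, he⟩

end Pool.Agent.RBM
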