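import Pool.Agent.RBM.MMa
import Pool.Agent.RBM.LdS

/-!
# RBM/MMb: `M` is a local diffeomorphism off the level `s = 1/8`   (difficulty 3)

`K = d (‖y‖ ≤ r', |s| ≤ 1/8)` `= d (‖y‖ ≤ r', |s| ≤ 1/8, t ∈ [0, 1])` is compact (`box_int`, `hb.loc` gives continuity), so closed;
`M = id` off `K` (`M_far`).
* `p ∉ d (‖y‖ < r, |s| < 1)`: `p ∉ K`: `ld_off_closed`.
* `p = d (y, s, t)`, `‖y‖ < r`, `-1 < s < 1/8`: near `(y, s, t)`: `M (d (y', s', t')) = d (Ms (y', s'), s', t')` (for `s' ≤ -1/8`: `IsMs.low`,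
  `M_high`): `ld_conj` with `L (y, s, t) = (Ms (y, s), s, t)` (`hMs.ld` times the identity of `t`: `RSG.ld_prodMap`), `Ms_in`.
* `1/8 < s < 1`: `M = id` near `p`: `ld_conj` with `L = id`, or `ld_congr`.
* `s = 1/8`: by hypothesis `‖y - c i‖ < 17/5 η i` for some `i`: near `(y, 1/8, t)`: `s' ≥ 1/16` so `Ms (y', s') = R y' = y'` (`high`, `R_in`)
  if `|s'| < 1/8`, and `M_high` otherwise: `M (d a') = d a'` near: `ld_conj` with `L = id`.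
-/

open scoped Manifold ContDiff Topology
open Set Filter
open Complex (I)

namespace Pool.Agent.RBM

variable {E : Type*} [NormedAddCommGroup E] [NormedSpace ℝ E] {H : Type*} [TopologicalSpace H]
  {J : ModelWithCorners ℝ E H}
  {P : Type*} [TopologicalSpace P] [ChartedSpace H P] {d : ℂ × ℝ × ℝ → P}
  {r r' : ℝ} {k : ℕ} {c : Fin k → ℂ} {η : Fin k → ℝ} {Ms : ℂ × ℝ → ℂ} {R : ℂ → ℂ}

theorem MMb_L (hMs : IsMs r' c η Ms R) (a : ℂ × ℝ × ℝ) :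
    IsLocalDiffeomorphAt 𝓘(ℝ, ℂ × ℝ × ℝ) 𝓘(ℝ, ℂ × ℝ × ℝ) ∞
      (fun a : ℂ × ℝ × ℝ => (Ms (a.1, a.2.1), a.2.1, a.2.2)) a := by
  obtain ⟨y, s, t⟩ := a
  have h1 : IsLocalDiffeomorphAt (𝓘(ℝ, ℂ × ℝ).prod 𝓘(ℝ, ℝ)) (𝓘(ℝ, ℂ × ℝ).prod 𝓘(ℝ, ℝ)) ∞
      (Prod.map (fun q : ℂ × ℝ => (Ms q, q.2)) (id : ℝ → ℝ)) ((y, s), t) :=
    Pool.Agent.RSG.ld_prodMap (hMs.ld (y, s)) (Pool.Agent.CSG.ld_id t)
  have h2 : IsLocalDiffeomorphAt 𝓘(ℝ, ℂ × ℝ × ℝ) (𝓘(ℝ, ℂ × ℝ).prod 𝓘(ℝ, ℝ)) ∞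
      (fun q : ℂ × ℝ × ℝ => ((q.1, q.2.1), q.2.2)) (y, s, t) := by
    rw [← modelWithCornersSelf_prod, chartedSpaceSelf_prod]
    refine Pool.Agent.CSG.ld_of_perm (f := (Equiv.prodAssoc ℂ ℝ ℝ).symm) ?_ ?_ (y, s, t)
    · exact (contDiff_fst.prodMk contDiff_snd.fst).prodMk contDiff_snd.snd
    · exact contDiff_fst.fst.prodMk (contDiff_fst.snd.prodMk contDiff_snd)
  have h3 : IsLocalDiffeomorphAt (𝓘(ℝ, ℂ × ℝ).prod 𝓘(ℝ, ℝ)) 𝓘(ℝ, ℂ × ℝ × ℝ) ∞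
      (fun q : (ℂ × ℝ) × ℝ => ((q.1.1, q.1.2, q.2) : ℂ × ℝ × ℝ)) ((Ms (y, s), s), t) := by
    rw [← modelWithCornersSelf_prod, chartedSpaceSelf_prod]
    refine Pool.Agent.CSG.ld_of_perm (f := (Equiv.prodAssoc ℂ ℝ ℝ)) ?_ ?_ ((Ms (y, s), s), t)
    · exact contDiff_fst.fst.prodMk (contDiff_fst.snd.prodMk contDiff_snd)
    · exact (contDiff_fst.prodMk contDiff_snd.fst).prodMk contDiff_snd.snd
  have h4 := IsLocalDiffeomorphAt.comp (hf := h2)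
    (g := Prod.map (fun q : ℂ × ℝ => (Ms q, q.2)) (id : ℝ → ℝ)) (hg := h1)
  exact IsLocalDiffeomorphAt.comp (hf := h4)
    (g := fun q : (ℂ × ℝ) × ℝ => ((q.1.1, q.1.2, q.2) : ℂ × ℝ × ℝ)) (hg := h3)

theorem MMb_closed [T2Space P] (hb : Box J d r) (hr : r' < r) :
    IsClosed {p : P | ∃ (y : ℂ) (s t : ℝ), ‖y‖ ≤ r' ∧ |s| ≤ 1 / 8 ∧ p = d (y, s, t)} := by
  have h1 : IsCompact (Metric.closedBall (0 : ℂ) r' ×ˢ (Icc (-(1 / 8) : ℝ) (1 / 8) ×ˢ Icc (0 : ℝ) 1)) :=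
    (isCompact_closedBall _ _).prod (isCompact_Icc.prod isCompact_Icc)
  have h2 : ContinuousOn d (Metric.closedBall (0 : ℂ) r' ×ˢ (Icc (-(1 / 8) : ℝ) (1 / 8) ×ˢ Icc (0 : ℝ) 1)) := by
    rintro ⟨y, s, t⟩ ⟨hy, hs, -⟩
    have hy' : ‖y‖ ≤ r' := by simpa using hy
    have hs' : |s| ≤ 1 / 8 := abs_le.mpr ⟨hs.1, hs.2⟩
    exact (Pool.Agent.CSG.ld_continuousAt (hb.loc y s t (by linarith) (by linarith))).continuousWithinAt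
  have h3 := (h1.image_of_continuousOn h2).isClosed
  convert! h3 using 1
  ext p
  constructor
  · rintro ⟨y, s, t, hy, hs, rfl⟩
    refine ⟨(y, s, Int.fract t), ⟨by simpa using hy, ⟨(abs_le.mp hs).1, (abs_le.mp hs).2⟩,
      Int.fract_nonneg t, (Int.fract_lt_one t).le⟩, ?_⟩
    have h4 := box_int hb y s (Int.fract t) ⌊t⌋
    rw [Int.fract_add_floor] at h4
    exact h4.symm
  · rintro ⟨⟨y, s, t⟩, ⟨hy, hs, -⟩, rfl⟩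
    exact ⟨y, s, t, by simpa using hy, abs_le.mpr ⟨hs.1, hs.2⟩, rfl⟩

theorem M_ld [T2Space P] (hb : Box J d r) (hr : r' < r) (hMs : IsMs r' c η Ms R)
    {M : Equiv.Perm P} (hM : IsM r d Ms M) {p : P}
    (hp : ∀ (y : ℂ) (t : ℝ), ‖y‖ < r → (∀ i, 17 / 5 * η i ≤ ‖y - c i‖) → p ≠ d (y, 1 / 8, t)) :
    IsLocalDiffeomorphAt J J ∞ M p := by
  by_cases hex : ∃ (y : ℂ) (s t : ℝ), ‖y‖ < r ∧ |s| < 1 ∧ p = d (y, s, t)
  swap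
  · refine ld_off_closed (MMb_closed hb hr) (fun x hx => M_far hMs hM fun y s t hy hs he =>
      hx ⟨y, s, t, hy, hs, he⟩) ?_
    rintro ⟨y, s, t, hy, hs, he⟩
    exact hex ⟨y, s, t, by linarith, by linarith, he⟩
  obtain ⟨y, s, t, hy, hs, rfl⟩ := hex
  have hd := hb.loc y s t hy hs
  have hcy : Tendsto (fun a : ℂ × ℝ × ℝ => ‖a.1‖) (𝓝 (y, s, t)) (𝓝 ‖y‖) :=
    (continuous_fst.norm).tendsto _
  have hcs : Tendsto (fun a : ℂ × ℝ × ℝ => a.2.1) (𝓝 (y, s, t)) (𝓝 s) :=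
    (continuous_snd.fst).tendsto _
  have hcas : Tendsto (fun a : ℂ × ℝ × ℝ => |a.2.1|) (𝓝 (y, s, t)) (𝓝 |s|) :=
    (continuous_snd.fst.abs).tendsto _
  have e1 : ∀ᶠ a : ℂ × ℝ × ℝ in 𝓝 (y, s, t), ‖a.1‖ < r := hcy.eventually (Iio_mem_nhds hy)
  have e2 : ∀ᶠ a : ℂ × ℝ × ℝ in 𝓝 (y, s, t), |a.2.1| < 1 := hcas.eventually (Iio_mem_nhds hs)
  rcases lt_trichotomy s (1 / 8) with h1 | h1 | h1
  · have e3 : ∀ᶠ a : ℂ × ℝ × ℝ in 𝓝 (y, s, t), a.2.1 < 1 / 8 := hcs.eventually (Iio_mem_nhds h1)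
    refine ld_conj (f := d) (f' := d) (L := fun a : ℂ × ℝ × ℝ => (Ms (a.1, a.2.1), a.2.1, a.2.2))
      hd (MMb_L hMs _) (hb.loc _ _ _ (Ms_in hr hMs _ hy) hs) ?_
    filter_upwards [e1, e2, e3] with a ha1 ha2 ha3
    obtain ⟨y', s', t'⟩ := a
    simp only at ha1 ha2 ha3 ⊢
    by_cases h2 : |s'| < 1 / 8
    · exact hM.ball y' s' t' ha1 h2
    · rw [not_lt] at h2
      rw [M_high hb hM t' ha1 h2 ha2]
      have h3 : s' ≤ -(1 / 8) := by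
        rcases le_abs.mp h2 with h4 | h4
        · linarith
        · linarith
      rw [hMs.low y' s' h3]
  · subst h1
    have h2 : ∃ i, ‖y - c i‖ < 17 / 5 * η i := by
      by_contra hcon
      push Not at hcon
      exact hp y t hy hcon rfl
    obtain ⟨i, hi⟩ := h2
    have hci : Tendsto (fun a : ℂ × ℝ × ℝ => ‖a.1 - c i‖) (𝓝 (y, 1 / 8, t)) (𝓝 ‖y - c i‖) :=
      ((continuous_fst.sub continuous_const).norm).tendsto _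
    have e3 : ∀ᶠ a : ℂ × ℝ × ℝ in 𝓝 (y, 1 / 8, t), ‖a.1 - c i‖ < 17 / 5 * η i :=
      hci.eventually (Iio_mem_nhds hi)
    have e4 : ∀ᶠ a : ℂ × ℝ × ℝ in 𝓝 (y, 1 / 8, t), 1 / 16 < a.2.1 :=
      hcs.eventually (Ioi_mem_nhds (by norm_num))
    refine ld_conj (f := d) (f' := d) (L := id) hd (Pool.Agent.CSG.ld_id _) hd ?_
    filter_upwards [e1, e2, e3, e4] with a ha1 ha2 ha3 ha4
    obtain ⟨y', s', t'⟩ := a
    simp only [id] at ha1 ha2 ha3 ha4 ⊢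
    by_cases h2 : |s'| < 1 / 8
    · rw [hM.ball y' s' t' ha1 h2, hMs.high y' s' ha4.le, hMs.R_in i y' ha3.le]
    · exact M_high hb hM t' ha1 (not_lt.mp h2) ha2
  · have e3 : ∀ᶠ a : ℂ × ℝ × ℝ in 𝓝 (y, s, t), 1 / 8 < a.2.1 := hcs.eventually (Ioi_mem_nhds h1)
    refine ld_conj (f := d) (f' := d) (L := id) hd (Pool.Agent.CSG.ld_id _) hd ?_
    filter_upwards [e1, e2, e3] with a ha1 ha2 ha3
    obtain ⟨y', s', t'⟩ := a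
    simp only [id] at ha1 ha2 ha3 ⊢
    exact M_high hb hM t' ha1 (ha3.le.trans (le_abs_self _)) ha2

end Pool.Agent.RBM
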