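import Pool.Agent.RBM.XiB
import Pool.Agent.RBM.MMb

/-!
# RBM/NewA: the new maps `A'` and `Q'`   (difficulty 3)

`A' p = Ξ (D.A (M.symm p))`, `Q' z = Ξ (D.Q z)`.
* `Ap_eq`: `‖y‖ < r`, `1/16 < s < 1/4`, `3 η i < ‖y - c i‖` for all `i`, `p = d (y, s, t)`: `A' p = D.A p`.
  - `s < 1/8`: let `R y₀ = y` (`hMs.bijR`); `‖y₀‖ < r` (otherwise `R y₀ = Ms (y₀, 1/16) = y₀` by `out`), `3 η i < ‖y₀ - c i‖` (otherwise `R y₀ = y₀` by `R_in`);
    `M (d (y₀, s, t)) = d (Ms (y₀, s), s, t) = d (y, s, t)` (`IsM.ball`, `high`), so `M.symm p = d (y₀, s, t)`; `D.A (d (y₀, s, t)) = Jd (y₀, s, t)` (`Jd_off`),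
    `(y₀, s, t) ∈ Ud`, `Ξ (Jd (y₀, s, t)) = Jd (La (y₀, s, t)) = Jd (y, s, t) = D.A p` (`IsXi.ball`, `IsLam.high`, `Jd_off`).
  - `1/8 ≤ s`: `M p = p` (`M_high`), `Ξ (D.A p) = Ξ (Jd (y, s, t)) = Jd (y, s, t)` (`Xi_high`).
* `Ap_ld`: `p₀ = M.symm p`.  If `p = d (y, s, t)` as in `Ap_eq`, then `A' = D.A` near `p` (the set of these points is open: image of an open set under
  a local diffeomorphism, `CSG.ld_image_nhds`), and `p` is not on the torus (`d_notT`), `D.A_loc`.  Otherwise: `M` is a local diffeomorphism at `p₀`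
  (`M_ld`: if `p₀ = d (y, 1/8, t)`, `17/5 η i ≤ ‖y - c i‖`, then `M p₀ = p₀` (`M_high`), so `p = p₀` is a point as in `Ap_eq`), so `M.symm` is one at `p`
  (`ld_symm`); `D.A` is one at `p₀`; `Ξ` is one at `D.A p₀` (`Xi_ld`: if `D.A p₀ = Jd (y, 1/8, t)`, `17/5 η i ≤ ‖y - c i‖`, then `= D.A (d (y, 1/8, t))` by `Jd_off`, so
  `p₀ = d (y, 1/8, t)` by `D.A_inj`, `d_notT`, and again `p = p₀`).
* `Qp_ld`: `D.Q_loc`, `Xi_ld`: `D.Q z ≠ Jd (y, 1/8, t)` by `Jd_Q`.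
* `OnT_M`: `p` is on the new torus iff `M.symm p` is on the old one.
-/

open scoped Manifold ContDiff Topology
open Set Filter
open Complex (I)
open Pool.Agent.RSG (E4 S4 ex cj c1 c2 ht fh Vx)

namespace Pool.Agent.RBM

variable {E : Type*} [NormedAddCommGroup E] [NormedSpace ℝ E] {H : Type*} [TopologicalSpace H]
  {J : ModelWithCorners ℝ E H}
  {P : Type*} [TopologicalSpace P] [ChartedSpace H P] {κ : ℝ × ℂ × ℝ → P} {b d : ℂ × ℝ × ℝ → P}
  {X : Type*} [TopologicalSpace X] [ChartedSpace E4 X] {n j : ℤ} {ε₁ ε₂ σ : ℝ}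
  {r r' : ℝ} {k : ℕ} {c μ : Fin k → ℂ} {β ς sh η ρ : Fin k → ℝ} {La : ℂ × ℝ × ℝ → ℂ × ℝ × ℝ}
  {Ms : ℂ × ℝ → ℂ} {R : ℂ → ℂ}

theorem OnT_M (M : Equiv.Perm P) (p : P) :
    OnT (fun a => M (κ a)) p ↔ OnT κ (M.symm p) := by
  constructor
  · rintro ⟨l, t, h⟩
    refine ⟨l, t, ?_⟩
    rw [Equiv.symm_apply_eq]
    exact h
  · rintro ⟨l, t, h⟩
    refine ⟨l, t, ?_⟩
    rw [Equiv.symm_apply_eq] at h
    exact h

theorem Ap_eq (D : TwinP J κ n j X) (h : Bundle J κ b ε₁ ε₂) (hσ : DiscOK D b ε₁ ε₂ σ)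
    (hp : Pieces J κ b d r c μ β ς sh η ρ) (hr : r' < r) (hLa : IsLam r' c η La R)
    (hMs : IsMs r' c η Ms R) {M : Equiv.Perm P} (hM : IsM r d Ms M) {Ξ : Equiv.Perm X}
    (hΞ : IsXi (Jd D b d ε₁ ε₂ σ c μ β ς sh η ρ) r c η La Ξ) {y : ℂ} {s : ℝ} (t : ℝ) (hy : ‖y‖ < r)
    (hs1 : 1 / 16 < s) (hs2 : s < 1 / 4) (hc : ∀ i, 3 * η i < ‖y - c i‖) :
    Ξ (D.A (M.symm (d (y, s, t)))) = D.A (d (y, s, t)) := by
  have hs0 : |s| = s := abs_of_pos (by linarith)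
  have hUd : ∀ y₀ : ℂ, ‖y₀‖ < r → (∀ i, 3 * η i < ‖y₀ - c i‖) → (y₀, s, t) ∈ Ud r c η := by
    intro y₀ h1 h2
    refine ⟨h1, ?_, ?_⟩
    · show |s| < 1 / 4
      rw [hs0]; exact hs2
    · intro i hi
      exact absurd hi (not_le.2 (h2 i))
  have hJ : ∀ y₀ : ℂ, (∀ i, 3 * η i < ‖y₀ - c i‖) →
      Jd D b d ε₁ ε₂ σ c μ β ς sh η ρ (y₀, s, t) = D.A (d (y₀, s, t)) := fun y₀ h2 =>
    Jd_off D h hp t (fun i => (h2 i).le) (by rw [hs0]; linarith)
  rcases lt_or_ge s (1 / 8) with hs | hs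
  · obtain ⟨y₀, hy₀⟩ := hMs.bijR.2 y
    have h1 : ‖y₀‖ < r := by
      by_contra hc1
      rw [not_lt] at hc1
      have e1 := hMs.out y₀ (1 / 16) (hr.le.trans hc1)
      rw [hMs.high y₀ (1 / 16) le_rfl, hy₀] at e1
      rw [← e1] at hc1
      exact absurd hy (not_lt.2 hc1)
    have h2 : ∀ i, 3 * η i < ‖y₀ - c i‖ := by
      intro i
      by_contra hc1
      rw [not_lt] at hc1
      have hη := hp.eta i
      have e1 := hMs.R_in i y₀ (by linarith)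
      rw [hy₀] at e1
      rw [← e1] at hc1
      exact absurd (hc i) (not_lt.2 hc1)
    have e1 : M (d (y₀, s, t)) = d (y, s, t) := by
      rw [hM.ball y₀ s t h1 (by rw [hs0]; exact hs), hMs.high y₀ s hs1.le, hy₀]
    have e2 : M.symm (d (y, s, t)) = d (y₀, s, t) := by
      rw [Equiv.symm_apply_eq, e1]
    rw [e2, ← hJ y₀ h2, hΞ.ball _ (hUd y₀ h1 h2) (by show |s| < 1 / 8; rw [hs0]; exact hs),
      hLa.high y₀ s t hs1.le, hy₀, hJ y hc]
  · have e1 : M (d (y, s, t)) = d (y, s, t) :=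
      M_high hp.box hM t hy (by rw [hs0]; exact hs) (by rw [hs0]; linarith)
    have e2 : M.symm (d (y, s, t)) = d (y, s, t) := by
      rw [Equiv.symm_apply_eq, e1]
    rw [e2, ← hJ y hc]
    exact Xi_high D h hσ hp hΞ (hUd y hy hc) (by show 1 / 8 ≤ |s|; rw [hs0]; exact hs)

theorem NewA_open (r : ℝ) (c : Fin k → ℂ) (η : Fin k → ℝ) :
    IsOpen {a : ℂ × ℝ × ℝ | ‖a.1‖ < r ∧ 1 / 16 < a.2.1 ∧ a.2.1 < 1 / 4 ∧
      ∀ i, 3 * η i < ‖a.1 - c i‖} := by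
  refine IsOpen.and (isOpen_lt (by fun_prop) (by fun_prop)) ?_
  refine IsOpen.and (isOpen_lt (by fun_prop) (by fun_prop)) ?_
  refine IsOpen.and (isOpen_lt (by fun_prop) (by fun_prop)) ?_
  rw [setOf_forall]
  exact isOpen_iInter_of_finite fun i => isOpen_lt (by fun_prop) (by fun_prop)

theorem Ap_ld [T2Space P] [T2Space X] (D : TwinP J κ n j X) (h : Bundle J κ b ε₁ ε₂)
    (hσ : DiscOK D b ε₁ ε₂ σ)
    (hp : Pieces J κ b d r c μ β ς sh η ρ) (hr : r' < r) (hLa : IsLam r' c η La R)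
    (hMs : IsMs r' c η Ms R) {M : Equiv.Perm P} (hM : IsM r d Ms M) {Ξ : Equiv.Perm X}
    (hΞ : IsXi (Jd D b d ε₁ ε₂ σ c μ β ς sh η ρ) r c η La Ξ) {p : P}
    (hT : ¬ OnT (fun a => M (κ a)) p) :
    IsLocalDiffeomorphAt J (𝓡 4) ∞ (fun p => Ξ (D.A (M.symm p))) p := by
  rw [OnT_M] at hT
  by_cases hcase : ∃ (y : ℂ) (s t : ℝ), ‖y‖ < r ∧ 1 / 16 < s ∧ s < 1 / 4 ∧
      (∀ i, 3 * η i < ‖y - c i‖) ∧ p = d (y, s, t)
  · obtain ⟨y, s, t, hy, hs1, hs2, hc, rfl⟩ := hcase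
    have hs0 : |s| = s := abs_of_pos (by linarith)
    have hs : |s| < 1 := by rw [hs0]; linarith
    have hnT : ¬ OnT κ (d (y, s, t)) := d_notT h hp hy hs fun i => by
      have h1 := hc i
      have h2 := hp.eta i
      linarith
    refine Pool.Agent.CSG.ld_congr (D.A_loc _ hnT) ?_
    have h1 := Pool.Agent.CSG.ld_image_nhds (hp.box.loc y s t hy hs)
      ((NewA_open r c η).mem_nhds
        (show (y, s, t) ∈ {a : ℂ × ℝ × ℝ | ‖a.1‖ < r ∧ 1 / 16 < a.2.1 ∧ a.2.1 < 1 / 4 ∧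
          ∀ i, 3 * η i < ‖a.1 - c i‖} from ⟨hy, hs1, hs2, hc⟩))
    filter_upwards [h1] with q hq
    obtain ⟨⟨y', s', t'⟩, ⟨h2, h3, h4, h5⟩, rfl⟩ := hq
    exact Ap_eq D h hσ hp hr hLa hMs hM hΞ t' h2 h3 h4 h5
  · have hne : ∀ (y : ℂ) (t : ℝ), ‖y‖ < r → (∀ i, 17 / 5 * η i ≤ ‖y - c i‖) →
        M.symm p ≠ d (y, 1 / 8, t) := by
      intro y t hy hc he
      apply hcase
      refine ⟨y, 1 / 8, t, hy, by norm_num, by norm_num, ?_, ?_⟩
      · intro i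
        have h1 := hc i
        have h2 := hp.eta i
        linarith
      · have e1 : M (d (y, 1 / 8, t)) = d (y, 1 / 8, t) :=
          M_high hp.box hM t hy (by rw [abs_of_pos (by norm_num)])
            (by rw [abs_of_pos (by norm_num)]; norm_num)
        rw [Equiv.symm_apply_eq, e1] at he
        exact he
    have h1 : IsLocalDiffeomorphAt J J ∞ M (M.symm p) := M_ld hp.box hr hMs hM hne
    have h2 : IsLocalDiffeomorphAt J J ∞ M.symm p := by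
      have := ld_symm h1
      rwa [Equiv.apply_symm_apply] at this
    have h3 : IsLocalDiffeomorphAt J (𝓡 4) ∞ D.A (M.symm p) := D.A_loc _ hT
    have h4 : IsLocalDiffeomorphAt (𝓡 4) (𝓡 4) ∞ Ξ (D.A (M.symm p)) := by
      refine Xi_ld D h hσ hp hr hLa hMs.R_in hΞ ?_
      intro y t hy hc he
      have hc3 : ∀ i, 3 * η i ≤ ‖y - c i‖ := fun i => by
        have h1 := hc i
        have h2 := hp.eta i
        linarith
      have hs8 : |(1 / 8 : ℝ)| < 1 := by rw [abs_of_pos (by norm_num)]; norm_num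
      rw [Jd_off D h hp t hc3 hs8] at he
      have hnT : ¬ OnT κ (d (y, 1 / 8, t)) := d_notT h hp hy hs8 fun i => by
        have h1 := hc i
        have h2 := hp.eta i
        linarith
      exact hne y t hy hc (D.A_inj _ _ hT hnT he)
    have h5 := IsLocalDiffeomorphAt.comp (hf := h2) (hg := h3)
    exact IsLocalDiffeomorphAt.comp (hf := h5) (hg := h4)

theorem Qp_ld [T2Space X] (D : TwinP J κ n j X) (h : Bundle J κ b ε₁ ε₂)
    (hσ : DiscOK D b ε₁ ε₂ σ)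
    (hp : Pieces J κ b d r c μ β ς sh η ρ) (hr : r' < r) (hLa : IsLam r' c η La R)
    (hMs : IsMs r' c η Ms R) {Ξ : Equiv.Perm X}
    (hΞ : IsXi (Jd D b d ε₁ ε₂ σ c μ β ς sh η ρ) r c η La Ξ) {z : S4} (hz : fh z ≠ 0) :
    IsLocalDiffeomorphAt (𝓡 4) (𝓡 4) ∞ (fun z => Ξ (D.Q z)) z := by
  have h4 : IsLocalDiffeomorphAt (𝓡 4) (𝓡 4) ∞ Ξ (D.Q z) := by
    refine Xi_ld D h hσ hp hr hLa hMs.R_in hΞ ?_
    intro y t hy hc
    refine Jd_Q D h hp hz hy ?_ ?_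
    · rw [abs_of_pos (by norm_num)]; norm_num
    · intro i
      have h1 := hc i
      have h2 := hp.eta i
      linarith
  exact IsLocalDiffeomorphAt.comp (hf := D.Q_loc z hz) (hg := h4)

/-- `M ∘ κ` is a thick torus -/
theorem thick_M [T2Space P] (h : Bundle J κ b ε₁ ε₂) (hp : Pieces J κ b d r c μ β ς sh η ρ)
    (hr : r' < r) (hMs : IsMs r' c η Ms R) {M : Equiv.Perm P} (hM : IsM r d Ms M) :
    ThickT J (fun a => M (κ a)) := by
  refine ⟨?_, ?_, ?_, ?_⟩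
  · intro l v t
    show M (κ (l + 1, v, t)) = M (κ (l, v, t))
    rw [h.thick.perl]
  · intro l v t
    show M (κ (l, v, t + 1)) = M (κ (l, v, t))
    rw [h.thick.pert]
  · intro l v t hv
    have h1 := h.thick.loc l v t hv
    have h2 : IsLocalDiffeomorphAt J J ∞ M (κ (l, v, t)) := by
      refine M_ld hp.box hr hMs hM ?_
      intro y t' hy hc he
      refine d_not h hp (y := y) (s := 1 / 8) (t := t') hy ?_ ?_ hv he.symm
      · rw [abs_of_pos (by norm_num)]; norm_num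
      · intro i
        have h1 := hc i
        have h2 := hp.eta i
        linarith
    exact IsLocalDiffeomorphAt.comp (hf := h1) (hg := h2)
  · intro l v t l' v' t' hv hv' he
    exact h.thick.inj l v t l' v' t' hv hv' (M.injective he)

end Pool.Agent.RBM
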