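import Pool.Agent.RBM.JdB
import Pool.Agent.RBM.Prm

/-!
# RBM/XiA: the permutation `Ξ`   (difficulty 2)

* `La_Ud`: `La` preserves `s`.  If `a ∈ Ud` and `La a ∉ Ud` then `La (La a) = La a` (`a' = La a = (y, s, t)` with `|s| < 1/4` not in `Ud`: either
  `r ≤ ‖y‖`: `IsLam.out` (`r' < r`), or there is `i` with `‖y - c i‖ ≤ 3 η i` and `1/2 - dl ≤ |frc (t - hh i)|`: `IsLam.hole`), so `La a = a` by
  injectivity.
* `La_symm_Ud`: the same for the inverse (if `x = La⁻¹ a ∉ Ud` then `La x = x`).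
* `exists_Xi`: `exists_perm` with `S = Ud ∩ {|s| < 1/8}`, `f = Jd`, `g = La`, `g' = La⁻¹`.  Fibres: `Jd_inj`: `a' = a + (0, 0, m)`, `IsLam.per`
  (iterated over integers, also for `La⁻¹`), `Jd_per` (iterated).
-/

open scoped Manifold ContDiff Topology
open Set Filter
open Complex (I)
open Pool.Agent.RSG (E4 S4 ex cj c1 c2 ht fh Vx)

namespace Pool.Agent.RBM

variable {E : Type*} [NormedAddCommGroup E] [NormedSpace ℝ E] {H : Type*} [TopologicalSpace H]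
  {J : ModelWithCorners ℝ E H}
  {P : Type*} [TopologicalSpace P] [ChartedSpace H P] {κ : ℝ × ℂ × ℝ → P} {b d : ℂ × ℝ × ℝ → P}
  {X : Type*} [TopologicalSpace X] [ChartedSpace E4 X] {n j : ℤ} {ε₁ ε₂ σ : ℝ}
  {r r' : ℝ} {k : ℕ} {c μ : Fin k → ℂ} {β ς sh η ρ : Fin k → ℝ} {La : ℂ × ℝ × ℝ → ℂ × ℝ × ℝ} {R : ℂ → ℂ}

theorem La_int (hLa : IsLam r' c η La R) (y : ℂ) (s t : ℝ) (m : ℤ) :
    La (y, s, t + m) = La (y, s, t) + (0, 0, (m : ℝ)) := by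
  have key : ∀ (n : ℕ) (t : ℝ), La (y, s, t + n) = La (y, s, t) + (0, 0, (n : ℝ)) := by
    intro n
    induction n with
    | zero => intro t; simp
    | succ n ih =>
      intro t
      have h1 := hLa.per y s (t + n)
      have e1 : t + ((n + 1 : ℕ) : ℝ) = t + n + 1 := by push_cast; ring
      rw [e1, h1, ih, add_assoc]
      congr 1
      simp
  obtain ⟨n, rfl | rfl⟩ := m.eq_nat_or_neg
  · have := key n t
    push_cast
    exact this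
  · have h1 := key n (t + ((-(n : ℤ) : ℤ) : ℝ))
    have e1 : t + ((-(n : ℤ) : ℤ) : ℝ) + n = t := by push_cast; ring
    rw [e1] at h1
    rw [h1, add_assoc]
    have e2 : ((0 : ℂ), (0 : ℝ), (n : ℝ)) + (0, 0, ((-(n : ℤ) : ℤ) : ℝ)) = 0 := by
      push_cast
      simp
    rw [e2, add_zero]

theorem Jd_int (D : TwinP J κ n j X) (h : Bundle J κ b ε₁ ε₂)
    (hp : Pieces J κ b d r c μ β ς sh η ρ) (y : ℂ) (s t : ℝ) (m : ℤ) :
    Jd D b d ε₁ ε₂ σ c μ β ς sh η ρ (y, s, t + m) = Jd D b d ε₁ ε₂ σ c μ β ς sh η ρ (y, s, t) := by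
  have key : ∀ (n : ℕ) (t : ℝ), Jd D b d ε₁ ε₂ σ c μ β ς sh η ρ (y, s, t + n) =
      Jd D b d ε₁ ε₂ σ c μ β ς sh η ρ (y, s, t) := by
    intro n
    induction n with
    | zero => intro t; simp
    | succ n ih =>
      intro t
      have e1 : t + ((n + 1 : ℕ) : ℝ) = t + n + 1 := by push_cast; ring
      rw [e1, Jd_per D h hp, ih]
  obtain ⟨n, rfl | rfl⟩ := m.eq_nat_or_neg
  · have := key n t
    push_cast
    exact this
  · have h1 := key n (t + ((-(n : ℤ) : ℤ) : ℝ))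
    have e1 : t + ((-(n : ℤ) : ℤ) : ℝ) + n = t := by push_cast; ring
    rw [e1] at h1
    exact h1.symm

theorem XiA_notUd (hη : ∀ i, 0 < η i) (hr : r' < r) (hLa : IsLam r' c η La R) {a : ℂ × ℝ × ℝ}
    (hs : |a.2.1| < 1 / 4) (ha : a ∉ Ud r c η) : La a = a := by
  obtain ⟨y, s, t⟩ := a
  by_cases h1 : r ≤ ‖y‖
  · exact hLa.out y s t (hr.le.trans h1)
  · have h2 : ∃ i, ‖y - c i‖ ≤ 3 * η i ∧ 1 / 2 - dl k ≤ |frc (t - hh k i)| := by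
      by_contra hcon
      push Not at hcon
      exact ha ⟨not_le.mp h1, hs, fun i hi => hcon i hi⟩
    obtain ⟨i, h3, h4⟩ := h2
    have h5 : 0 < dl k := by
      unfold dl
      positivity
    refine hLa.hole i y s t ?_ ?_
    · have := hη i
      linarith
    · linarith

theorem La_Ud (hη : ∀ i, 0 < η i) (hr : r' < r) (hLa : IsLam r' c η La R) {a : ℂ × ℝ × ℝ}
    (ha : a ∈ Ud r c η) : La a ∈ Ud r c η := by
  by_contra hcon
  have h1 : (La a).2.1 = a.2.1 := hLa.s a.1 a.2.1 a.2.2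
  have h2 : La (La a) = La a := XiA_notUd hη hr hLa (by rw [h1]; exact ha.2.1) hcon
  have h3 : La a = a := hLa.bij.1 h2
  rw [h3] at hcon
  exact hcon ha

theorem La_symm_Ud (hη : ∀ i, 0 < η i) (hr : r' < r) (hLa : IsLam r' c η La R) {a : ℂ × ℝ × ℝ}
    (ha : La a ∈ Ud r c η) : a ∈ Ud r c η := by
  by_contra hcon
  have h1 : (La a).2.1 = a.2.1 := hLa.s a.1 a.2.1 a.2.2
  have h2 : La a = a := XiA_notUd hη hr hLa (by rw [← h1]; exact ha.2.1) hcon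
  rw [h2] at ha
  exact hcon ha

theorem exists_Xi (D : TwinP J κ n j X) (h : Bundle J κ b ε₁ ε₂) (hσ : DiscOK D b ε₁ ε₂ σ)
    (hp : Pieces J κ b d r c μ β ς sh η ρ) (hr : r' < r) (hLa : IsLam r' c η La R) :
    ∃ Ξ : Equiv.Perm X, IsXi (Jd D b d ε₁ ε₂ σ c μ β ς sh η ρ) r c η La Ξ := by
  obtain ⟨e, he⟩ : ∃ e : (ℂ × ℝ × ℝ) ≃ (ℂ × ℝ × ℝ), ∀ a, e a = La a :=
    ⟨Equiv.ofBijective La hLa.bij, fun _ => rfl⟩
  have hes : ∀ a, (e.symm a).2.1 = a.2.1 := by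
    intro a
    have h1 : (La (e.symm a)).2.1 = (e.symm a).2.1 := hLa.s _ _ _
    rw [← he, e.apply_symm_apply] at h1
    exact h1.symm
  have hint : ∀ (a : ℂ × ℝ × ℝ) (m : ℤ), La (a.1, a.2.1, a.2.2 + m) = La a + (0, 0, (m : ℝ)) :=
    fun a m => La_int hLa a.1 a.2.1 a.2.2 m
  have hint' : ∀ (a : ℂ × ℝ × ℝ) (m : ℤ), e.symm (a.1, a.2.1, a.2.2 + m) = e.symm a + (0, 0, (m : ℝ)) := by
    intro a m
    rw [Equiv.symm_apply_eq, he]
    have h1 := hint (e.symm a) m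
    rw [← he, ← he, e.apply_symm_apply] at h1
    have h2 : e.symm a + (0, 0, (m : ℝ)) = ((e.symm a).1, (e.symm a).2.1, (e.symm a).2.2 + m) := by
      ext <;> simp
    rw [h2, ← he, h1]
    ext <;> simp
  have hJ : ∀ (a : ℂ × ℝ × ℝ) (m : ℤ), Jd D b d ε₁ ε₂ σ c μ β ς sh η ρ (a + (0, 0, (m : ℝ))) =
      Jd D b d ε₁ ε₂ σ c μ β ς sh η ρ a := by
    intro a m
    have h1 := Jd_int (σ := σ) D h hp a.1 a.2.1 a.2.2 m
    have h2 : a + (0, 0, (m : ℝ)) = (a.1, a.2.1, a.2.2 + m) := by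
      ext <;> simp
    rw [h2, h1]
  have hinj : ∀ a a' : ℂ × ℝ × ℝ, a ∈ Ud r c η → a' ∈ Ud r c η →
      Jd D b d ε₁ ε₂ σ c μ β ς sh η ρ a = Jd D b d ε₁ ε₂ σ c μ β ς sh η ρ a' →
      ∃ m : ℤ, a' = (a.1, a.2.1, a.2.2 + m) := by
    rintro ⟨y, s, t⟩ ⟨y', s', t'⟩ h1 h2 h3
    obtain ⟨rfl, rfl, m, rfl⟩ := Jd_inj D h hσ hp h1 h2 h3
    exact ⟨m, rfl⟩
  obtain ⟨Φ, h1, h2, -, -⟩ := exists_perm (α := ℂ × ℝ × ℝ) (β := X)
    {a : ℂ × ℝ × ℝ | a ∈ Ud r c η ∧ |a.2.1| < 1 / 8} (Jd D b d ε₁ ε₂ σ c μ β ς sh η ρ) La e.symm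
    (fun a ha => ⟨La_Ud hp.eta hr hLa ha.1, by
      have h3 : (La a).2.1 = a.2.1 := hLa.s a.1 a.2.1 a.2.2
      rw [h3]
      exact ha.2⟩)
    (fun a ha => ⟨La_symm_Ud hp.eta hr hLa (by rw [← he, e.apply_symm_apply]; exact ha.1), by
      rw [hes]
      exact ha.2⟩)
    (fun a _ => by rw [← he, e.symm_apply_apply])
    (fun a _ => by rw [← he, e.apply_symm_apply])
    (fun a ha a' ha' hh => by
      obtain ⟨m, rfl⟩ := hinj a a' ha.1 ha'.1 hh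
      rw [hint, hJ])
    (fun a ha a' ha' hh => by
      obtain ⟨m, rfl⟩ := hinj a a' ha.1 ha'.1 hh
      rw [hint', hJ])
  refine ⟨Φ, ⟨fun a ha hs => h1 a ⟨ha, hs⟩, fun x hx => h2 x ?_⟩⟩
  rintro ⟨a, ⟨ha, hs⟩, he⟩
  exact hx a ha hs he.symm

theorem Xi_high (D : TwinP J κ n j X) (h : Bundle J κ b ε₁ ε₂) (hσ : DiscOK D b ε₁ ε₂ σ)
    (hp : Pieces J κ b d r c μ β ς sh η ρ) {Ξ : Equiv.Perm X}
    (hΞ : IsXi (Jd D b d ε₁ ε₂ σ c μ β ς sh η ρ) r c η La Ξ) {a : ℂ × ℝ × ℝ} (ha : a ∈ Ud r c η)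
    (hs : 1 / 8 ≤ |a.2.1|) :
    Ξ (Jd D b d ε₁ ε₂ σ c μ β ς sh η ρ a) = Jd D b d ε₁ ε₂ σ c μ β ς sh η ρ a := by
  refine hΞ.out _ fun a' ha' hs' he => ?_
  obtain ⟨y, s, t⟩ := a
  obtain ⟨y', s', t'⟩ := a'
  obtain ⟨-, e2, -⟩ := Jd_inj D h hσ hp ha ha' he
  simp only at hs hs'
  rw [e2] at hs
  linarith

end Pool.Agent.RBM
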