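import Pool.Agent.RBM.XiA
import Pool.Agent.RBM.LdS

/-!
# RBM/XiB: `Ξ` is a local diffeomorphism off the level `s = 1/8`   (difficulty 3)

`K = {(y, s, t) | ‖y‖ ≤ r', |s| ≤ 1/8, ∀ i, ¬ (‖y - c i‖ < 17/5 η i ∧ 1/2 - 2 dl < |frc (t - hh i)|)}` is closed (`frc_abs_cont`) and contained in
`Ud` (`3 η i < 17/5 η i`, `1/2 - 2 dl < 1/2 - dl`); `K ∩ {t ∈ [0, 1]}` is compact, `Jd` is continuous on it (`Jd_loc`), so its image `C` is compact,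
closed; `C = Jd (K)` (`Jd_int`, `K` is periodic in `t`).  Off `C`, `Ξ = id`: if `x = Jd a`, `a ∈ Ud`, `|s| < 1/8`, and `a ∉ K`, then `La a = a`
(`IsLam.out`, `IsLam.hole`).
* `x ∉ Jd (Ud)`: `x ∉ C`: `ld_off_closed`.
* `x = Jd a`, `a = (y, s, t) ∈ Ud`, `s < 1/8`: near `a`: `Ξ (Jd a') = Jd (La a')` (for `s' ≤ -1/8`: `Xi_high`, `IsLam.low`): `ld_conj` (`Jd_loc`, `La_Ud`).
* `1/8 < s`: `Ξ (Jd a') = Jd a'` near `a` (`Xi_high`).
* `s = 1/8`: by hypothesis `‖y - c i‖ < 17/5 η i` for some `i`; near `a`: `s' ≥ 1/16`, `La a' = (R y', s', t') = a'` (`IsLam.high`, `R_in`): `Ξ (Jd a') = Jd a'`.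
-/

open scoped Manifold ContDiff Topology
open Set Filter
open Complex (I)
open Pool.Agent.RSG (E4 S4 ex cj c1 c2 ht fh Vx)

namespace Pool.Agent.RBM

variable {E : Type*} [NormedAddCommGroup E] [NormedSpace ℝ E] {H : Type*} [TopologicalSpace H]
  {J : ModelWithCorners ℝ E H}
  {P : Type*} [TopologicalSpace P] [ChartedSpace H P] {κ : ℝ × ℂ × ℝ → P} {b d : ℂ × ℝ × ℝ → P}
  {X : Type*} [TopologicalSpace X] [ChartedSpace E4 X] {n j : ℤ} {ε₁ ε₂ σ : ℝ}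
  {r r' : ℝ} {k : ℕ} {c μ : Fin k → ℂ} {β ς sh η ρ : Fin k → ℝ} {La : ℂ × ℝ × ℝ → ℂ × ℝ × ℝ} {R : ℂ → ℂ}

theorem XiB_dl (k : ℕ) : 0 < dl k := by
  unfold dl
  positivity

/-- the closed part of the box which carries the move -/
def XiB_K (r' : ℝ) {k : ℕ} (c : Fin k → ℂ) (η : Fin k → ℝ) : Set (ℂ × ℝ × ℝ) :=
  {a | ‖a.1‖ ≤ r' ∧ |a.2.1| ≤ 1 / 8 ∧
    ∀ i, 17 / 5 * η i ≤ ‖a.1 - c i‖ ∨ |frc (a.2.2 - hh k i)| ≤ 1 / 2 - 2 * dl k}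

theorem XiB_K_closed (r' : ℝ) (c : Fin k → ℂ) (η : Fin k → ℝ) : IsClosed (XiB_K r' c η) := by
  have h1 : IsClosed {a : ℂ × ℝ × ℝ | ‖a.1‖ ≤ r'} := isClosed_le continuous_fst.norm continuous_const
  have h2 : IsClosed {a : ℂ × ℝ × ℝ | |a.2.1| ≤ 1 / 8} :=
    isClosed_le continuous_snd.fst.abs continuous_const
  have h3 : ∀ i, IsClosed {a : ℂ × ℝ × ℝ | 17 / 5 * η i ≤ ‖a.1 - c i‖ ∨
      |frc (a.2.2 - hh k i)| ≤ 1 / 2 - 2 * dl k} := by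
    intro i
    refine IsClosed.union (isClosed_le continuous_const (continuous_fst.sub continuous_const).norm) ?_
    exact isClosed_le (frc_abs_cont.comp (continuous_snd.snd.sub continuous_const)) continuous_const
  have h4 := h1.inter (h2.inter (isClosed_iInter h3))
  convert! h4 using 1
  ext a
  simp [XiB_K]

theorem XiB_K_Ud (hη : ∀ i, 0 < η i) (hr : r' < r) {a : ℂ × ℝ × ℝ} (ha : a ∈ XiB_K r' c η) :
    a ∈ Ud r c η := by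
  obtain ⟨h1, h2, h3⟩ := ha
  refine ⟨by linarith, by linarith, fun i hi => ?_⟩
  have h4 := XiB_dl k
  rcases h3 i with h5 | h5
  · have := hη i
    linarith
  · linarith

theorem XiB_K_per {y : ℂ} {s t : ℝ} (m : ℤ) : (y, s, t + m) ∈ XiB_K r' c η ↔ (y, s, t) ∈ XiB_K r' c η := by
  have h1 : ∀ i, frc (t + m - hh k i) = frc (t - hh k i) := by
    intro i
    rw [← frc_add_int (t - hh k i) m]
    congr 1
    ring
  simp only [XiB_K, Set.mem_ofPred_eq, h1]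

theorem XiB_notK (hLa : IsLam r' c η La R) {a : ℂ × ℝ × ℝ}
    (hs : |a.2.1| ≤ 1 / 8) (ha : a ∉ XiB_K r' c η) : La a = a := by
  obtain ⟨y, s, t⟩ := a
  by_cases h1 : ‖y‖ ≤ r'
  · have h2 : ∃ i, ‖y - c i‖ < 17 / 5 * η i ∧ 1 / 2 - 2 * dl k < |frc (t - hh k i)| := by
      by_contra hcon
      push Not at hcon
      refine ha ⟨h1, hs, fun i => ?_⟩
      by_cases h3 : 17 / 5 * η i ≤ ‖y - c i‖
      · exact Or.inl h3
      · exact Or.inr (hcon i (not_le.mp h3))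
    obtain ⟨i, h3, h4⟩ := h2
    exact hLa.hole i y s t h3.le h4.le
  · exact hLa.out y s t (not_le.mp h1).le

theorem Xi_ld [T2Space X] (D : TwinP J κ n j X) (h : Bundle J κ b ε₁ ε₂) (hσ : DiscOK D b ε₁ ε₂ σ)
    (hp : Pieces J κ b d r c μ β ς sh η ρ) (hr : r' < r) (hLa : IsLam r' c η La R)
    (hR : ∀ (i : Fin k) (y : ℂ), ‖y - c i‖ ≤ 17 / 5 * η i → R y = y) {Ξ : Equiv.Perm X}
    (hΞ : IsXi (Jd D b d ε₁ ε₂ σ c μ β ς sh η ρ) r c η La Ξ) {x : X}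
    (hx : ∀ (y : ℂ) (t : ℝ), ‖y‖ < r → (∀ i, 17 / 5 * η i ≤ ‖y - c i‖) →
      x ≠ Jd D b d ε₁ ε₂ σ c μ β ς sh η ρ (y, 1 / 8, t)) :
    IsLocalDiffeomorphAt (𝓡 4) (𝓡 4) ∞ Ξ x := by
  have hfar : ∀ x : X, x ∉ Jd D b d ε₁ ε₂ σ c μ β ς sh η ρ '' XiB_K r' c η → Ξ x = x := by
    intro x hxK
    by_cases hex : ∃ a ∈ Ud r c η, |a.2.1| < 1 / 8 ∧ x = Jd D b d ε₁ ε₂ σ c μ β ς sh η ρ a
    · obtain ⟨a, ha, hs, rfl⟩ := hex
      have h1 : a ∉ XiB_K r' c η := fun h2 => hxK ⟨a, h2, rfl⟩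
      rw [hΞ.ball a ha hs, XiB_notK hLa hs.le h1]
    · exact hΞ.out x fun a ha hs he => hex ⟨a, ha, hs, he⟩
  have hclosed : IsClosed (Jd D b d ε₁ ε₂ σ c μ β ς sh η ρ '' XiB_K r' c η) := by
    have h1 : IsCompact (XiB_K r' c η ∩ (univ ×ˢ (univ ×ˢ Icc (0 : ℝ) 1))) := by
      have h2 : IsCompact (Metric.closedBall (0 : ℂ) r' ×ˢ
          (Icc (-(1 / 8) : ℝ) (1 / 8) ×ˢ Icc (0 : ℝ) 1)) :=
        (isCompact_closedBall _ _).prod (isCompact_Icc.prod isCompact_Icc)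
      refine h2.of_isClosed_subset ((XiB_K_closed r' c η).inter
        (isClosed_univ.prod (isClosed_univ.prod isClosed_Icc))) ?_
      rintro ⟨y, s, t⟩ ⟨⟨h3, h4, -⟩, -, -, h5⟩
      exact ⟨by simpa using h3, ⟨(abs_le.mp h4).1, (abs_le.mp h4).2⟩, h5⟩
    have h2 : ContinuousOn (Jd D b d ε₁ ε₂ σ c μ β ς sh η ρ)
        (XiB_K r' c η ∩ (univ ×ˢ (univ ×ˢ Icc (0 : ℝ) 1))) := fun a ha =>
      (Pool.Agent.CSG.ld_continuousAt
        (Jd_loc D h hσ hp (XiB_K_Ud hp.eta hr ha.1))).continuousWithinAt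
    have h3 := (h1.image_of_continuousOn h2).isClosed
    convert! h3 using 1
    apply Subset.antisymm
    · rintro x ⟨⟨y, s, t⟩, ha, rfl⟩
      have e1 : Int.fract t + (⌊t⌋ : ℤ) = t := Int.fract_add_floor t
      refine ⟨(y, s, Int.fract t), ⟨?_, ⟨trivial, trivial, Int.fract_nonneg t,
        (Int.fract_lt_one t).le⟩⟩, ?_⟩
      · have h4 := XiB_K_per (r' := r') (c := c) (η := η) (y := y) (s := s) (t := Int.fract t) ⌊t⌋
        rw [e1] at h4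
        exact h4.mp ha
      · have h4 := Jd_int (σ := σ) D h hp y s (Int.fract t) ⌊t⌋
        rw [e1] at h4
        exact h4.symm
    · rintro x ⟨a, ha, rfl⟩
      exact ⟨a, ha.1, rfl⟩
  by_cases hex : ∃ a ∈ Ud r c η, x = Jd D b d ε₁ ε₂ σ c μ β ς sh η ρ a
  swap
  · refine ld_off_closed hclosed hfar ?_
    rintro ⟨a, ha, he⟩
    exact hex ⟨a, XiB_K_Ud hp.eta hr ha, he.symm⟩
  obtain ⟨⟨y, s, t⟩, ha, rfl⟩ := hex
  have hd := Jd_loc D h hσ hp ha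
  have e0 : ∀ᶠ a in 𝓝 (y, s, t), a ∈ Ud r c η := (Ud_open c η r).mem_nhds ha
  have hcs : Tendsto (fun a : ℂ × ℝ × ℝ => a.2.1) (𝓝 (y, s, t)) (𝓝 s) :=
    (continuous_snd.fst).tendsto _
  rcases lt_trichotomy s (1 / 8) with h1 | h1 | h1
  · have e3 : ∀ᶠ a : ℂ × ℝ × ℝ in 𝓝 (y, s, t), a.2.1 < 1 / 8 := hcs.eventually (Iio_mem_nhds h1)
    refine ld_conj (f := Jd D b d ε₁ ε₂ σ c μ β ς sh η ρ) (f' := Jd D b d ε₁ ε₂ σ c μ β ς sh η ρ)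
      (L := La) hd (hLa.ld _) (Jd_loc D h hσ hp (La_Ud hp.eta hr hLa ha)) ?_
    filter_upwards [e0, e3] with a ha1 ha3
    by_cases h2 : |a.2.1| < 1 / 8
    · exact hΞ.ball a ha1 h2
    · rw [not_lt] at h2
      rw [Xi_high D h hσ hp hΞ ha1 h2]
      have h3 : a.2.1 ≤ -(1 / 8) := by
        rcases le_abs.mp h2 with h4 | h4
        · linarith
        · linarith
      have h4 : La a = a := hLa.low a.1 a.2.1 a.2.2 h3
      rw [h4]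
  · subst h1
    have h2 : ∃ i, ‖y - c i‖ < 17 / 5 * η i := by
      by_contra hcon
      push Not at hcon
      exact hx y t ha.1 hcon rfl
    obtain ⟨i, hi⟩ := h2
    have hci : Tendsto (fun a : ℂ × ℝ × ℝ => ‖a.1 - c i‖) (𝓝 (y, 1 / 8, t)) (𝓝 ‖y - c i‖) :=
      ((continuous_fst.sub continuous_const).norm).tendsto _
    have e3 : ∀ᶠ a : ℂ × ℝ × ℝ in 𝓝 (y, 1 / 8, t), ‖a.1 - c i‖ < 17 / 5 * η i :=
      hci.eventually (Iio_mem_nhds hi)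
    have e4 : ∀ᶠ a : ℂ × ℝ × ℝ in 𝓝 (y, 1 / 8, t), 1 / 16 < a.2.1 :=
      hcs.eventually (Ioi_mem_nhds (by norm_num))
    refine ld_conj (f := Jd D b d ε₁ ε₂ σ c μ β ς sh η ρ) (f' := Jd D b d ε₁ ε₂ σ c μ β ς sh η ρ)
      (L := id) hd (Pool.Agent.CSG.ld_id _) hd ?_
    filter_upwards [e0, e3, e4] with a ha1 ha3 ha4
    show Ξ (Jd D b d ε₁ ε₂ σ c μ β ς sh η ρ a) = Jd D b d ε₁ ε₂ σ c μ β ς sh η ρ a
    by_cases h2 : |a.2.1| < 1 / 8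
    · have h3 : La a = (R a.1, a.2.1, a.2.2) := hLa.high a.1 a.2.1 a.2.2 ha4.le
      rw [hΞ.ball a ha1 h2, h3, hR i a.1 ha3.le]
    · exact Xi_high D h hσ hp hΞ ha1 (not_lt.mp h2)
  · have e3 : ∀ᶠ a : ℂ × ℝ × ℝ in 𝓝 (y, s, t), 1 / 8 < a.2.1 := hcs.eventually (Ioi_mem_nhds h1)
    refine ld_conj (f := Jd D b d ε₁ ε₂ σ c μ β ς sh η ρ) (f' := Jd D b d ε₁ ε₂ σ c μ β ς sh η ρ)
      (L := id) hd (Pool.Agent.CSG.ld_id _) hd ?_
    filter_upwards [e0, e3] with a ha1 ha3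
    exact Xi_high D h hσ hp hΞ ha1 (ha3.le.trans (le_abs_self _))

end Pool.Agent.RBM
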